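import Pool.Agent.H56.Anosov.Descend

/-!
# The descended maps are Anosov
-/

open scoped Manifold ContDiff Topology
open Set Filter Pool.Agent.H56.AnosovDefs

namespace Pool.Agent.H56.Anosov

variable {θ θ' : ℝ → ℝ}

lemma Fm_symm_periodic (P : LimProfile θ θ') (x : E) {γ : E} (hγ : γ ∈ Gam) :
    (Fm P).symm (x + γ) = (Fm P).symm x + L.symm γ := by
  apply (Fm P).injective
  rw [Homeomorph.apply_symm_apply, Fm_periodic P _ (Lsymm_mem hγ), Homeomorph.apply_symm_apply,
    ContinuousLinearEquiv.apply_symm_apply]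

lemma Fm_equi (P : LimProfile θ θ') : Equi (Fm P) := by
  intro x γ hγ
  rw [Fm_periodic P x hγ, add_sub_cancel_left]
  exact L_mem hγ

lemma Fm_symm_equi (P : LimProfile θ θ') : Equi (Fm P).symm := by
  intro x γ hγ
  rw [Fm_symm_periodic P x hγ, add_sub_cancel_left]
  exact Lsymm_mem hγ

/-- the diffeomorphism of the torus -/
noncomputable def fT (P : LimProfile θ θ') : Diff1 E Tor :=
  descDiff (Fm P) (Fm_equi P) (Fm_symm_equi P) (Fm_contDiff P) (Fm_symm_contDiff P)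

lemma fT_tor (P : LimProfile θ θ') (x : E) : fT P (tor x) = tor (Fm P x) := rfl

lemma fT_symm_tor (P : LimProfile θ θ') (x : E) :
    (fT P).symm (tor x) = tor ((Fm P).symm x) := rfl

lemma cc_fderiv_periodic (P : LimProfile θ θ') (x γ : E) (hγ : γ ∈ Gam) :
    fderiv ℝ (cc P) (x + γ) = fderiv ℝ (cc P) x := by
  have h1 : (fun z => cc P (z + γ)) = cc P := by
    ext1 z; exact cc_periodic P z hγ
  have h2 : fderiv ℝ (fun z => cc P (z + γ)) x = fderiv ℝ (cc P) (x + γ) := by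
    rw [fderiv_comp_add_right]
  rw [← h2, h1]

/-- unstable slope on the torus -/
noncomputable def aT (P : LimProfile θ θ') : C(Tor, ℝ) :=
  ⟨descR (fun x => gr + fderiv ℝ (cc P) x (1, 0))
    (fun x γ hγ => by simp only [cc_fderiv_periodic P x γ hγ]),
    continuous_descR _ (by
      have := (cc_contDiff P).continuous_fderiv (by norm_num)
      fun_prop)⟩

/-- mixed derivative on the torus -/
noncomputable def bT (P : LimProfile θ θ') : C(Tor, ℝ) :=
  ⟨descR (fun x => fderiv ℝ (cc P) x (0, 1))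
    (fun x γ hγ => by simp only [cc_fderiv_periodic P x γ hγ]),
    continuous_descR _ (by
      have := (cc_contDiff P).continuous_fderiv (by norm_num)
      fun_prop)⟩

lemma aT_tor (P : LimProfile θ θ') (x : E) :
    aT P (tor x) = gr + fderiv ℝ (cc P) x (1, 0) := rfl

lemma bT_tor (P : LimProfile θ θ') (x : E) : bT P (tor x) = fderiv ℝ (cc P) x (0, 1) := rfl

lemma fderiv_Fm (P : LimProfile θ θ') (x v : E) :
    fderiv ℝ (Fm P) x v = (aT P (tor x) * v.1 + bT P (tor x) * v.2, gc * v.2) := by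
  rw [(Fm_hasFDerivAt' P x).fderiv, aT_tor, bT_tor]
  simp [DF]

lemma fderiv_Fm_symm (P : LimProfile θ θ') (z w : E) (hw : w.2 = 0) :
    fderiv ℝ (Fm P).symm z w = ((aT P (tor ((Fm P).symm z)))⁻¹ * w.1, 0) := by
  have h := HasFDerivAt.of_local_left_inverse (f := Fm P) (g := (Fm P).symm) (a := z)
    (Fm P).symm.continuous.continuousAt
    (Fm_hasFDerivAt' P ((Fm P).symm z)) (Eventually.of_forall fun y => (Fm P).apply_symm_apply y)
  rw [h.fderiv, aT_tor]
  simp [DF, hw]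

lemma tangent_fT (P : LimProfile θ θ') (y : Tor) (v : E) :
    tangentMap 𝓘(ℝ, E) 𝓘(ℝ, E) (fT P) (mkTB y v) =
      mkTB (fT P y) (aT P y * v.1 + bT P y * v.2, gc * v.2) := by
  obtain ⟨x, rfl⟩ := tor_surjective y
  have := tangentMap_lift (F := Fm P) (f := fT P) (fun _ => rfl) (Fm_contDiff P) x v
  rw [this, fderiv_Fm]
  rfl

lemma tangent_fT_symm (P : LimProfile θ θ') (y : Tor) (w : ℝ) :
    tangentMap 𝓘(ℝ, E) 𝓘(ℝ, E) (fT P).symm (mkTB y (w, 0)) =
      mkTB ((fT P).symm y) ((aT P ((fT P).symm y))⁻¹ * w, 0) := by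
  obtain ⟨x, rfl⟩ := tor_surjective y
  have := tangentMap_lift (F := (Fm P).symm) (f := (fT P).symm) (fun _ => rfl)
    (Fm_symm_contDiff P) x (w, 0)
  rw [this, fderiv_Fm_symm P x (w, 0) rfl]
  rfl

/-- The Euclidean (sup) norm on the tangent bundle of the torus. -/
noncomputable def flatNorm : TangentNorm E Tor where
  toFun v := ‖sndTB v‖
  continuous := continuous_snd_TB.norm
  nonneg _ := norm_nonneg _
  eq_zero x v h := norm_eq_zero.1 (show ‖sndTB (⟨x, v⟩ : TangentBundle 𝓘(ℝ, E) Tor)‖ = 0 from h)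
  smul x c v := norm_smul c (sndTB (⟨x, v⟩ : TangentBundle 𝓘(ℝ, E) Tor))
  add_le x v w := norm_add_le (sndTB (⟨x, v⟩ : TangentBundle 𝓘(ℝ, E) Tor))
    (sndTB (⟨x, w⟩ : TangentBundle 𝓘(ℝ, E) Tor))

lemma flatNorm_mk (y : Tor) (v : E) : flatNorm.toFun (mkTB y v) = ‖v‖ := rfl

/-- projection onto the stable direction along the unstable one -/
noncomputable def proj (σ : C(Tor, ℝ)) (y : Tor) : E →L[ℝ] E :=
  (σ y • ContinuousLinearMap.snd ℝ ℝ ℝ).prod (ContinuousLinearMap.snd ℝ ℝ ℝ)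

lemma proj_apply (σ : C(Tor, ℝ)) (y : Tor) (v : E) : proj σ y v = (σ y * v.2, v.2) := by
  simp [proj]

lemma proj_continuous (σ : C(Tor, ℝ)) :
    Continuous fun v : TangentBundle 𝓘(ℝ, E) Tor => mkTB v.proj (proj σ v.proj (sndTB v)) := by
  have h2 := continuous_proj_TB
  have h3 := continuous_snd_TB
  have h1 : Continuous fun v : TangentBundle 𝓘(ℝ, E) Tor =>
      mkTB v.proj (σ v.proj * (sndTB v).2, (sndTB v).2) :=
    continuous_mkTB.comp (h2.prodMk
      ((((σ.continuous.comp h2).mul (continuous_snd.comp h3))).prodMk (continuous_snd.comp h3)))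
  exact h1.congr fun v => by rw [proj_apply]

lemma stable_iter (P : LimProfile θ θ') {σ : C(Tor, ℝ)}
    (hσ : ∀ y, aT P y * σ y + bT P y = gc * σ (fT P y)) (n : ℕ) : ∀ (y : Tor) (w : ℝ),
    (tangentMap 𝓘(ℝ, E) 𝓘(ℝ, E) (fT P))^[n] (mkTB y (σ y * w, w)) =
      mkTB ((fT P)^[n] y) (σ ((fT P)^[n] y) * (gc ^ n * w), gc ^ n * w) := by
  induction n with
  | zero => intro y w; simp
  | succ n ih =>
    intro y w
    rw [Function.iterate_succ_apply, tangent_fT, Function.iterate_succ_apply]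
    have e : (aT P y * (σ y * w) + bT P y * w) = σ (fT P y) * (gc * w) := by
      linear_combination w * hσ y
    simp only
    rw [e, ih]
    congr 1
    ext
    · simp only; ring
    · simp only; ring

lemma unstable_iter (P : LimProfile θ θ') (ha : ∀ y, 1.4 ≤ aT P y) (n : ℕ) :
    ∀ (y : Tor) (w : ℝ), ∃ w' : ℝ, |w'| ≤ (0.72 : ℝ) ^ n * |w| ∧
      (tangentMap 𝓘(ℝ, E) 𝓘(ℝ, E) (fT P).symm)^[n] (mkTB y (w, 0)) =
        mkTB ((fT P).symm^[n] y) (w', 0) := by
  induction n with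
  | zero => intro y w; exact ⟨w, by simp, by simp⟩
  | succ n ih =>
    intro y w
    obtain ⟨w', h1, h2⟩ := ih ((fT P).symm y) ((aT P ((fT P).symm y))⁻¹ * w)
    refine ⟨w', ?_, ?_⟩
    · refine h1.trans ?_
      have h3 := ha ((fT P).symm y)
      rw [abs_mul, pow_succ, mul_assoc]
      apply mul_le_mul_of_nonneg_left _ (by positivity)
      apply mul_le_mul_of_nonneg_right _ (abs_nonneg _)
      rw [abs_inv, abs_of_pos (by linarith), inv_le_comm₀ (by linarith) (by norm_num)]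
      refine le_trans ?_ h3
      norm_num
    · rw [Function.iterate_succ_apply, tangent_fT_symm, Function.iterate_succ_apply, h2]

lemma isAnosov_fT (P : LimProfile θ θ') : IsAnosov (fT P) := by
  have hf : Continuous (fT P) := (fT P).continuous
  have ha : ∀ y, 1.4 ≤ aT P y := by
    intro y
    obtain ⟨x, rfl⟩ := tor_surjective y
    rw [aT_tor]; exact slope_pos P x
  obtain ⟨σ, hσ0⟩ := exists_sigma ⟨fT P, hf⟩ (aT P) (bT P) ha
  have hσ : ∀ y, aT P y * σ y + bT P y = gc * σ (fT P y) := hσ0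
  have key1 : ∀ (y : Tor) (v : E), proj σ y (proj σ y v) = proj σ y v := by
    intro y v
    rw [proj_apply, proj_apply]
  have key3 : ∀ (y : Tor) (v : E), sndTB (tangentMap 𝓘(ℝ, E) 𝓘(ℝ, E) (fT P)
      (mkTB y (proj σ y v))) =
      proj σ (fT P y) (sndTB (tangentMap 𝓘(ℝ, E) 𝓘(ℝ, E) (fT P) (mkTB y v))) := by
    intro y v
    rw [tangent_fT, tangent_fT, proj_apply]
    change (_ : E) = proj σ (fT P y) (_ : E)
    rw [proj_apply]
    change ((_, _) : E) = (_, _)
    ext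
    · simp only [sndTB, mkTB]
      linear_combination v.2 * hσ y
    · rfl
  have key4 : ∀ (n : ℕ) (y : Tor) (v : E), proj σ y v = v →
      flatNorm.toFun ((tangentMap 𝓘(ℝ, E) 𝓘(ℝ, E) (fT P))^[n] (mkTB y v)) ≤
        (‖σ‖ + 1) * 0.72 ^ n * flatNorm.toFun (mkTB y v) := by
    intro n y v hv
    rw [proj_apply] at hv
    rw [← hv, stable_iter P hσ, flatNorm_mk, flatNorm_mk]
    have h2 : |v.2| ≤ ‖((σ y * v.2, v.2) : E)‖ := norm_snd_le ((σ y * v.2, v.2) : E)
    have h3 : ‖((σ ((fT P)^[n] y) * (gc ^ n * v.2), gc ^ n * v.2) : E)‖ ≤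
        (‖σ‖ + 1) * |gc ^ n * v.2| := by
      rw [Prod.norm_def]
      apply max_le
      · rw [norm_mul]
        have := σ.norm_coe_le_norm ((fT P)^[n] y)
        rw [Real.norm_eq_abs (gc ^ n * v.2)]
        nlinarith [abs_nonneg (gc ^ n * v.2)]
      · rw [Real.norm_eq_abs]
        nlinarith [abs_nonneg (gc ^ n * v.2), norm_nonneg σ]
    refine h3.trans ?_
    rw [abs_mul, abs_pow, mul_assoc]
    have h4 : |gc| ^ n ≤ (0.72 : ℝ) ^ n := by
      apply pow_le_pow_left₀ (abs_nonneg _)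
      rw [abs_of_neg gc_neg]; linarith [gc_lower]
    have h5 : 0 ≤ ‖σ‖ + 1 := by positivity
    apply mul_le_mul_of_nonneg_left _ h5
    exact mul_le_mul h4 h2 (abs_nonneg _) (by positivity)
  have key5 : ∀ (n : ℕ) (y : Tor) (v : E), proj σ y v = 0 →
      flatNorm.toFun ((tangentMap 𝓘(ℝ, E) 𝓘(ℝ, E) (fT P).symm)^[n] (mkTB y v)) ≤
        (‖σ‖ + 1) * 0.72 ^ n * flatNorm.toFun (mkTB y v) := by
    intro n y v hv
    rw [proj_apply] at hv
    have hw2 : v.2 = 0 := congrArg Prod.snd hv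
    obtain ⟨w', h1, h2⟩ := unstable_iter P ha n y v.1
    have hv3 : v = (v.1, 0) := by ext <;> simp [hw2]
    rw [hv3, h2, flatNorm_mk, flatNorm_mk]
    have h4 : ‖((w', 0) : E)‖ = |w'| := by simp [Prod.norm_def]
    have h5 : ‖((v.1, 0) : E)‖ = |v.1| := by simp [Prod.norm_def]
    rw [h4, h5, mul_assoc]
    have h6 : 0 ≤ (0.72 : ℝ) ^ n * |v.1| := by positivity
    nlinarith [norm_nonneg σ]
  exact ⟨flatNorm, proj σ, ‖σ‖ + 1, 0.72, key1, proj_continuous σ, key3, by positivity,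
    by norm_num, by norm_num, key4, key5⟩

end Pool.Agent.H56.Anosov
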