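import Pool.Agent.H56.Anosov.Defs

/-!
# Axiom A diffeomorphisms with no cycles

General definitions for a manifold `M` modelled on a real normed space `V`.
-/

open scoped Manifold ContDiff Topology
open Bundle Filter

namespace Pool.Agent.H56.AnosovDefs

variable {V : Type} [NormedAddCommGroup V] [NormedSpace ℝ V]
  {M : Type} [TopologicalSpace M] [ChartedSpace V M] [IsManifold 𝓘(ℝ, V) ∞ M]

/-- The nonwandering set `Ω(f)`: every open neighbourhood `U` of `x` meets `f^n(U)` for some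
`n ≥ 1`. -/
def nonwandering (f : Diff1 V M) : Set M :=
  {x | ∀ U : Set M, IsOpen U → x ∈ U → ∃ n : ℕ, 1 ≤ n ∧ (f^[n] '' U ∩ U).Nonempty}

/-- The set of periodic points of `f`. -/
def periodicPoints (f : Diff1 V M) : Set M := {x | ∃ n : ℕ, 1 ≤ n ∧ f^[n] x = x}

/-- The invariant set `Λ` is hyperbolic for `f`: over `Λ` there is a continuous `Df`-invariant
splitting `TM = E^s ⊕ E^u`, encoded by the projections `P x` of `T_x M` onto
`E^s_x = {v | P x v = v}` along `E^u_x = {v | P x v = 0}` for `x ∈ Λ`, such that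
`‖Df^n|E^s‖ ≤ C λ^n` and `‖Df^{-n}|E^u‖ ≤ C λ^n` for all `n ≥ 0`. -/
def IsHyperbolicSet (f : Diff1 V M) (Λ : Set M) : Prop :=
  f '' Λ = Λ ∧
  ∃ (N : TangentNorm V M)
    (P : (x : M) → TangentSpace 𝓘(ℝ, V) x →L[ℝ] TangentSpace 𝓘(ℝ, V) x) (C lam : ℝ),
    (∀ x ∈ Λ, ∀ v, P x (P x v) = P x v) ∧
    ContinuousOn (fun v : TangentBundle 𝓘(ℝ, V) M =>
      (⟨v.proj, P v.proj v.snd⟩ : TangentBundle 𝓘(ℝ, V) M)) {v | v.proj ∈ Λ} ∧
    (∀ x ∈ Λ, ∀ v, mfderiv 𝓘(ℝ, V) 𝓘(ℝ, V) f x (P x v) =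
      P (f x) (mfderiv 𝓘(ℝ, V) 𝓘(ℝ, V) f x v)) ∧
    0 < C ∧ 0 < lam ∧ lam < 1 ∧
    (∀ (n : ℕ), ∀ x ∈ Λ, ∀ (v : TangentSpace 𝓘(ℝ, V) x), P x v = v →
      N.toFun ((tangentMap 𝓘(ℝ, V) 𝓘(ℝ, V) f)^[n] ⟨x, v⟩) ≤ C * lam ^ n * N.toFun ⟨x, v⟩) ∧
    (∀ (n : ℕ), ∀ x ∈ Λ, ∀ (v : TangentSpace 𝓘(ℝ, V) x), P x v = 0 →
      N.toFun ((tangentMap 𝓘(ℝ, V) 𝓘(ℝ, V) f.symm)^[n] ⟨x, v⟩) ≤ C * lam ^ n * N.toFun ⟨x, v⟩)

/-- Axiom A: `Ω(f)` is hyperbolic and is the closure of the set of periodic points. -/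
def AxiomA (f : Diff1 V M) : Prop :=
  IsHyperbolicSet f (nonwandering f) ∧ closure (periodicPoints f) = nonwandering f

/-- `f` is topologically transitive on `Λ`. -/
def TransitiveOn (f : Diff1 V M) (Λ : Set M) : Prop :=
  ∀ U W : Set M, IsOpen U → IsOpen W → (U ∩ Λ).Nonempty → (W ∩ Λ).Nonempty →
    ∃ n : ℕ, (f^[n] '' (U ∩ Λ) ∩ W).Nonempty

/-- `Λ_1, ..., Λ_m` is the decomposition of `Ω(f)` into basic sets: finitely many pairwise disjoint
nonempty closed invariant sets with union `Ω(f)`, on each of which `f` is topologically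
transitive. -/
structure IsBasicDecomposition (f : Diff1 V M) {m : ℕ} (Λ : Fin m → Set M) : Prop where
  nonempty : ∀ i, (Λ i).Nonempty
  closed : ∀ i, IsClosed (Λ i)
  invariant : ∀ i, f '' (Λ i) = Λ i
  transitive : ∀ i, TransitiveOn f (Λ i)
  disjoint : ∀ i j, i ≠ j → Disjoint (Λ i) (Λ j)
  union : ⋃ i, Λ i = nonwandering f

/-- The stable set `W^s(Λ)`: the points whose forward orbit converges to `Λ`. -/
def stableSet (f : Diff1 V M) (Λ : Set M) : Set M :=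
  {x | Tendsto (fun n : ℕ => f^[n] x) atTop (𝓝ˢ Λ)}

/-- The unstable set `W^u(Λ)`: the points whose backward orbit converges to `Λ`. -/
def unstableSet (f : Diff1 V M) (Λ : Set M) : Set M :=
  {x | Tendsto (fun n : ℕ => f.symm^[n] x) atTop (𝓝ˢ Λ)}

/-- `Λ_i → Λ_j`: `i ≠ j` and `W^u(Λ_i)` meets `W^s(Λ_j)`. -/
def Arrow (f : Diff1 V M) {m : ℕ} (Λ : Fin m → Set M) (i j : Fin m) : Prop :=
  i ≠ j ∧ (unstableSet f (Λ i) ∩ stableSet f (Λ j)).Nonempty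

/-- `f` satisfies Axiom A and has no cycles: there is no chain
`Λ_{i_0} → Λ_{i_1} → ... → Λ_{i_k} = Λ_{i_0}`, `k ≥ 1`, of basic sets. -/
def AxiomANoCycles (f : Diff1 V M) : Prop :=
  AxiomA f ∧ ∃ (m : ℕ) (Λ : Fin m → Set M), IsBasicDecomposition f Λ ∧
    ∀ i, ¬ Relation.TransGen (Arrow f Λ) i i

variable (V M) in
/-- The space `AA^1(M)` of `C^1` Axiom A diffeomorphisms with no cycles, with the `C^1`
topology. -/
abbrev AxiomADiff : Type := {f : Diff1 V M // AxiomANoCycles f}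

end Pool.Agent.H56.AnosovDefs
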