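import Pool.Agent.H56.Anosov.Trivial

/-!
# Trivial centralizer is not a `C^1` open property among Anosov diffeomorphisms of the torus
-/

open scoped Manifold ContDiff Topology
open Set Filter Pool.Agent.H56.AnosovDefs

namespace Pool.Agent.H56.Anosov

theorem not_isOpen : ¬ IsOpen {f : AnosovDiff E Tor | TrivialCentralizer f.1} := by
  intro hopen
  let f0 : AnosovDiff E Tor := ⟨fT Th_lim, isAnosov_fT Th_lim⟩
  let f : ℕ → AnosovDiff E Tor := fun n => ⟨fT (Gn n), isAnosov_fT (Gn n)⟩
  have hlim : Tendsto f atTop (𝓝 f0) := by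
    rw [tendsto_subtype_rng]
    exact fT_tendsto
  have h0 : f0 ∈ {f : AnosovDiff E Tor | TrivialCentralizer f.1} :=
    trivialCentralizer Th_lim Th_tendsto
  obtain ⟨n, hn⟩ := (hlim.eventually (hopen.mem_nhds h0)).exists
  exact not_trivialCentralizer (Tn_good (Nat.cast_nonneg n)) hn

theorem main : ∃ (M : Type) (_ : TopologicalSpace M) (_ : ChartedSpace (ℝ × ℝ) M)
    (_ : IsManifold 𝓘(ℝ, ℝ × ℝ) ∞ M), CompactSpace M ∧ T2Space M ∧ ConnectedSpace M ∧
      ¬ IsOpen {f : AnosovDiff (ℝ × ℝ) M | TrivialCentralizer f.1} :=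
  ⟨Tor, inferInstance, inferInstance, inferInstance, inferInstance, inferInstance, inferInstance,
    not_isOpen⟩

end Pool.Agent.H56.Anosov
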