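import Pool.Agent.H56.Anosov.AxiomADefs
import Pool.Agent.H56.Anosov.Main

/-!
# The descended maps satisfy Axiom A with a single basic set
-/

open scoped Manifold ContDiff Topology
open Set Filter Pool.Agent.H56.AnosovDefs

namespace Pool.Agent.H56.Anosov

variable {θ θ' : ℝ → ℝ}

lemma fT_iterate (P : LimProfile θ θ') (n : ℕ) (x : E) :
    (fT P)^[n] (tor x) = tor (Fz P n x) := by
  induction n with
  | zero => rw [Nat.cast_zero, Fz_zero]; rfl
  | succ n ih =>
    rw [Function.iterate_succ_apply', ih, Nat.cast_succ, Fz_add_one, fT_tor]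

lemma Lz_add (n : ℤ) (x y : E) : Lz n (x + y) = Lz n x + Lz n y := by
  ext <;> simp [mul_add]

lemma Lz_sub (n : ℤ) (x y : E) : Lz n (x - y) = Lz n x - Lz n y := by
  ext <;> simp [mul_sub]

lemma Lz_smul (n : ℤ) (c : ℝ) (x : E) : Lz n (c • x) = c • Lz n x := by
  ext
  · simp; ring
  · simp; ring

lemma Lz_Lz (n m : ℤ) (x : E) : Lz n (Lz m x) = Lz (n + m) x := by
  ext
  · simp [zpow_add₀ gr_ne_zero]; ring
  · simp [zpow_add₀ gc_ne_zero]; ring

/-- Points of finite order are periodic for `L` modulo the lattice. -/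
lemma rational_periodic {N : ℕ} (hN : 0 < N) {x : E} (hx : (N : ℝ) • x ∈ Gam) :
    ∃ n : ℕ, 1 ≤ n ∧ Lz n x - x ∈ Gam := by
  have hNr : (N : ℝ) ≠ 0 := by positivity
  have : NeZero N := ⟨hN.ne'⟩
  have hk : ∀ k : ℕ, ∃ p : ℤ × ℤ, (N : ℝ) • Lz k x = gam p.1 p.2 := by
    intro k
    have := Lz_mem (k : ℤ) hx
    rw [Lz_smul] at this
    obtain ⟨a, b, h⟩ := this
    exact ⟨(a, b), h⟩
  choose p hp using hk
  obtain ⟨i, j, hij, he⟩ := Finite.exists_ne_map_eq_of_infinite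
    (fun k : ℕ => (((p k).1 : ZMod N), ((p k).2 : ZMod N)))
  wlog h : i < j generalizing i j
  · exact this j i hij.symm he.symm (lt_of_le_of_ne (not_lt.1 h) hij.symm)
  have h1 := congrArg Prod.fst he
  have h2 := congrArg Prod.snd he
  simp only at h1 h2
  rw [ZMod.intCast_eq_intCast_iff_dvd_sub] at h1 h2
  obtain ⟨a, ha⟩ := h1
  obtain ⟨b, hb⟩ := h2
  have h3 : Lz j x - Lz i x = gam a b := by
    have h4 : (N : ℝ) • (Lz j x - Lz i x) = (N : ℝ) • gam a b := by
      rw [smul_sub, hp j, hp i, gam_sub, ha, hb]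
      ext
      · simp; ring
      · simp; ring
    exact smul_right_injective E hNr h4
  refine ⟨j - i, by omega, ?_⟩
  have h5 : Lz (-(i : ℤ)) (Lz j x - Lz i x) ∈ Gam := by
    rw [h3]; exact Lz_mem _ (gam_mem a b)
  rw [Lz_sub, Lz_Lz, Lz_Lz, neg_add_cancel, Lz_zero] at h5
  have e : (-(i : ℤ) + (j : ℤ)) = ((j - i : ℕ) : ℤ) := by
    rw [Nat.cast_sub h.le]; ring
  rwa [e] at h5

lemma periodic_of_rational (P : LimProfile θ θ') {N : ℕ} (hN : 0 < N) {z : E}
    (hz : (N : ℝ) • z ∈ Gam) : tor ((Hm P).symm z) ∈ periodicPoints (fT P) := by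
  obtain ⟨n, hn, h⟩ := rational_periodic hN hz
  refine ⟨n, hn, ?_⟩
  rw [fT_iterate, tor_eq_iff]
  have h1 : Fz P n ((Hm P).symm z) = (Hm P).symm (Lz n z) := by
    unfold Fz
    rw [Homeomorph.apply_symm_apply]
  have h2 := Hm_symm_periodic P z h
  rw [add_sub_cancel] at h2
  rw [h1, h2]
  have e : (Hm P).symm z - ((Hm P).symm z + (Lz n z - z)) = -(Lz n z - z) := by abel
  rw [e]
  exact Gam.neg_mem h

lemma dense_rational : Dense {z : E | ∃ N : ℕ, 0 < N ∧ (N : ℝ) • z ∈ Gam} := by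
  have hΦ : Continuous (fun p : ℝ × ℝ => ((p.1 + p.2 * gr, p.1 + p.2 * gc) : E)) := by fun_prop
  have hsurj : Function.Surjective (fun p : ℝ × ℝ => ((p.1 + p.2 * gr, p.1 + p.2 * gc) : E)) := by
    intro x
    have hne : gr - gc ≠ 0 := by linarith [gr_pos, gc_neg]
    refine ⟨(x.1 - (x.1 - x.2) / (gr - gc) * gr, (x.1 - x.2) / (gr - gc)), ?_⟩
    ext
    · simp
    · have : (x.1 - x.2) / (gr - gc) * (gr - gc) = x.1 - x.2 := by field_simp
      simp only
      linarith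
  have hq : DenseRange (fun p : ℚ × ℚ => (((p.1 : ℝ), (p.2 : ℝ)) : ℝ × ℝ)) := by
    have := Rat.denseRange_cast (𝕜 := ℝ)
    exact DenseRange.prodMap this this
  have h := hsurj.denseRange.comp hq hΦ
  refine h.mono ?_
  rintro _ ⟨⟨a, b⟩, rfl⟩
  refine ⟨a.den * b.den, Nat.mul_pos a.pos b.pos, ?_⟩
  refine ⟨a.num * b.den, b.num * a.den, ?_⟩
  have ha : (a.den : ℝ) * (a : ℝ) = a.num := by
    have := Rat.den_mul_eq_num a
    exact_mod_cast this
  have hb : (b.den : ℝ) * (b : ℝ) = b.num := by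
    have := Rat.den_mul_eq_num b
    exact_mod_cast this
  ext
  · simp only [Function.comp_apply, Prod.smul_fst, smul_eq_mul, gam_fst]
    push_cast
    rw [← ha, ← hb]; ring
  · simp only [Function.comp_apply, Prod.smul_snd, smul_eq_mul, gam_snd]
    push_cast
    rw [← ha, ← hb]; ring

lemma dense_periodic (P : LimProfile θ θ') : Dense (periodicPoints (fT P)) := by
  have h1 : Function.Surjective (fun z : E => tor ((Hm P).symm z)) :=
    tor_surjective.comp (Hm P).symm.surjective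
  have h2 : Continuous (fun z : E => tor ((Hm P).symm z)) :=
    continuous_tor.comp (Hm P).symm.continuous
  have h3 := h1.denseRange.dense_image h2 dense_rational
  refine h3.mono ?_
  rintro _ ⟨z, ⟨N, hN, hz⟩, rfl⟩
  exact periodic_of_rational P hN hz

lemma nonwandering_eq (P : LimProfile θ θ') : nonwandering (fT P) = univ := by
  apply eq_univ_of_forall
  intro x U hU hx
  obtain ⟨p, ⟨n, hn, hp⟩, hpU⟩ := (dense_periodic P).exists_mem_open hU ⟨x, hx⟩
  exact ⟨n, hn, p, ⟨p, hpU, hp⟩, hpU⟩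

lemma image_univ_fT (P : LimProfile θ θ') : fT P '' univ = univ := by
  rw [image_univ]
  exact (fT P).surjective.range_eq

lemma hyperbolic_fT (P : LimProfile θ θ') : IsHyperbolicSet (fT P) univ := by
  refine ⟨image_univ_fT P, ?_⟩
  obtain ⟨N, Pr, C, lam, h1, h2, h3, h4, h5, h6, h7, h8⟩ := isAnosov_fT P
  exact ⟨N, Pr, C, lam, fun x _ => h1 x, h2.continuousOn, fun x _ => h3 x, h4, h5, h6,
    fun n x _ => h7 n x, fun n x _ => h8 n x⟩

lemma axiomA_fT (P : LimProfile θ θ') : AxiomA (fT P) := by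
  unfold AxiomA
  rw [nonwandering_eq]
  exact ⟨hyperbolic_fT P, (dense_periodic P).closure_eq⟩

/-! ### Transitivity -/

/-- covering radius of the lattice -/
lemma exists_Gam_near (x : E) : ∃ γ ∈ Gam, |x.1 - γ.1| ≤ 3 ∧ |x.2 - γ.2| ≤ 3 := by
  obtain ⟨a, b, ha, hb, h⟩ := exists_small_rep x
  rw [tor_eq_iff] at h
  refine ⟨x - (a + b * gr, a + b * gc), h, ?_, ?_⟩
  · have e : x.1 - (x - (a + b * gr, a + b * gc)).1 = a + b * gr := by simp
    rw [e, abs_le]
    have h1 : 0 ≤ b * gr := mul_nonneg hb.1 gr_pos.le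
    have h2 : b * gr ≤ 1 * gr := mul_le_mul_of_nonneg_right hb.2 gr_pos.le
    constructor <;> linarith [ha.1, ha.2, gr_upper]
  · have e : x.2 - (x - (a + b * gr, a + b * gc)).2 = a + b * gc := by simp
    rw [e, abs_le]
    have h1 : b * gc ≤ 0 := mul_nonpos_of_nonneg_of_nonpos hb.1 gc_neg.le
    have h2 : -1 ≤ b * gc := by nlinarith [hb.1, hb.2, gc_lower]
    constructor <;> linarith [ha.1, ha.2]

lemma Lz_nat_fst (n : ℕ) (z : E) : (Lz n z).1 = gr ^ n * z.1 := by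
  rw [Lz_fst, zpow_natCast]

lemma Lz_nat_snd (n : ℕ) (z : E) : (Lz n z).2 = gc ^ n * z.2 := by
  rw [Lz_snd, zpow_natCast]

lemma exists_Gam_near' {δ : ℝ} (hδ : 0 < δ) : ∃ R : ℝ, ∀ x : E, ∃ γ ∈ Gam,
    |x.1 - γ.1| ≤ R ∧ |x.2 - γ.2| < δ := by
  have hlim : Tendsto (fun k : ℕ => (0.7 : ℝ) ^ k * 3) atTop (𝓝 (0 * 3)) :=
    (tendsto_pow_atTop_nhds_zero_of_lt_one (by norm_num) (by norm_num)).mul_const 3
  rw [zero_mul] at hlim
  obtain ⟨k, hk⟩ := (hlim.eventually (eventually_lt_nhds hδ)).exists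
  refine ⟨gr ^ k * 3, fun x => ?_⟩
  obtain ⟨γ, hγ, h1, h2⟩ := exists_Gam_near (Lz (-(k : ℤ)) x)
  have hx : x = Lz k (Lz (-(k : ℤ)) x) := by
    rw [Lz_Lz, add_neg_cancel, Lz_zero]
  refine ⟨Lz k γ, Lz_mem _ hγ, ?_, ?_⟩
  · conv_lhs => rw [hx]
    rw [Lz_nat_fst, Lz_nat_fst, ← mul_sub, abs_mul, abs_of_pos (pow_pos gr_pos k)]
    exact mul_le_mul_of_nonneg_left h1 (pow_pos gr_pos k).le
  · conv_lhs => rw [hx]
    rw [Lz_nat_snd, Lz_nat_snd, ← mul_sub, abs_mul, abs_pow]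
    refine lt_of_le_of_lt ?_ hk
    apply mul_le_mul _ h2 (abs_nonneg _) (by positivity)
    apply pow_le_pow_left₀ (abs_nonneg _)
    rw [abs_of_neg gc_neg]; linarith [gc_lower]

/-- Transitivity of the linear map modulo the lattice. -/
lemma linear_transitive {U W : Set E} (hU : IsOpen U) (hW : IsOpen W) (hUn : U.Nonempty)
    (hWn : W.Nonempty) : ∃ n : ℕ, ∃ z ∈ U, ∃ γ ∈ Gam, Lz n z - γ ∈ W := by
  obtain ⟨z0, hz0⟩ := hUn
  obtain ⟨w0, hw0⟩ := hWn
  obtain ⟨ε, hε, hεU⟩ := Metric.isOpen_iff.1 hU z0 hz0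
  obtain ⟨δ, hδ, hδW⟩ := Metric.isOpen_iff.1 hW w0 hw0
  obtain ⟨R, hR⟩ := exists_Gam_near' hδ
  have hR0 : 0 ≤ R := by
    obtain ⟨γ, _, h1, _⟩ := hR 0
    exact (abs_nonneg _).trans h1
  have hlim : Tendsto (fun n : ℕ => gr ^ n * ε) atTop atTop :=
    (tendsto_pow_atTop_atTop_of_one_lt (by linarith [gr_lower])).atTop_mul_const hε
  obtain ⟨n, hn⟩ := (hlim.eventually (eventually_gt_atTop R)).exists
  obtain ⟨γ, hγ, h1, h2⟩ := hR (Lz n z0 - w0)
  have hpos := pow_pos gr_pos n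
  set s := w0.1 + γ.1 - gr ^ n * z0.1 with hs
  have hs2 : |s| ≤ R := by
    have e : (Lz n z0 - w0).1 - γ.1 = -s := by
      rw [Prod.fst_sub, Lz_nat_fst, hs]; ring
    rw [e, abs_neg] at h1
    exact h1
  refine ⟨n, z0 + (s / gr ^ n, 0), ?_, γ, hγ, ?_⟩
  · apply hεU
    rw [Metric.mem_ball, dist_eq_norm, add_sub_cancel_left, Prod.norm_def, norm_zero,
      max_eq_left (norm_nonneg _), Real.norm_eq_abs, abs_div, abs_of_pos hpos, div_lt_iff₀ hpos]
    linarith
  · apply hδW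
    rw [Metric.mem_ball, dist_eq_norm, Prod.norm_def]
    apply max_lt
    · have e : (Lz n (z0 + (s / gr ^ n, 0)) - γ - w0).1 = 0 := by
        rw [Prod.fst_sub, Prod.fst_sub, Lz_nat_fst, Prod.fst_add, mul_add]
        have : gr ^ n * (s / gr ^ n) = s := by field_simp
        simp only
        rw [this, hs]; ring
      rw [e, norm_zero]; exact hδ
    · have e : (Lz n (z0 + (s / gr ^ n, 0)) - γ - w0).2 = (Lz n z0 - w0).2 - γ.2 := by
        rw [Prod.snd_sub, Prod.snd_sub, Lz_nat_snd, Prod.snd_add, Prod.snd_sub, Lz_nat_snd]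
        simp only
        ring
      rw [e]; exact h2

lemma transitive_fT (P : LimProfile θ θ') : TransitiveOn (fT P) univ := by
  intro U W hU hW hUn hWn
  rw [inter_univ] at hUn hWn
  have hc : Continuous (fun z : E => tor ((Hm P).symm z)) :=
    continuous_tor.comp (Hm P).symm.continuous
  have hs : Function.Surjective (fun z : E => tor ((Hm P).symm z)) :=
    tor_surjective.comp (Hm P).symm.surjective
  obtain ⟨u, hu⟩ := hUn
  obtain ⟨w, hw⟩ := hWn
  obtain ⟨u', hu'⟩ := hs u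
  obtain ⟨w', hw'⟩ := hs w
  obtain ⟨n, z, hz, γ, hγ, h⟩ := linear_transitive (hU.preimage hc) (hW.preimage hc)
    ⟨u', by rw [← hu'] at hu; exact hu⟩ ⟨w', by rw [← hw'] at hw; exact hw⟩
  refine ⟨n, (fT P)^[n] (tor ((Hm P).symm z)), ⟨_, ⟨hz, mem_univ _⟩, rfl⟩, ?_⟩
  rw [fT_iterate]
  have h1 : Fz P n ((Hm P).symm z) = (Hm P).symm (Lz n z) := by
    unfold Fz
    rw [Homeomorph.apply_symm_apply]
  rw [mem_preimage] at h
  rw [h1]
  have h2 := Hm_symm_periodic P (Lz n z - γ) hγ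
  rw [sub_add_cancel] at h2
  rw [h2, tor_add hγ]
  exact h

lemma axiomANoCycles_fT (P : LimProfile θ θ') : AxiomANoCycles (fT P) := by
  refine ⟨axiomA_fT P, 1, fun _ => univ, ?_, ?_⟩
  · exact
      { nonempty := fun _ => univ_nonempty
        closed := fun _ => isClosed_univ
        invariant := fun _ => image_univ_fT P
        transitive := fun _ => transitive_fT P
        disjoint := fun i j h => (h (Subsingleton.elim i j)).elim
        union := by rw [nonwandering_eq]; exact iUnion_const univ }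
  · intro i h
    obtain ⟨j, hj, _⟩ := Relation.TransGen.head'_iff.1 h
    exact hj.1 (Subsingleton.elim i j)

theorem not_isOpen_axiomA : ¬ IsOpen {f : AxiomADiff E Tor | TrivialCentralizer f.1} := by
  intro hopen
  let f0 : AxiomADiff E Tor := ⟨fT Th_lim, axiomANoCycles_fT Th_lim⟩
  let f : ℕ → AxiomADiff E Tor := fun n => ⟨fT (Gn n), axiomANoCycles_fT (Gn n)⟩
  have hlim : Tendsto f atTop (𝓝 f0) := by
    rw [tendsto_subtype_rng]
    exact fT_tendsto
  have h0 : f0 ∈ {f : AxiomADiff E Tor | TrivialCentralizer f.1} :=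
    trivialCentralizer Th_lim Th_tendsto
  obtain ⟨n, hn⟩ := (hlim.eventually (hopen.mem_nhds h0)).exists
  exact not_trivialCentralizer (Tn_good (Nat.cast_nonneg n)) hn

theorem main_axiomA : ∃ (M : Type) (_ : TopologicalSpace M) (_ : ChartedSpace (ℝ × ℝ) M)
    (_ : IsManifold 𝓘(ℝ, ℝ × ℝ) ∞ M), CompactSpace M ∧ T2Space M ∧ ConnectedSpace M ∧
      ¬ IsOpen {f : AxiomADiff (ℝ × ℝ) M | TrivialCentralizer f.1} :=
  ⟨Tor, inferInstance, inferInstance, inferInstance, inferInstance, inferInstance, inferInstance,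
    not_isOpen_axiomA⟩

end Pool.Agent.H56.Anosov
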