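import Pool.Agent.H56.Anosov.Converge

/-!
# A concrete unbounded slowly varying profile
-/

namespace Pool.Agent.H56.Anosov

open Set Filter Topology

/-- `(x_+)^2` -/
noncomputable def pp (x : ℝ) : ℝ := (max 0 x) ^ 2

lemma pp_hasDerivAt (x : ℝ) : HasDerivAt pp (2 * max 0 x) x := by
  rcases lt_trichotomy x 0 with h | h | h
  · have : pp =ᶠ[𝓝 x] fun _ => 0 := by
      filter_upwards [eventually_lt_nhds h] with y hy
      simp [pp, max_eq_left hy.le]
    rw [max_eq_left h.le, mul_zero]
    exact (hasDerivAt_const x (0 : ℝ)).congr_of_eventuallyEq this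
  · subst h
    rw [max_self, mul_zero, hasDerivAt_iff_isLittleO_nhds_zero, Asymptotics.isLittleO_iff]
    intro c hc
    have h1 : ∀ᶠ y : ℝ in 𝓝 0, |y| < c := by
      have : Tendsto (fun y : ℝ => |y|) (𝓝 0) (𝓝 0) := by
        have := continuous_abs.tendsto (0 : ℝ)
        simpa using this
      exact this.eventually (eventually_lt_nhds hc)
    filter_upwards [h1] with y hy
    simp only [pp, zero_add, max_self, ne_eq, OfNat.ofNat_ne_zero, not_false_eq_true, zero_pow,
      sub_zero, smul_zero, Real.norm_eq_abs, abs_pow]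
    have h2 : |max 0 y| ≤ |y| := by
      rcases le_total 0 y with h | h
      · rw [max_eq_right h]
      · rw [max_eq_left h, abs_zero]; exact abs_nonneg y
    calc |max 0 y| ^ 2 ≤ |y| ^ 2 := by gcongr
      _ = |y| * |y| := sq _
      _ ≤ c * |y| := by gcongr
  · have : pp =ᶠ[𝓝 x] fun y => y ^ 2 := by
      filter_upwards [eventually_gt_nhds h] with y hy
      simp [pp, max_eq_right hy.le]
    rw [max_eq_right h.le]
    have h2 := (hasDerivAt_id x).pow 2
    simp only [id, Nat.cast_ofNat, Nat.add_one_sub_one, pow_one, mul_one] at h2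
    exact HasDerivAt.congr_of_eventuallyEq h2 this

lemma pp_nonneg (x : ℝ) : 0 ≤ pp x := sq_nonneg _

lemma pp_continuous_deriv : Continuous fun x : ℝ => 2 * max 0 x := by fun_prop

lemma pp_of_nonpos {x : ℝ} (h : x ≤ 0) : pp x = 0 := by simp [pp, max_eq_left h]

lemma pp_of_nonneg {x : ℝ} (h : 0 ≤ x) : pp x = x ^ 2 := by simp [pp, max_eq_right h]

lemma pp_mono {x y : ℝ} (h : x ≤ y) : pp x ≤ pp y := by
  unfold pp
  have h1 : (0 : ℝ) ≤ max 0 x := le_max_left _ _
  have h2 : max 0 x ≤ max 0 y := max_le_max le_rfl h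
  exact pow_le_pow_left₀ h1 h2 2

/-- The unbounded profile. -/
noncomputable def Th (t : ℝ) : ℝ := (1 / 400) * Real.log (1 + pp (Real.log bb - Real.log t))

/-- Its derivative. -/
noncomputable def Th' (t : ℝ) : ℝ :=
  (1 / 400) * ((2 * max 0 (Real.log bb - Real.log t) * (-t⁻¹)) /
    (1 + pp (Real.log bb - Real.log t)))

lemma Th_hasDerivAt {t : ℝ} (ht : 0 < t) : HasDerivAt Th (Th' t) t := by
  have h1 : HasDerivAt (fun t => Real.log bb - Real.log t) (-t⁻¹) t := by
    have := (Real.hasDerivAt_log ht.ne').const_sub (Real.log bb)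
    exact this
  have h2 := (pp_hasDerivAt (Real.log bb - Real.log t)).comp t h1
  have h3 := (h2.const_add 1).log (by have := pp_nonneg (Real.log bb - Real.log t); simp; linarith)
  exact h3.const_mul (1 / 400)

lemma Th'_cont : ContinuousOn Th' (Set.Ioi 0) := by
  unfold Th'
  have h1 : ContinuousOn (fun t : ℝ => Real.log bb - Real.log t) (Set.Ioi 0) :=
    continuousOn_const.sub (Real.continuousOn_log.mono (fun t ht => (ne_of_gt ht)))
  have h2 : ContinuousOn (fun t : ℝ => 2 * max 0 (Real.log bb - Real.log t)) (Set.Ioi 0) :=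
    pp_continuous_deriv.comp_continuousOn h1
  have hpp : Continuous pp := by unfold pp; fun_prop
  have h3 : ContinuousOn (fun t : ℝ => 1 + pp (Real.log bb - Real.log t)) (Set.Ioi 0) :=
    continuousOn_const.add (hpp.comp_continuousOn h1)
  have h4 : ContinuousOn (fun t : ℝ => -t⁻¹) (Set.Ioi 0) :=
    (continuousOn_inv₀.mono (fun t ht => (ne_of_gt ht))).neg
  refine continuousOn_const.mul ((h2.mul h4).div h3 ?_)
  intro t _
  have := pp_nonneg (Real.log bb - Real.log t)
  linarith

lemma Th_nonneg (t : ℝ) : 0 ≤ Th t := by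
  unfold Th
  have := pp_nonneg (Real.log bb - Real.log t)
  have := Real.log_nonneg (show 1 ≤ 1 + pp (Real.log bb - Real.log t) by linarith)
  positivity

lemma Th_bound {t : ℝ} (ht : 0 < t) : |t * Th' t| ≤ K t := by
  unfold Th' K
  set x := max 0 (Real.log bb - Real.log t) with hx
  have hx0 : 0 ≤ x := le_max_left _ _
  have e1 : pp (Real.log bb - Real.log t) = x ^ 2 := rfl
  rw [e1]
  have e2 : t * ((1 / 400) * (2 * x * -t⁻¹ / (1 + x ^ 2))) = -((1 / 400) * (2 * x / (1 + x ^ 2))) := by
    field_simp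
  rw [e2, abs_neg, abs_of_nonneg (by positivity), ← sub_nonneg]
  have e3 : 1 / 100 / (1 + x) - 1 / 400 * (2 * x / (1 + x ^ 2)) =
      (4 * (1 + x ^ 2) - 2 * x * (1 + x)) / (400 * (1 + x) * (1 + x ^ 2)) := by
    field_simp; ring
  rw [e3]
  apply div_nonneg _ (by positivity)
  nlinarith [sq_nonneg (x - 1)]

lemma Th_anti {t t' : ℝ} (ht : 0 < t) (h : t ≤ t') : Th t' ≤ Th t := by
  unfold Th
  have h1 := Real.log_le_log ht h
  have h2 := pp_mono (x := Real.log bb - Real.log t') (y := Real.log bb - Real.log t) (by linarith)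
  have h3 := pp_nonneg (Real.log bb - Real.log t')
  have := Real.log_le_log (by linarith) (show 1 + pp (Real.log bb - Real.log t') ≤
    1 + pp (Real.log bb - Real.log t) by linarith)
  linarith

lemma Th_tendsto : Tendsto Th (𝓝[>] 0) atTop := by
  unfold Th
  apply Tendsto.const_mul_atTop (by norm_num)
  apply Real.tendsto_log_atTop.comp
  apply tendsto_atTop_add_const_left
  have h1 : Tendsto (fun t : ℝ => Real.log bb - Real.log t) (𝓝[>] 0) atTop := by
    apply tendsto_atTop_add_const_left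
    exact tendsto_neg_atBot_atTop.comp Real.tendsto_log_nhdsGT_zero
  have h2 : Tendsto pp atTop atTop := by
    have : Tendsto (fun x : ℝ => x ^ 2) atTop atTop := tendsto_pow_atTop (by norm_num)
    refine this.congr' ?_
    filter_upwards [eventually_ge_atTop 0] with x hx
    exact (pp_of_nonneg hx).symm
  exact h2.comp h1

lemma Th_profile : Profile Th Th' where
  deriv t ht := Th_hasDerivAt ht
  cont := Th'_cont
  nonneg t _ := Th_nonneg t
  supp t ht := by
    unfold Th
    have := Real.log_le_log bb_pos ht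
    rw [pp_of_nonpos (by linarith)]
    simp
  bound t ht := Th_bound ht

/-- truncation function -/
noncomputable def Psi (n y : ℝ) : ℝ := y - pp (y - n) / 2 + pp (y - n - 1) / 2

/-- its derivative -/
noncomputable def Psi' (n y : ℝ) : ℝ := 1 - max 0 (y - n) + max 0 (y - n - 1)

lemma Psi_hasDerivAt (n y : ℝ) : HasDerivAt (Psi n) (Psi' n y) y := by
  have h1 : HasDerivAt (fun y : ℝ => y - n) 1 y := (hasDerivAt_id y).sub_const n
  have h2 : HasDerivAt (fun y : ℝ => y - n - 1) 1 y := h1.sub_const 1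
  have h3 := ((pp_hasDerivAt (y - n)).comp y h1).div_const 2
  have h4 := ((pp_hasDerivAt (y - n - 1)).comp y h2).div_const 2
  have h5 := ((hasDerivAt_id y).sub h3).add h4
  refine h5.congr_deriv ?_
  unfold Psi'
  ring

lemma Psi'_mem (n y : ℝ) : 0 ≤ Psi' n y ∧ Psi' n y ≤ 1 := by
  unfold Psi'
  rcases le_total (y - n) 0 with h | h
  · rw [max_eq_left h, max_eq_left (by linarith)]; constructor <;> linarith
  · rw [max_eq_right h]
    rcases le_total (y - n - 1) 0 with h2 | h2
    · rw [max_eq_left h2]; constructor <;> linarith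
    · rw [max_eq_right h2]; constructor <;> linarith

lemma Psi_low {n y : ℝ} (h : y ≤ n) : Psi n y = y := by
  unfold Psi
  rw [pp_of_nonpos (by linarith), pp_of_nonpos (by linarith)]; ring

lemma Psi_high {n y : ℝ} (h : n + 1 ≤ y) : Psi n y = n + 1 / 2 := by
  unfold Psi
  rw [pp_of_nonneg (by linarith), pp_of_nonneg (by linarith)]; ring

lemma Psi_nonneg {n y : ℝ} (hn : 0 ≤ n) (hy : 0 ≤ y) : 0 ≤ Psi n y := by
  rcases le_total y n with h | h
  · rw [Psi_low h]; exact hy
  · rcases le_total y (n + 1) with h2 | h2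
    · unfold Psi
      rw [pp_of_nonneg (by linarith), pp_of_nonpos (by linarith)]
      nlinarith
    · rw [Psi_high h2]; linarith

/-- Truncated profile. -/
noncomputable def Tn (n t : ℝ) : ℝ := if t ≤ 0 then n + 1 / 2 else Psi n (Th t)

/-- Its derivative. -/
noncomputable def Tn' (n t : ℝ) : ℝ := Psi' n (Th t) * Th' t

lemma Th_contOn : ContinuousOn Th (Set.Ioi 0) := fun _ ht =>
  (Th_hasDerivAt ht).continuousAt.continuousWithinAt

lemma Tn_good {n : ℝ} (hn : 0 ≤ n) : GoodProfile (Tn n) (Tn' n) where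
  deriv t ht := by
    have h : Tn n =ᶠ[𝓝 t] fun t => Psi n (Th t) := by
      filter_upwards [eventually_gt_nhds ht] with y hy
      simp [Tn, not_le.2 hy]
    exact ((Psi_hasDerivAt n (Th t)).comp t (Th_hasDerivAt ht)).congr_of_eventuallyEq h
  cont := by
    unfold Tn'
    have h1 : Continuous (Psi' n) := by unfold Psi'; fun_prop
    exact (h1.comp_continuousOn Th_contOn).mul Th'_cont
  nonneg t ht := by
    simp only [Tn, not_le.2 ht, if_false]
    exact Psi_nonneg hn (Th_nonneg t)
  supp t ht := by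
    have ht0 : 0 < t := lt_of_lt_of_le bb_pos ht
    simp only [Tn, not_le.2 ht0, if_false]
    rw [Th_profile.supp t ht, Psi_low hn]
  bound t ht := by
    unfold Tn'
    have e : t * (Psi' n (Th t) * Th' t) = Psi' n (Th t) * (t * Th' t) := by ring
    rw [e, abs_mul, abs_of_nonneg (Psi'_mem n _).1]
    calc Psi' n (Th t) * |t * Th' t| ≤ 1 * |t * Th' t| :=
          mul_le_mul_of_nonneg_right (Psi'_mem n _).2 (abs_nonneg _)
      _ = |t * Th' t| := one_mul _
      _ ≤ K t := Th_bound ht
  const := by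
    have h := Th_tendsto.eventually (eventually_ge_atTop (n + 1))
    obtain ⟨δ, hδ, h⟩ := (mem_nhdsGT_iff_exists_Ioo_subset).1 h
    refine ⟨δ, hδ, n + 1 / 2, by linarith, ?_⟩
    intro t ht0 ht
    rcases eq_or_lt_of_le ht0 with h0 | h0
    · rw [← h0]; simp [Tn]
    · simp only [Tn, not_le.2 h0, if_false]
      exact Psi_high (h ⟨h0, ht⟩)

lemma Tn_eq {n δ t : ℝ} (hδ : 0 < δ) (hn : Th δ ≤ n) (ht : δ ≤ t) : Tn n t = Th t := by
  have ht0 : 0 < t := lt_of_lt_of_le hδ ht
  simp only [Tn, not_le.2 ht0, if_false]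
  exact Psi_low ((Th_anti hδ ht).trans hn)

lemma Th_lim : LimProfile Th Th' where
  toProfile := Th_profile
  approx δ hδ := ⟨Tn (Th δ), Tn' (Th δ), Tn_good (Th_nonneg δ), fun _ ht => Tn_eq hδ le_rfl ht⟩

end Pool.Agent.H56.Anosov
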