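import Pool.Agent.H56.Anosov.AnosovProp

/-!
# The truncated maps converge in the `C^1` topology
-/

open scoped Manifold ContDiff Topology
open Set Filter Pool.Agent.H56.AnosovDefs

namespace Pool.Agent.H56.Anosov

lemma tendsto_of_unif {Y : Type*} [PseudoMetricSpace Y] {g : ℕ → E → Y} {g0 : E → Y}
    (hc : Continuous g0) (h : ∀ ε > 0, ∀ᶠ n in atTop, ∀ x, dist (g n x) (g0 x) < ε) (x0 : E) :
    Tendsto (fun p : ℕ × E => g p.1 p.2) (atTop ×ˢ 𝓝 x0) (𝓝 (g0 x0)) := by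
  rw [Metric.tendsto_nhds]
  intro ε hε
  have h1 := h (ε / 2) (half_pos hε)
  have h2 : ∀ᶠ x in 𝓝 x0, dist (g0 x) (g0 x0) < ε / 2 :=
    (Metric.tendsto_nhds.1 hc.continuousAt) (ε / 2) (half_pos hε)
  filter_upwards [h1.prod_mk h2] with p hp
  have := dist_triangle (g p.1 p.2) (g0 p.2) (g0 x0)
  linarith [hp.1 p.2, hp.2]

/-- the truncated profile number `n` -/
lemma Gn (n : ℕ) : LimProfile (Tn n) (Tn' n) := (Tn_good (Nat.cast_nonneg n)).toLimProfile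

lemma cc_unif {ε : ℝ} (hε : 0 < ε) : ∀ᶠ n : ℕ in atTop, ∀ x, |cc (Gn n) x - cc Th_lim x| < ε := by
  obtain ⟨δ, hδ0, hδb, hδ⟩ : ∃ δ : ℝ, 0 < δ ∧ δ ≤ bb ∧ 0.8 * Real.sqrt δ < ε := by
    refine ⟨min bb (ε ^ 2), lt_min bb_pos (by positivity), min_le_left _ _, ?_⟩
    have h1 : Real.sqrt (min bb (ε ^ 2)) ≤ ε := by
      rw [Real.sqrt_le_left hε.le]
      exact min_le_right _ _
    linarith
  filter_upwards [eventually_ge_atTop ⌈Th δ⌉₊] with n hn x
  have hn' : Th δ ≤ n := (Nat.le_ceil _).trans (by exact_mod_cast hn)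
  exact (cc_dist Th_lim (Gn n) hδ0 hδb (fun t ht => Tn_eq hδ0 hn' ht) x).trans_lt hδ

lemma cc_fderiv_unif {ε : ℝ} (hε : 0 < ε) : ∀ᶠ n : ℕ in atTop, ∀ x,
    ‖fderiv ℝ (cc (Gn n)) x - fderiv ℝ (cc Th_lim) x‖ < ε := by
  obtain ⟨δ, hδ0, hδb, hδ⟩ : ∃ δ : ℝ, 0 < δ ∧ 9 * δ ≤ 4 * bb ∧ 40 * K (36 * δ) < ε := by
    have h1 := (tendsto_order.1 K_tendsto).2 (ε / 40) (by positivity)
    obtain ⟨δ, hδ, h⟩ := (mem_nhdsGT_iff_exists_Ioo_subset).1 h1
    have hδ' : (0 : ℝ) < δ := hδ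
    refine ⟨min (δ / 72) (bb / 9), lt_min (by positivity) (by linarith [bb_pos]), ?_, ?_⟩
    · have := min_le_right (δ / 72) (bb / 9)
      linarith [bb_pos]
    · have h2 : 0 < min (δ / 72) (bb / 9) := lt_min (by positivity) (by linarith [bb_pos])
      have h3 := min_le_left (δ / 72) (bb / 9)
      have h4 : K (36 * min (δ / 72) (bb / 9)) < ε / 40 := h ⟨by positivity, by linarith⟩
      linarith
  filter_upwards [eventually_ge_atTop ⌈Th δ⌉₊] with n hn x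
  have hn' : Th δ ≤ n := (Nat.le_ceil _).trans (by exact_mod_cast hn)
  exact (cc_fderiv_dist Th_lim (Gn n) hδ0 hδb (fun t ht => Tn_eq hδ0 hn' ht) x).trans_lt hδ

variable {θ θ' ϑ ϑ' : ℝ → ℝ}

lemma Fm_dist (P : LimProfile θ θ') (G : LimProfile ϑ ϑ') (x : E) :
    dist (Fm G x) (Fm P x) = |cc G x - cc P x| := by
  rw [Fm_eq, Fm_eq, Prod.dist_eq, dist_self, Real.dist_eq, add_sub_add_left_eq_sub]
  exact max_eq_left (abs_nonneg _)

lemma DF_dist (P : LimProfile θ θ') (G : LimProfile ϑ ϑ') (x : E) :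
    dist (fderiv ℝ (Fm G) x) (fderiv ℝ (Fm P) x) ≤
      ‖fderiv ℝ (cc G) x - fderiv ℝ (cc P) x‖ := by
  rw [(Fm_hasFDerivAt' P x).fderiv, (Fm_hasFDerivAt' G x).fderiv, dist_eq_norm]
  apply ContinuousLinearMap.opNorm_le_bound _ (norm_nonneg _)
  intro v
  have e : ((DF G x : E →L[ℝ] E) - (DF P x : E →L[ℝ] E)) v =
      ((fderiv ℝ (cc G) x - fderiv ℝ (cc P) x) v, 0) := by
    have hv : v = v.1 • ((1, 0) : E) + v.2 • ((0, 1) : E) := by ext <;> simp
    have h1 : ∀ A : E →L[ℝ] ℝ, A v = v.1 * A (1, 0) + v.2 * A (0, 1) := by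
      intro A
      conv_lhs => rw [hv]
      rw [map_add, map_smul, map_smul, smul_eq_mul, smul_eq_mul]
    rw [h1]
    ext
    · simp [DF]; ring
    · simp [DF]
  rw [e]
  have e2 : ‖(((fderiv ℝ (cc G) x - fderiv ℝ (cc P) x) v, 0) : E)‖ =
      ‖(fderiv ℝ (cc G) x - fderiv ℝ (cc P) x) v‖ := by
    rw [Prod.norm_def, norm_zero]
    exact max_eq_left (norm_nonneg _)
  rw [e2]
  exact ContinuousLinearMap.le_opNorm _ _

theorem fT_tendsto : Tendsto (fun n : ℕ => fT (Gn n)) atTop (𝓝 (fT Th_lim)) := by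
  apply tendsto_diff1 (F := fun n => Fm (Gn n)) (F0 := Fm Th_lim)
  · intro n x; rfl
  · intro n; exact Fm_contDiff _
  · intro x; rfl
  · exact Fm_contDiff _
  · apply tendsto_of_unif (g := fun n => Fm (Gn n)) (Fm Th_lim).continuous
    intro ε hε
    filter_upwards [cc_unif hε] with n hn x
    rw [Fm_dist]
    exact hn x
  · apply tendsto_of_unif (g := fun n => fderiv ℝ (Fm (Gn n)))
      ((Fm_contDiff Th_lim).continuous_fderiv (by norm_num))
    intro ε hε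
    filter_upwards [cc_fderiv_unif hε] with n hn x
    exact (DF_dist _ _ x).trans_lt (hn x)

end Pool.Agent.H56.Anosov
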