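import Pool.Agent.H56.Anosov.Deriv

/-!
# Convergence of the truncated conjugates
-/

namespace Pool.Agent.H56.Anosov

open Set Filter Topology

variable {θ θ' ϑ ϑ' : ℝ → ℝ}

lemma q_Lsymm_le (x : E) : q (L.symm x) ≤ 2.62 * q x := by
  unfold q
  simp only [Lsymm_fst, Lsymm_snd, mul_pow, neg_sq]
  have h1 : gr ^ 2 ≤ 2.62 := by nlinarith [gr_sq, gr_upper]
  have h2 : gc ^ 2 ≤ 2.62 := by nlinarith [gc_sq, gc_upper]
  nlinarith [sq_nonneg x.1, sq_nonneg x.2]

/-- If the profiles agree on `[δ, ∞)`, the maps agree away from the singular set. -/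
lemma Fm_agree (P : LimProfile θ θ') (G : LimProfile ϑ ϑ') {δ : ℝ} (hδ0 : 0 < δ) (hδ : δ ≤ bb)
    (h : ∀ t, δ ≤ t → ϑ t = θ t) {x : E} (hx : ∀ σ ∈ S, 4 * δ ≤ q (x - σ)) :
    Fm G x = Fm P x := by
  have hb := bb_pos
  have h1 : Hm G x = Hm P x := by
    rw [Hm_apply, Hm_apply, eta_eq_of_profile_eq P.toProfile G.toProfile h
      (fun σ hσ _ => by linarith [hx σ hσ])]
  have h2 : Hm G (Fm P x) = Hm P (Fm P x) := by
    rw [Hm_apply, Hm_apply, eta_eq_of_profile_eq P.toProfile G.toProfile h]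
    intro σ' hσ' hne
    by_contra hcon
    push Not at hcon
    -- the point is near the singular set
    have h3 : q (Hm P (Fm P x) - σ') < bb := Hm_ball' P le_rfl (by linarith) hσ' (by linarith)
    rw [Hm_Fm] at h3
    have h4 : q (Hm P x - L.symm σ') < 2.62 * bb := by
      have e : Hm P x - L.symm σ' = L.symm (L (Hm P x) - σ') := by
        rw [map_sub, ContinuousLinearEquiv.symm_apply_apply]
      rw [e]
      have := q_Lsymm_le (L (Hm P x) - σ')
      linarith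
    have h5 : q ((Hm P).symm (Hm P x) - L.symm σ') < 2.62 * bb :=
      Hm_symm_ball P (by linarith) (by linarith) (S_Lsymm hσ') h4
    rw [Homeomorph.symm_apply_apply] at h5
    obtain ⟨_, hrel⟩ := Fm_near P (S_Lsymm hσ') (y := x - L.symm σ') (by linarith)
    have e : L.symm σ' + (x - L.symm σ') = x := by abel
    rw [e, ContinuousLinearEquiv.apply_symm_apply] at hrel
    have h6 := hx _ (S_Lsymm hσ')
    have h7 : x - L.symm σ' ≠ 0 := by
      intro h0
      rw [h0, q_zero] at h6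
      linarith
    have := (hrel.estimates P.toProfile h7).1
    linarith
  rw [Fm_apply G, h1, ← Hm_Fm P, ← h2, Homeomorph.symm_apply_apply]

lemma cc_agree (P : LimProfile θ θ') (G : LimProfile ϑ ϑ') {δ : ℝ} (hδ0 : 0 < δ) (hδ : δ ≤ bb)
    (h : ∀ t, δ ≤ t → ϑ t = θ t) {x : E} (hx : ∀ σ ∈ S, 4 * δ ≤ q (x - σ)) :
    cc G x = cc P x := by
  unfold cc
  rw [Fm_agree P G hδ0 hδ h hx]

lemma cc_fderiv_dist (P : LimProfile θ θ') (G : LimProfile ϑ ϑ') {δ : ℝ} (hδ0 : 0 < δ)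
    (hδ : 9 * δ ≤ 4 * bb) (h : ∀ t, δ ≤ t → ϑ t = θ t) (x : E) :
    ‖fderiv ℝ (cc G) x - fderiv ℝ (cc P) x‖ ≤ 40 * K (36 * δ) := by
  have hK := K_pos (36 * δ)
  by_cases hn : ∃ σ ∈ S, q (x - σ) < 9 * δ
  · obtain ⟨σ, hσ, hn⟩ := hn
    have key : ∀ {ζ ζ' : ℝ → ℝ} (R : LimProfile ζ ζ'), ‖fderiv ℝ (cc R) x‖ ≤ 20 * K (36 * δ) := by
      intro ζ ζ' R
      by_cases hxs : x = σ
      · rw [hxs, (cc_hasFDerivAt_S R hσ).fderiv, norm_zero]; positivity
      · have e : σ + (x - σ) = x := by abel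
        have h1 := cc_fderiv_near R hσ (sub_ne_zero.2 hxs) (by linarith)
        rw [e] at h1
        have h2 := q_pos (sub_ne_zero.2 hxs)
        have := K_mono (t := 4 * q (x - σ)) (t' := 36 * δ) (by positivity) (by linarith)
        linarith
    refine (norm_sub_le _ _).trans ?_
    linarith [key G, key P]
  · push Not at hn
    have : cc G =ᶠ[𝓝 x] cc P := by
      filter_upwards [eventually_far (r' := 4 * δ) (by linarith) hn] with x' hx'
      exact cc_agree P G hδ0 (by linarith) h hx'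
    rw [this.fderiv_eq, sub_self, norm_zero]
    positivity

lemma cc_lipschitz (P : LimProfile θ θ') (x y : E) : |cc P y - cc P x| ≤ 0.2 * ‖y - x‖ := by
  have := Convex.norm_image_sub_le_of_norm_fderiv_le (𝕜 := ℝ) (f := cc P) (C := 0.2)
    (s := Set.univ) (x := x) (y := y)
    (fun z _ => (cc_contDiff P).differentiable (by norm_num) z)
    (fun z _ => cc_fderiv_bound P z) convex_univ (Set.mem_univ _) (Set.mem_univ _)
  rwa [Real.norm_eq_abs] at this

lemma norm_le_sqrt_q (y : E) : ‖y‖ ≤ Real.sqrt (q y) := by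
  rw [Prod.norm_def, Real.norm_eq_abs, Real.norm_eq_abs]
  exact max_le (abs_fst_le y) (abs_snd_le y)

lemma cc_dist (P : LimProfile θ θ') (G : LimProfile ϑ ϑ') {δ : ℝ} (hδ0 : 0 < δ) (hδ : δ ≤ bb)
    (h : ∀ t, δ ≤ t → ϑ t = θ t) (x : E) :
    |cc G x - cc P x| ≤ 0.8 * Real.sqrt δ := by
  by_cases hn : ∃ σ ∈ S, q (x - σ) < 4 * δ
  · obtain ⟨σ, hσ, hn⟩ := hn
    have key : ∀ {ζ ζ' : ℝ → ℝ} (R : LimProfile ζ ζ'), |cc R x| ≤ 0.4 * Real.sqrt δ := by
      intro ζ ζ' R
      have h1 := cc_lipschitz R σ x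
      rw [cc_S R hσ, sub_zero] at h1
      have h2 := norm_le_sqrt_q (x - σ)
      have h3 : Real.sqrt (q (x - σ)) ≤ 2 * Real.sqrt δ := by
        rw [show 2 * Real.sqrt δ = Real.sqrt (4 * δ) by
          rw [Real.sqrt_mul (by norm_num), show (4 : ℝ) = 2 ^ 2 by norm_num,
            Real.sqrt_sq (by norm_num)]]
        exact Real.sqrt_le_sqrt hn.le
      linarith
    have h1 := abs_sub (cc G x) (cc P x)
    linarith [key G, key P]
  · push Not at hn
    rw [cc_agree P G hδ0 hδ h hn, sub_self, abs_zero]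
    positivity

/-! ### `F` is a `C^1` diffeomorphism -/

lemma Fm_contDiff (P : LimProfile θ θ') : ContDiff ℝ 1 (Fm P) := by
  have h := cc_contDiff P
  have e : (Fm P : E → E) = fun x => (gr * x.1 + cc P x, gc * x.2) := by
    ext1 x; exact Fm_eq P x
  rw [e]
  fun_prop

lemma abs_fderiv_le (P : LimProfile θ θ') (x : E) : |fderiv ℝ (cc P) x (1, 0)| ≤ 0.2 := by
  have h1 := (fderiv ℝ (cc P) x).le_opNorm (1, 0)
  have h2 : ‖((1, 0) : E)‖ = 1 := by simp [Prod.norm_def]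
  rw [h2, mul_one, Real.norm_eq_abs] at h1
  exact h1.trans (cc_fderiv_bound P x)

lemma slope_pos (P : LimProfile θ θ') (x : E) : 1.4 ≤ gr + fderiv ℝ (cc P) x (1, 0) := by
  have := (abs_le.1 (abs_fderiv_le P x)).1
  linarith [gr_lower]

/-- The derivative of `F`. -/
noncomputable def DF (P : LimProfile θ θ') (x : E) : E ≃L[ℝ] E :=
  tri (gr + fderiv ℝ (cc P) x (1, 0)) (fderiv ℝ (cc P) x (0, 1)) gc
    (by have := slope_pos P x; linarith) gc_ne_zero

lemma Fm_hasFDerivAt' (P : LimProfile θ θ') (x : E) : HasFDerivAt (Fm P) (DF P x : E →L[ℝ] E) x := by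
  have h := ((cc_contDiff P).differentiable (by norm_num) x).hasFDerivAt
  have h1 : HasFDerivAt (fun x : E => ((gr * x.1 + cc P x, gc * x.2) : E))
      ((gr • ContinuousLinearMap.fst ℝ ℝ ℝ + fderiv ℝ (cc P) x).prod
        (gc • ContinuousLinearMap.snd ℝ ℝ ℝ)) x :=
    ((hasFDerivAt_fst.const_mul gr).add h).prodMk (hasFDerivAt_snd.const_mul gc)
  have e : (Fm P : E → E) = fun x => (gr * x.1 + cc P x, gc * x.2) := by
    ext1 x; exact Fm_eq P x
  rw [e]
  refine h1.congr_fderiv ?_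
  ext <;> simp [DF]

lemma Fm_symm_contDiff (P : LimProfile θ θ') : ContDiff ℝ 1 (Fm P).symm :=
  Homeomorph.contDiff_symm _ (fun x => Fm_hasFDerivAt' P x) (Fm_contDiff P)

lemma GoodProfile.Hm_contDiff (G : GoodProfile θ θ') : ContDiff ℝ 1 (Hm G.toLimProfile) :=
  mkH_contDiff G.slope G.eta_contDiff

lemma GoodProfile.Hm_symm_contDiff (G : GoodProfile θ θ') :
    ContDiff ℝ 1 (Hm G.toLimProfile).symm :=
  mkH_symm_contDiff G.slope G.eta_contDiff

end Pool.Agent.H56.Anosov
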