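import Mathlib

/-!
# Anosov diffeomorphisms, the `C^1` topology and centralizers

General definitions for a manifold `M` modelled on a real normed space `V`.
-/

open scoped Manifold ContDiff Topology
open Bundle

namespace Pool.Agent.H56.AnosovDefs

variable (V : Type) [NormedAddCommGroup V] [NormedSpace ℝ V]
  (M : Type) [TopologicalSpace M] [ChartedSpace V M] [IsManifold 𝓘(ℝ, V) ∞ M]

/-- The group `Diff^1(M)` of `C^1` diffeomorphisms of `M`. -/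
abbrev Diff1 : Type := Diffeomorph 𝓘(ℝ, V) 𝓘(ℝ, V) M M 1

variable {V M}

/-- The tangent map `Tf : TM → TM` of `f ∈ Diff^1(M)`, as a continuous map. -/
noncomputable def tangentCM (f : Diff1 V M) :
    C(TangentBundle 𝓘(ℝ, V) M, TangentBundle 𝓘(ℝ, V) M) :=
  ⟨tangentMap 𝓘(ℝ, V) 𝓘(ℝ, V) f, f.contMDiff_toFun.continuous_tangentMap le_rfl⟩

/-- The `C^1` topology on `Diff^1(M)`: `f` is close to `g` if the tangent maps are close in the
compact-open topology of `C(TM, TM)`. -/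
noncomputable instance c1Topology : TopologicalSpace (Diff1 V M) :=
  TopologicalSpace.induced tangentCM inferInstance

variable (V M) in
/-- A continuous norm on the tangent bundle (for compact `M` any two are equivalent). -/
structure TangentNorm where
  /-- the norm -/
  toFun : TangentBundle 𝓘(ℝ, V) M → ℝ
  continuous : Continuous toFun
  nonneg : ∀ v, 0 ≤ toFun v
  eq_zero : ∀ (x : M) (v : TangentSpace 𝓘(ℝ, V) x), toFun ⟨x, v⟩ = 0 → v = 0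
  smul : ∀ (x : M) (c : ℝ) (v : TangentSpace 𝓘(ℝ, V) x), toFun ⟨x, c • v⟩ = |c| * toFun ⟨x, v⟩
  add_le : ∀ (x : M) (v w : TangentSpace 𝓘(ℝ, V) x),
    toFun ⟨x, v + w⟩ ≤ toFun ⟨x, v⟩ + toFun ⟨x, w⟩

/-- `f` is Anosov: there is a continuous `Df`-invariant splitting `TM = E^s ⊕ E^u`, encoded by the
projections `P x` of `T_x M` onto `E^s_x = {v | P x v = v}` along `E^u_x = {v | P x v = 0}`, such
that `‖Df^n|E^s‖ ≤ C λ^n` and `‖Df^{-n}|E^u‖ ≤ C λ^n` for all `n ≥ 0`. -/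
def IsAnosov (f : Diff1 V M) : Prop :=
  ∃ (N : TangentNorm V M)
    (P : (x : M) → TangentSpace 𝓘(ℝ, V) x →L[ℝ] TangentSpace 𝓘(ℝ, V) x) (C lam : ℝ),
    (∀ x v, P x (P x v) = P x v) ∧
    Continuous (fun v : TangentBundle 𝓘(ℝ, V) M =>
      (⟨v.proj, P v.proj v.snd⟩ : TangentBundle 𝓘(ℝ, V) M)) ∧
    (∀ x v, mfderiv 𝓘(ℝ, V) 𝓘(ℝ, V) f x (P x v) =
      P (f x) (mfderiv 𝓘(ℝ, V) 𝓘(ℝ, V) f x v)) ∧
    0 < C ∧ 0 < lam ∧ lam < 1 ∧
    (∀ (n : ℕ) (x : M) (v : TangentSpace 𝓘(ℝ, V) x), P x v = v →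
      N.toFun ((tangentMap 𝓘(ℝ, V) 𝓘(ℝ, V) f)^[n] ⟨x, v⟩) ≤ C * lam ^ n * N.toFun ⟨x, v⟩) ∧
    (∀ (n : ℕ) (x : M) (v : TangentSpace 𝓘(ℝ, V) x), P x v = 0 →
      N.toFun ((tangentMap 𝓘(ℝ, V) 𝓘(ℝ, V) f.symm)^[n] ⟨x, v⟩) ≤ C * lam ^ n * N.toFun ⟨x, v⟩)

variable (V M) in
/-- The space `A^1(M)` of `C^1` Anosov diffeomorphisms, with the `C^1` topology. -/
abbrev AnosovDiff : Type := {f : Diff1 V M // IsAnosov f}

/-- The centralizer of `f` in `Diff^1(M)` is trivial: every `g ∈ Diff^1(M)` commuting with `f` is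
an iterate `f^n`, `n ∈ ℤ`. -/
def TrivialCentralizer (f : Diff1 V M) : Prop :=
  ∀ g : Diff1 V M, (∀ x, g (f x) = f (g x)) →
    ∃ n : ℤ, ∀ x, g x = ((f.toEquiv : Equiv.Perm M) ^ n) x

end Pool.Agent.H56.AnosovDefs
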