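import Pool.Agent.H56.Anosov.Dyn

/-!
# `F = H⁻¹ ∘ L ∘ H` is `C^1` and `C^1`-close to `L`
-/

namespace Pool.Agent.H56.Anosov

open Set Filter Topology

variable {θ θ' : ℝ → ℝ}

/-- first component of `F - L` -/
noncomputable def cc (P : LimProfile θ θ') (x : E) : ℝ := (Fm P x).1 - gr * x.1

lemma Fm_eq (P : LimProfile θ θ') (x : E) : Fm P x = (gr * x.1 + cc P x, gc * x.2) := by
  ext
  · simp [cc]
  · simp

lemma continuous_cc (P : LimProfile θ θ') : Continuous (cc P) := by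
  unfold cc
  have := (Fm P).continuous
  fun_prop

lemma cc_periodic (P : LimProfile θ θ') (x : E) {γ : E} (hγ : γ ∈ Gam) :
    cc P (x + γ) = cc P x := by
  unfold cc
  rw [Fm_periodic P x hγ]
  simp
  ring

lemma eta_diff (P : LimProfile θ θ') {x : E} (hx : x ∉ S) : DifferentiableAt ℝ (eta θ) x :=
  (eta_contDiffAt_of_not_mem P.toProfile hx).differentiableAt (by norm_num)

/-- derivative of `H` off the singular set -/
noncomputable def DH (P : LimProfile θ θ') {x : E} (hx : x ∉ S) : E ≃L[ℝ] E :=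
  tri (1 + fderiv ℝ (eta θ) x (1, 0)) (fderiv ℝ (eta θ) x (0, 1)) 1
    (by have := P.slope.deriv_ge (eta_diff P hx); linarith) one_ne_zero

lemma Hm_hasFDerivAt (P : LimProfile θ θ') {x : E} (hx : x ∉ S) :
    HasFDerivAt (Hm P) (DH P hx : E →L[ℝ] E) x :=
  mkH_hasFDerivAt P.slope (eta_continuous P.toProfile) (eta_diff P hx)

lemma Hm_symm_hasFDerivAt (P : LimProfile θ θ') {z : E} (hz : (Hm P).symm z ∉ S) :
    HasFDerivAt (Hm P).symm ((DH P hz).symm : E →L[ℝ] E) z :=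
  HasFDerivAt.of_local_left_inverse (Hm P).symm.continuous.continuousAt
    (Hm_hasFDerivAt P hz) (Eventually.of_forall fun y => (Hm P).apply_symm_apply y)

lemma Fm_hasFDerivAt (P : LimProfile θ θ') {x : E} (hx : x ∉ S) :
    HasFDerivAt (Fm P) (((DH P (x := Fm P x) (fun h => hx ((Fm_mem_S P).1 h))).symm :
      E →L[ℝ] E) ∘L ((L : E →L[ℝ] E) ∘L (DH P hx : E →L[ℝ] E))) x := by
  have hF : (Hm P).symm (L (Hm P x)) ∉ S := fun h => hx ((Fm_mem_S P).1 h)
  have h1 := Hm_symm_hasFDerivAt P hF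
  have h2 : HasFDerivAt (fun x => L (Hm P x)) ((L : E →L[ℝ] E) ∘L (DH P hx : E →L[ℝ] E)) x :=
    L.hasFDerivAt.comp x (Hm_hasFDerivAt P hx)
  exact HasFDerivAt.comp (g := (Hm P).symm) (f := fun x => L (Hm P x)) x h1 h2

lemma cc_hasFDerivAt (P : LimProfile θ θ') {x : E} (hx : x ∉ S) :
    HasFDerivAt (cc P)
      (((1 + fderiv ℝ (eta θ) (Fm P x) (1, 0))⁻¹ * (gr * (1 + fderiv ℝ (eta θ) x (1, 0))) - gr) •
          ContinuousLinearMap.fst ℝ ℝ ℝ +
        ((1 + fderiv ℝ (eta θ) (Fm P x) (1, 0))⁻¹ * (gr * fderiv ℝ (eta θ) x (0, 1) -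
          gc * fderiv ℝ (eta θ) (Fm P x) (0, 1))) • ContinuousLinearMap.snd ℝ ℝ ℝ) x := by
  have h1 := (hasFDerivAt_fst.comp x (Fm_hasFDerivAt P hx))
  have h2 : HasFDerivAt (fun x : E => gr * x.1) (gr • ContinuousLinearMap.fst ℝ ℝ ℝ) x :=
    hasFDerivAt_fst.const_mul gr
  refine (h1.sub h2).congr_fderiv ?_
  ext
  · simp [DH]
  · simp [DH]
    ring

lemma Fm_contDiffAt (P : LimProfile θ θ') {x : E} (hx : x ∉ S) : ContDiffAt ℝ 1 (Fm P) x := by
  have hF : (Hm P).symm (L (Hm P x)) ∉ S := fun h => hx ((Fm_mem_S P).1 h)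
  have hH : ∀ x ∉ S, ContDiffAt ℝ 1 (Hm P) x := by
    intro x hx
    have h1 := eta_contDiffAt_of_not_mem P.toProfile hx
    have h2 : ContDiffAt ℝ 1 (fun x : E => ((x.1 + eta θ x, x.2) : E)) x := by fun_prop
    exact h2
  have hs : ContDiffAt ℝ 1 (Hm P).symm (L (Hm P x)) :=
    (Hm P).toOpenPartialHomeomorph.contDiffAt_symm (f₀' := DH P hF) (Set.mem_univ _)
      (Hm_hasFDerivAt P hF) (hH _ hF)
  have h2 : ContDiffAt ℝ 1 (fun x => L (Hm P x)) x :=
    L.contDiff.contDiffAt.comp x (hH x hx)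
  exact ContDiffAt.comp (g := (Hm P).symm) (f := fun x => L (Hm P x)) x hs h2

lemma cc_contDiffAt (P : LimProfile θ θ') {x : E} (hx : x ∉ S) : ContDiffAt ℝ 1 (cc P) x := by
  have := Fm_contDiffAt P hx
  unfold cc
  fun_prop

lemma numeric_bound {κ D a a' b b' v w : ℝ} (hκ0 : 0 ≤ κ) (hκ : κ ≤ 1 / 100) (hD : |D| ≤ 2 * κ)
    (ha : |a| ≤ 2 * κ) (ha' : |a'| ≤ 2 * κ) (hb : |b| ≤ κ) (hb' : |b'| ≤ κ) :
    |(gr * (Real.exp D * (1 + a) / (1 + a')) - gr) * v +
      (gr * (Real.exp D * b / (1 + a')) - gc * (b' / (1 + a'))) * w| ≤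
        20 * κ * max |v| |w| := by
  have hexp := Real.abs_exp_sub_one_le (x := D) (by linarith)
  have hE : |Real.exp D - 1| ≤ 4 * κ := by linarith
  have hE1 := abs_le.1 hE
  have ha1 := abs_le.1 ha
  have ha1' := abs_le.1 ha'
  have hb1 := abs_le.1 hb
  have hb1' := abs_le.1 hb'
  have hd : 0.98 ≤ 1 + a' := by linarith
  have hd0 : 0 < 1 + a' := by linarith
  have hEp : 0 < Real.exp D := Real.exp_pos D
  -- first coefficient
  have e1 : gr * (Real.exp D * (1 + a) / (1 + a')) - gr =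
      gr * ((Real.exp D - 1) * (1 + a) + (a - a')) / (1 + a') := by
    field_simp; ring
  have h1 : |gr * (Real.exp D * (1 + a) / (1 + a')) - gr| ≤ 14 * κ := by
    rw [e1, abs_div, abs_of_pos hd0, div_le_iff₀ hd0, abs_mul, abs_of_pos gr_pos]
    have h2 : |(Real.exp D - 1) * (1 + a) + (a - a')| ≤ 4 * κ * 1.02 + 4 * κ := by
      refine (abs_add_le _ _).trans ?_
      apply add_le_add
      · rw [abs_mul]
        apply mul_le_mul hE _ (abs_nonneg _) (by linarith)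
        rw [abs_le]; constructor <;> linarith
      · rw [abs_le]; constructor <;> linarith
    have h3 : gr * |(Real.exp D - 1) * (1 + a) + (a - a')| ≤ 1.6181 * (4 * κ * 1.02 + 4 * κ) :=
      mul_le_mul gr_upper.le h2 (abs_nonneg _) (by norm_num)
    nlinarith
  have h2 : |gr * (Real.exp D * b / (1 + a')) - gc * (b' / (1 + a'))| ≤ 3 * κ := by
    have e2 : gr * (Real.exp D * b / (1 + a')) - gc * (b' / (1 + a')) =
        (gr * (Real.exp D * b) - gc * b') / (1 + a') := by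
      field_simp
    rw [e2, abs_div, abs_of_pos hd0, div_le_iff₀ hd0]
    have h4 : |Real.exp D * b| ≤ 1.04 * κ := by
      rw [abs_mul, abs_of_pos hEp]
      exact mul_le_mul (by linarith) hb (abs_nonneg _) (by norm_num)
    have h5 : |gr * (Real.exp D * b)| ≤ 1.6181 * (1.04 * κ) := by
      rw [abs_mul, abs_of_pos gr_pos]
      exact mul_le_mul gr_upper.le h4 (abs_nonneg _) (by norm_num)
    have h6 : |gc * b'| ≤ 0.6181 * κ := by
      rw [abs_mul, abs_of_neg gc_neg]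
      exact mul_le_mul (by linarith [gc_lower]) hb' (abs_nonneg _) (by norm_num)
    have h7 := abs_sub (gr * (Real.exp D * b)) (gc * b')
    nlinarith
  refine (abs_add_le _ _).trans ?_
  rw [abs_mul, abs_mul]
  have hm1 : |v| ≤ max |v| |w| := le_max_left _ _
  have hm2 : |w| ≤ max |v| |w| := le_max_right _ _
  have hm0 : 0 ≤ max |v| |w| := (abs_nonneg v).trans hm1
  calc _ ≤ 14 * κ * max |v| |w| + 3 * κ * max |v| |w| := by
        apply add_le_add
        · exact mul_le_mul h1 hm1 (abs_nonneg _) (by linarith)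
        · exact mul_le_mul h2 hm2 (abs_nonneg _) (by linarith)
    _ ≤ _ := by nlinarith

lemma cc_fderiv_near (P : LimProfile θ θ') {σ y : E} (hσ : σ ∈ S) (hy0 : y ≠ 0)
    (hy : q y < 4 * bb) : ‖fderiv ℝ (cc P) (σ + y)‖ ≤ 20 * K (4 * q y) := by
  have hb := bb_pos
  have hx : σ + y ∉ S := by
    intro h
    have e : σ + y - σ = y := by abel
    have := near_unique h hσ (x := σ + y) (by rw [sub_self, q_zero]; linarith)
      (by rw [e]; linarith)
    exact hy0 (by simpa using this)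
  obtain ⟨hq', hrel⟩ := Fm_near P hσ hy
  set y' := Fm P (σ + y) - L σ with hy'
  have hy'0 : y' ≠ 0 := hrel.ne_zero hy0
  obtain ⟨hA, hB, hC⟩ := hrel.estimates P.toProfile hy0
  have eF : Fm P (σ + y) = L σ + y' := by rw [hy']; abel
  have ht := q_pos hy0
  have ht' := q_pos hy'0
  have hd1 := (eta_hasFDerivAt P.toProfile hσ hy0 (by linarith)).fderiv
  have hd2 := (eta_hasFDerivAt P.toProfile (S_L hσ) hy'0 hq').fderiv
  have hcc := cc_hasFDerivAt P hx
  rw [hcc.fderiv, eF, hd1, hd2]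
  apply ContinuousLinearMap.opNorm_le_bound _ (by have := K_pos (4 * q y); positivity)
  intro v
  rw [Prod.norm_def, Real.norm_eq_abs, Real.norm_eq_abs, Real.norm_eq_abs]
  set κ := K (4 * q y) with hκ
  have hκ0 := K_pos (4 * q y)
  have hκ1 := K_le (4 * q y)
  have b1 : |q y * θ' (q y)| ≤ κ := (P.bound _ ht).trans (K_mono ht (by linarith))
  have b2 : |q y' * θ' (q y')| ≤ κ := (P.bound _ ht').trans (K_mono ht' hB)
  have sq1 : ∀ z : E, ∀ r : ℝ, |2 * (z.1 ^ 2 * r)| ≤ 2 * |q z * r| := by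
    intro z r
    rw [abs_mul, abs_two, abs_mul, abs_mul, abs_of_nonneg (sq_nonneg z.1),
      abs_of_nonneg (q_nonneg z)]
    unfold q
    have := abs_nonneg r
    nlinarith [sq_nonneg z.2, mul_nonneg (sq_nonneg z.2) this]
  have sq2 : ∀ z : E, ∀ r : ℝ, |2 * (z.1 * z.2 * r)| ≤ |q z * r| := by
    intro z r
    have h3 : |2 * (z.1 * z.2)| ≤ q z := by
      unfold q
      rw [abs_le]
      constructor
      · nlinarith [sq_nonneg (z.1 + z.2)]
      · nlinarith [sq_nonneg (z.1 - z.2)]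
    have e : 2 * (z.1 * z.2 * r) = (2 * (z.1 * z.2)) * r := by ring
    rw [e, abs_mul (2 * (z.1 * z.2)) r, abs_mul (q z) r, abs_of_nonneg (q_nonneg z)]
    exact mul_le_mul_of_nonneg_right h3 (abs_nonneg _)
  have key := numeric_bound (κ := κ) (D := θ (q y) - θ (q y'))
    (a := 2 * (y.1 ^ 2 * θ' (q y))) (a' := 2 * (y'.1 ^ 2 * θ' (q y')))
    (b := 2 * (y.1 * y.2 * θ' (q y))) (b' := 2 * (y'.1 * y'.2 * θ' (q y'))) (v := v.1) (w := v.2)
    hκ0.le hκ1 hC ((sq1 _ _).trans (by linarith)) ((sq1 _ _).trans (by linarith))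
    ((sq2 _ _).trans b1) ((sq2 _ _).trans b2)
  refine le_trans (le_of_eq ?_) key
  congr 1
  have hE' := Real.exp_pos (θ (q y'))
  have ha' : 0 < 1 + 2 * (y'.1 ^ 2 * θ' (q y')) := by
    have := (abs_le.1 ((sq1 y' (θ' (q y'))).trans (mul_le_mul_of_nonneg_left b2 (by norm_num)))).1
    linarith
  rw [Real.exp_sub]
  simp
  field_simp

lemma cc_far (P : LimProfile θ θ') {x : E} (hx : ∀ σ ∈ S, 4 * bb ≤ q (x - σ)) : cc P x = 0 := by
  unfold cc
  rw [Fm_far P hx]
  simp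

lemma cc_S (P : LimProfile θ θ') {σ : E} (hσ : σ ∈ S) : cc P σ = 0 := by
  unfold cc
  rw [Fm_S P hσ]
  simp

lemma q_add_le' (x y : E) : q (x + y) ≤ 1.25 * q x + 5 * q y := by
  unfold q
  simp only [Prod.fst_add, Prod.snd_add]
  nlinarith [sq_nonneg (0.5 * x.1 - 2 * y.1), sq_nonneg (0.5 * x.2 - 2 * y.2)]

lemma q_smul (τ : ℝ) (y : E) : q (τ • y) = τ ^ 2 * q y := by
  unfold q
  simp only [Prod.smul_fst, Prod.smul_snd, smul_eq_mul]
  ring

lemma Fm_far' (P : LimProfile θ θ') {x : E} (hx : ∀ σ ∈ S, 3 * bb ≤ q (x - σ)) :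
    Fm P x = L x := by
  have hb := bb_pos
  rw [Fm_apply, Hm_far P (fun σ hσ => by linarith [hx σ hσ])]
  rcases Hm_symm_cases P (L x) with ⟨σ', hσ', h1, _⟩ | h
  · exfalso
    have h2 := hx _ (S_Lsymm hσ')
    have h3 := q_L_ge (x - L.symm σ')
    rw [map_sub, ContinuousLinearEquiv.apply_symm_apply] at h3
    linarith
  · exact h

lemma cc_fderiv_far (P : LimProfile θ θ') {x : E} (hx : ∀ σ ∈ S, 4 * bb ≤ q (x - σ)) :
    fderiv ℝ (cc P) x = 0 := by
  have hb := bb_pos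
  have : cc P =ᶠ[𝓝 x] fun _ => 0 := by
    have h0 : q (x - x) < 0.05 * bb := by rw [sub_self, q_zero]; linarith
    filter_upwards [eventually_near h0] with x' hx'
    unfold cc
    rw [Fm_far' P]
    · simp
    · intro σ hσ
      have h1 := hx σ hσ
      have h2 : q (x - σ) ≤ 1.25 * q (x' - σ) + 5 * q (x - x') := by
        have e : x - σ = (x' - σ) + (x - x') := by abel
        rw [e]; exact q_add_le' _ _
      rw [q_sub_comm] at hx'
      linarith
  rw [this.fderiv_eq]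
  simp

lemma cc_near_S (P : LimProfile θ θ') {ε : ℝ} (hε : 0 < ε) : ∃ δ > 0, ∀ σ ∈ S, ∀ y : E, y ≠ 0 →
    q y < δ → ‖fderiv ℝ (cc P) (σ + y)‖ ≤ ε := by
  have h1 := (tendsto_order.1 K_tendsto).2 (ε / 20) (by positivity)
  obtain ⟨δ, hδ, h⟩ := (mem_nhdsGT_iff_exists_Ioo_subset).1 h1
  have hδ' : (0 : ℝ) < δ := hδ
  refine ⟨min (δ / 4) (4 * bb), lt_min (by positivity) (by linarith [bb_pos]), ?_⟩
  intro σ hσ y hy0 hy
  have h2 := cc_fderiv_near P hσ hy0 (lt_of_lt_of_le hy (min_le_right _ _))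
  have h3 := lt_of_lt_of_le hy (min_le_left _ _)
  have h4 : K (4 * q y) < ε / 20 := h ⟨by have := q_pos hy0; positivity, by linarith⟩
  linarith

/-- Mean value estimate from a point of `S`. -/
lemma cc_mvt (P : LimProfile θ θ') {σ y : E} {ε : ℝ} (hσ : σ ∈ S)
    (h : ∀ τ : ℝ, 0 < τ → τ < 1 → ‖fderiv ℝ (cc P) (σ + τ • y)‖ ≤ ε)
    (hS : ∀ τ : ℝ, 0 < τ → τ < 1 → σ + τ • y ∉ S) : |cc P (σ + y)| ≤ ε * ‖y‖ := by
  have hcont : ContinuousOn (fun τ : ℝ => cc P (σ + τ • y)) (Set.Icc 0 1) := by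
    have := continuous_cc P
    fun_prop
  have hder : ∀ τ ∈ Set.Ioo (0 : ℝ) 1, HasDerivAt (fun τ : ℝ => cc P (σ + τ • y))
      (fderiv ℝ (cc P) (σ + τ • y) y) τ := by
    intro τ hτ
    have h1 := ((cc_contDiffAt P (hS τ hτ.1 hτ.2)).differentiableAt (by norm_num)).hasFDerivAt
    have h2 : HasDerivAt (fun τ : ℝ => σ + τ • y) y τ := by
      have := ((hasDerivAt_id τ).smul_const y).const_add σ
      simpa using this
    exact h1.comp_hasDerivAt τ h2
  obtain ⟨τ, hτ, he⟩ := exists_hasDerivAt_eq_slope _ _ one_pos hcont hder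
  rw [one_smul, zero_smul, add_zero, cc_S P hσ, sub_zero, sub_zero, div_one] at he
  rw [← he, ← Real.norm_eq_abs]
  exact (ContinuousLinearMap.le_opNorm _ _).trans
    (mul_le_mul_of_nonneg_right (h τ hτ.1 hτ.2) (norm_nonneg _))

lemma not_mem_S_of_near {σ y : E} (hσ : σ ∈ S) (hy0 : y ≠ 0) (hy : q y < 16 * bb) :
    σ + y ∉ S := by
  intro h
  have e : σ + y - σ = y := by abel
  have := near_unique h hσ (x := σ + y) (by rw [sub_self, q_zero]; linarith [bb_pos])
    (by rw [e]; linarith)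
  exact hy0 (by simpa using this)

lemma cc_hasFDerivAt_S (P : LimProfile θ θ') {σ : E} (hσ : σ ∈ S) :
    HasFDerivAt (cc P) (0 : E →L[ℝ] ℝ) σ := by
  rw [hasFDerivAt_iff_isLittleO_nhds_zero, Asymptotics.isLittleO_iff]
  intro ε hε
  obtain ⟨δ, hδ, h⟩ := cc_near_S P hε
  have h0 : q (0 - 0) < min δ (16 * bb) := by
    rw [sub_self, q_zero]; exact lt_min hδ (by linarith [bb_pos])
  filter_upwards [eventually_near h0] with y hy
  rw [sub_zero] at hy
  rw [cc_S P hσ, sub_zero, zero_apply, sub_zero, Real.norm_eq_abs]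
  by_cases hy0 : y = 0
  · subst hy0; simp [cc_S P hσ]
  have hτ : ∀ τ : ℝ, 0 < τ → τ < 1 → τ • y ≠ 0 ∧ q (τ • y) ≤ q y := by
    intro τ h1 h2
    refine ⟨smul_ne_zero h1.ne' hy0, ?_⟩
    rw [q_smul]
    have h3 : τ ^ 2 ≤ 1 := by nlinarith
    exact mul_le_of_le_one_left (q_nonneg y) h3
  refine cc_mvt P hσ (fun τ h1 h2 => ?_) (fun τ h1 h2 => ?_)
  · exact h σ hσ _ (hτ τ h1 h2).1 (lt_of_le_of_lt (hτ τ h1 h2).2
      (lt_of_lt_of_le hy (min_le_left _ _)))
  · exact not_mem_S_of_near hσ (hτ τ h1 h2).1 (lt_of_le_of_lt (hτ τ h1 h2).2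
      (lt_of_lt_of_le hy (min_le_right _ _)))

lemma cc_contDiff (P : LimProfile θ θ') : ContDiff ℝ 1 (cc P) := by
  rw [contDiff_one_iff_fderiv]
  have hdiff : Differentiable ℝ (cc P) := by
    intro x
    by_cases hx : x ∈ S
    · exact (cc_hasFDerivAt_S P hx).differentiableAt
    · exact (cc_contDiffAt P hx).differentiableAt (by norm_num)
  refine ⟨hdiff, ?_⟩
  rw [continuous_iff_continuousAt]
  intro x
  by_cases hx : x ∈ S
  · rw [ContinuousAt, (cc_hasFDerivAt_S P hx).fderiv, Metric.tendsto_nhds]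
    intro ε hε
    obtain ⟨δ, hδ, h⟩ := cc_near_S P (half_pos hε)
    have h0 : q (x - x) < δ := by rw [sub_self, q_zero]; exact hδ
    filter_upwards [eventually_near h0] with x' hx'
    rw [dist_zero_right]
    by_cases hxx : x' = x
    · rw [hxx, (cc_hasFDerivAt_S P hx).fderiv, norm_zero]; exact hε
    · have e : x + (x' - x) = x' := by abel
      have := h x hx (x' - x) (sub_ne_zero.2 hxx) hx'
      rw [e] at this
      linarith
  · exact (cc_contDiffAt P hx).continuousAt_fderiv (by norm_num)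

lemma cc_fderiv_bound (P : LimProfile θ θ') (x : E) : ‖fderiv ℝ (cc P) x‖ ≤ 0.2 := by
  by_cases h : ∃ σ ∈ S, q (x - σ) < 4 * bb
  · obtain ⟨σ, hσ, h⟩ := h
    by_cases hxs : x = σ
    · rw [hxs, (cc_hasFDerivAt_S P hσ).fderiv, norm_zero]; norm_num
    · have e : σ + (x - σ) = x := by abel
      have h1 := cc_fderiv_near P hσ (sub_ne_zero.2 hxs) h
      rw [e] at h1
      have := K_le (4 * q (x - σ))
      linarith
  · push Not at h
    rw [cc_fderiv_far P h, norm_zero]; norm_num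

end Pool.Agent.H56.Anosov
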