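import Pool.Agent.H56.Anosov.TorusMaps
import Pool.Agent.H56.Anosov.Concrete

/-!
# Descending to the torus, the Anosov property, convergence
-/

open scoped Manifold ContDiff Topology
open Set Filter Pool.Agent.H56.AnosovDefs

namespace Pool.Agent.H56.Anosov

/-- `F` maps cosets of the lattice to cosets. -/
def Equi (F : E → E) : Prop := ∀ x, ∀ γ ∈ Gam, F (x + γ) - F x ∈ Gam

/-- the induced map -/
def desc (F : E → E) (hF : Equi F) : Tor → Tor :=
  Quotient.lift (fun x => tor (F x)) (by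
    intro a b hab
    have h : b - a ∈ Gam := by
      rw [← neg_add_eq_sub]
      exact QuotientAddGroup.leftRel_apply.1 hab
    have h2 := hF a (b - a) h
    rw [add_sub_cancel] at h2
    exact tor_eq_iff.2 h2)

lemma desc_tor (F : E → E) (hF : Equi F) (x : E) : desc F hF (tor x) = tor (F x) := rfl

/-- the induced diffeomorphism -/
def descDiff (F : E ≃ₜ E) (h1 : Equi F) (h2 : Equi F.symm) (c1 : ContDiff ℝ 1 F)
    (c2 : ContDiff ℝ 1 F.symm) : Diff1 E Tor where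
  toFun := desc F h1
  invFun := desc F.symm h2
  left_inv y := by
    obtain ⟨x, rfl⟩ := tor_surjective y
    rw [desc_tor, desc_tor, F.symm_apply_apply]
  right_inv y := by
    obtain ⟨x, rfl⟩ := tor_surjective y
    rw [desc_tor, desc_tor, F.apply_symm_apply]
  contMDiff_toFun := contMDiff_of_lift (F := F) (fun _ => rfl) c1
  contMDiff_invFun := contMDiff_of_lift (F := F.symm) (fun _ => rfl) c2

lemma descDiff_tor (F : E ≃ₜ E) (h1 : Equi F) (h2 : Equi F.symm) (c1 : ContDiff ℝ 1 F)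
    (c2 : ContDiff ℝ 1 F.symm) (x : E) : descDiff F h1 h2 c1 c2 (tor x) = tor (F x) := rfl

lemma descDiff_symm_tor (F : E ≃ₜ E) (h1 : Equi F) (h2 : Equi F.symm) (c1 : ContDiff ℝ 1 F)
    (c2 : ContDiff ℝ 1 F.symm) (x : E) :
    (descDiff F h1 h2 c1 c2).symm (tor x) = tor (F.symm x) := rfl

lemma tangentMap_lift {F : E → E} {f : Tor → Tor} (hf : ∀ x, tor (F x) = f (tor x))
    (hF : ContDiff ℝ 1 F) (x v : E) :
    tangentMap 𝓘(ℝ, E) 𝓘(ℝ, E) f (mkTB (tor x) v) = mkTB (tor (F x)) (fderiv ℝ F x v) := by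
  have h := mfderiv_of_lift hf hF x
  have e : tangentMap 𝓘(ℝ, E) 𝓘(ℝ, E) f (mkTB (tor x) v) =
      mkTB (f (tor x)) (mfderiv 𝓘(ℝ, E) 𝓘(ℝ, E) f (tor x) v) := rfl
  rw [e, h, hf]
  rfl

/-! ### Convergence in `Diff^1` -/

lemma tendsto_cm {X Y : Type*} [TopologicalSpace X] [TopologicalSpace Y] {f : ℕ → C(X, Y)}
    {g : C(X, Y)} (h : ∀ v0 : X, Tendsto (fun p : ℕ × X => f p.1 p.2) (atTop ×ˢ 𝓝 v0)
      (𝓝 (g v0))) : Tendsto f atTop (𝓝 g) := by
  rw [ContinuousMap.tendsto_nhds_compactOpen]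
  intro Ks hK U hU hgU
  have h1 : {p : ℕ × X | f p.1 p.2 ∈ U} ∈ (atTop : Filter ℕ) ×ˢ 𝓝ˢ Ks := by
    apply hK.mem_prod_nhdsSet_of_forall
    intro v0 hv0
    exact (h v0).eventually (hU.mem_nhds (hgU hv0))
  rw [mem_prod_iff] at h1
  obtain ⟨t, ht, s, hs, hts⟩ := h1
  filter_upwards [ht] with n hn v hv
  exact hts (Set.mk_mem_prod hn (subset_of_mem_nhdsSet hs hv))

lemma tendsto_diff1 {F : ℕ → E → E} {f : ℕ → Diff1 E Tor} {F0 : E → E} {f0 : Diff1 E Tor}
    (hf : ∀ n x, tor (F n x) = f n (tor x)) (hF : ∀ n, ContDiff ℝ 1 (F n))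
    (hf0 : ∀ x, tor (F0 x) = f0 (tor x)) (hF0 : ContDiff ℝ 1 F0)
    (hA : ∀ x0, Tendsto (fun p : ℕ × E => F p.1 p.2) (atTop ×ˢ 𝓝 x0) (𝓝 (F0 x0)))
    (hB : ∀ x0, Tendsto (fun p : ℕ × E => fderiv ℝ (F p.1) p.2) (atTop ×ˢ 𝓝 x0)
      (𝓝 (fderiv ℝ F0 x0))) : Tendsto f atTop (𝓝 f0) := by
  rw [nhds_induced, tendsto_comap_iff]
  apply tendsto_cm
  intro v0
  set y0 := v0.proj with hy0
  set w0 := sndTB v0 with hw0
  have hv0 : v0 = mkTB (tor (rep y0)) w0 := by rw [tor_rep]; rfl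
  have hg : tangentCM f0 v0 = mkTB (tor (F0 (rep y0))) (fderiv ℝ F0 (rep y0) w0) := by
    rw [hv0]
    exact tangentMap_lift hf0 hF0 _ _
  have hsec : ContinuousAt (fun v : TangentBundle 𝓘(ℝ, E) Tor => chartAt E y0 v.proj) v0 := by
    have h1 : ContinuousAt (chartAt E y0) y0 :=
      (chartAt E y0).continuousAt (mem_chart_source E y0)
    exact ContinuousAt.comp (g := chartAt E y0) (f := fun v : TangentBundle 𝓘(ℝ, E) Tor => v.proj)
      h1 continuous_proj_TB.continuousAt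
  have hsrc : ∀ᶠ v : TangentBundle 𝓘(ℝ, E) Tor in 𝓝 v0, v.proj ∈ (chartAt E y0).source :=
    continuous_proj_TB.continuousAt.eventually
      ((chartAt E y0).open_source.mem_nhds (mem_chart_source E y0))
  have hx : Tendsto (fun p : ℕ × TangentBundle 𝓘(ℝ, E) Tor => (p.1, chartAt E y0 p.2.proj))
      (atTop ×ˢ 𝓝 v0) (atTop ×ˢ 𝓝 (rep y0)) :=
    tendsto_fst.prodMk (hsec.tendsto.comp tendsto_snd)
  have h1 := (hA (rep y0)).comp hx
  have h2 := (hB (rep y0)).comp hx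
  have h3 : Tendsto (fun p : ℕ × TangentBundle 𝓘(ℝ, E) Tor => sndTB p.2)
      (atTop ×ˢ 𝓝 v0) (𝓝 w0) :=
    (continuous_snd_TB.tendsto v0).comp tendsto_snd
  have h4 : Tendsto (fun p : ℕ × TangentBundle 𝓘(ℝ, E) Tor =>
      fderiv ℝ (F p.1) (chartAt E y0 p.2.proj) (sndTB p.2)) (atTop ×ˢ 𝓝 v0)
      (𝓝 (fderiv ℝ F0 (rep y0) w0)) :=
    ((isBoundedBilinearMap_apply (𝕜 := ℝ) (E := E) (F := E)).continuous.tendsto
      (fderiv ℝ F0 (rep y0), w0)).comp (h2.prodMk_nhds h3)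
  have h5 : Tendsto (fun p : ℕ × TangentBundle 𝓘(ℝ, E) Tor =>
      mkTB (tor (F p.1 (chartAt E y0 p.2.proj)))
        (fderiv ℝ (F p.1) (chartAt E y0 p.2.proj) (sndTB p.2))) (atTop ×ˢ 𝓝 v0)
      (𝓝 (mkTB (tor (F0 (rep y0))) (fderiv ℝ F0 (rep y0) w0))) := by
    have h6 : Tendsto (fun p : ℕ × TangentBundle 𝓘(ℝ, E) Tor =>
        tor (F p.1 (chartAt E y0 p.2.proj))) (atTop ×ˢ 𝓝 v0) (𝓝 (tor (F0 (rep y0)))) :=
      (continuous_tor.tendsto _).comp h1
    exact (continuous_mkTB.tendsto (tor (F0 (rep y0)), fderiv ℝ F0 (rep y0) w0)).comp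
      (h6.prodMk_nhds h4)
  rw [hg]
  refine h5.congr' ?_
  filter_upwards [hsrc.prod_inr atTop] with p hp
  have e : p.2 = mkTB (tor (chartAt E y0 p.2.proj)) (sndTB p.2) := by
    rw [tor_chart (chart_mem_atlas E y0) hp]; rfl
  have h7 := tangentMap_lift (hf p.1) (hF p.1) (chartAt E y0 p.2.proj) (sndTB p.2)
  rw [← h7, ← e]
  rfl

/-! ### The Anosov property -/

/-- descending a periodic real function -/
def descR (φ : E → ℝ) (hφ : ∀ x, ∀ γ ∈ Gam, φ (x + γ) = φ x) : Tor → ℝ :=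
  Quotient.lift φ (by
    intro a b hab
    have h : b - a ∈ Gam := by
      rw [← neg_add_eq_sub]
      exact QuotientAddGroup.leftRel_apply.1 hab
    have h2 := hφ a (b - a) h
    rw [add_sub_cancel] at h2
    exact h2.symm)

lemma descR_tor (φ : E → ℝ) (hφ : ∀ x, ∀ γ ∈ Gam, φ (x + γ) = φ x) (x : E) :
    descR φ hφ (tor x) = φ x := rfl

lemma continuous_descR {φ : E → ℝ} (hφ : ∀ x, ∀ γ ∈ Gam, φ (x + γ) = φ x) (hc : Continuous φ) :
    Continuous (descR φ hφ) := by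
  rw [tor_quotientCovering.toIsQuotientMap.continuous_iff]
  exact hc

lemma exists_sigma (f : C(Tor, Tor)) (a b : C(Tor, ℝ)) (ha : ∀ y, 1.4 ≤ a y) :
    ∃ σ : C(Tor, ℝ), ∀ y, a y * σ y + b y = gc * σ (f y) := by
  let T : C(Tor, ℝ) → C(Tor, ℝ) := fun σ =>
    ⟨fun y => (gc * σ (f y) - b y) / a y, by
      refine Continuous.div (by fun_prop) a.continuous (fun y => ?_)
      have := ha y
      linarith⟩
  have hT : ContractingWith (1 / 2) T := by
    refine ⟨by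
      rw [← NNReal.coe_lt_coe]; norm_num, LipschitzWith.of_dist_le_mul fun σ τ => ?_⟩
    rw [ContinuousMap.dist_le (by positivity)]
    intro y
    have h1 := ha y
    have e : T σ y - T τ y = gc * (σ (f y) - τ (f y)) / a y := by
      change (gc * σ (f y) - b y) / a y - (gc * τ (f y) - b y) / a y = _
      ring
    rw [Real.dist_eq, e, abs_div, abs_of_pos (by linarith : 0 < a y), div_le_iff₀ (by linarith),
      abs_mul, abs_of_neg gc_neg]
    have h2 : |σ (f y) - τ (f y)| ≤ dist σ τ := by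
      rw [← Real.dist_eq]; exact ContinuousMap.dist_apply_le_dist _
    have h3 : (0 : ℝ) ≤ dist σ τ := dist_nonneg
    have e2 : ((1 / 2 : NNReal) : ℝ) = 1 / 2 := by norm_num
    rw [e2]
    calc -gc * |σ (f y) - τ (f y)| ≤ 0.6181 * dist σ τ :=
          mul_le_mul (by linarith [gc_lower]) h2 (abs_nonneg _) (by norm_num)
      _ ≤ 1 / 2 * dist σ τ * a y := by nlinarith
  refine ⟨hT.fixedPoint T, fun y => ?_⟩
  have h := hT.fixedPoint_isFixedPt
  have h2 : T (hT.fixedPoint T) y = (hT.fixedPoint T) y := by rw [h]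
  have h3 : (gc * (hT.fixedPoint T) (f y) - b y) / a y = (hT.fixedPoint T) y := h2
  have h1 := ha y
  rw [div_eq_iff (by linarith)] at h3
  linarith

end Pool.Agent.H56.Anosov
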