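import Pool.Agent.H56.Anosov.Homeo

/-!
# The conjugated maps `F = H⁻¹ ∘ L ∘ H`
-/

namespace Pool.Agent.H56.Anosov

open Set Filter Topology

variable {θ θ' : ℝ → ℝ}

/-- The conjugating homeomorphism of the plane. -/
noncomputable def Hm (P : LimProfile θ θ') : E ≃ₜ E :=
  mkH (eta θ) P.slope (eta_continuous P.toProfile)

/-- The conjugate of `L`. -/
noncomputable def Fm (P : LimProfile θ θ') : E ≃ₜ E :=
  (Hm P).trans (L.toHomeomorph.trans (Hm P).symm)

lemma Fm_apply (P : LimProfile θ θ') (x : E) : Fm P x = (Hm P).symm (L (Hm P x)) := rfl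

lemma Hm_Fm (P : LimProfile θ θ') (x : E) : Hm P (Fm P x) = L (Hm P x) := by
  rw [Fm_apply, Homeomorph.apply_symm_apply]

lemma Hm_apply (P : LimProfile θ θ') (x : E) : Hm P x = (x.1 + eta θ x, x.2) := rfl

@[simp] lemma Hm_snd (P : LimProfile θ θ') (x : E) : (Hm P x).2 = x.2 := rfl
@[simp] lemma Hm_symm_snd (P : LimProfile θ θ') (x : E) : ((Hm P).symm x).2 = x.2 := rfl

@[simp] lemma Fm_snd (P : LimProfile θ θ') (x : E) : (Fm P x).2 = gc * x.2 := by
  rw [Fm_apply]; simp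

lemma Hm_periodic (P : LimProfile θ θ') (x : E) {γ : E} (hγ : γ ∈ Gam) :
    Hm P (x + γ) = Hm P x + γ := by
  rw [Hm_apply, Hm_apply, eta_periodic x γ hγ]
  ext
  · simp; ring
  · simp

lemma Hm_symm_periodic (P : LimProfile θ θ') (x : E) {γ : E} (hγ : γ ∈ Gam) :
    (Hm P).symm (x + γ) = (Hm P).symm x + γ := by
  apply (Hm P).injective
  rw [Homeomorph.apply_symm_apply, Hm_periodic P _ hγ, Homeomorph.apply_symm_apply]

lemma Fm_periodic (P : LimProfile θ θ') (x : E) {γ : E} (hγ : γ ∈ Gam) :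
    Fm P (x + γ) = Fm P x + L γ := by
  rw [Fm_apply, Fm_apply, Hm_periodic P x hγ, map_add, Hm_symm_periodic P _ (L_mem hγ)]

lemma Hm_near (P : LimProfile θ θ') {σ y : E} (hσ : σ ∈ S) (hy : q y < 16 * bb) :
    Hm P (σ + y) = σ + (y.1 * Real.exp (θ (q y)), y.2) := by
  have e : σ + y - σ = y := by abel
  rw [Hm_apply, eta_near hσ (by rw [e]; exact hy), e]
  ext
  · simp; ring
  · simp

lemma Hm_far (P : LimProfile θ θ') {x : E} (hx : ∀ σ ∈ S, bb ≤ q (x - σ)) : Hm P x = x := by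
  rw [Hm_apply, eta_far P.toProfile hx, add_zero]

lemma Hm_S (P : LimProfile θ θ') {σ : E} (hσ : σ ∈ S) : Hm P σ = σ := by
  have := Hm_near P hσ (y := 0) (by rw [q_zero]; linarith [bb_pos])
  rw [add_zero] at this
  rw [this]
  ext <;> simp

lemma Hm_ball (P : LimProfile θ θ') {x σ : E} (hσ : σ ∈ S) (hx : q (x - σ) < bb) :
    q (Hm P x - σ) < bb := by
  have hx1 : (x.1 - σ.1) ^ 2 + (x.2 - σ.2) ^ 2 < bb := hx
  have hpos : 0 ≤ bb - (x.2 - σ.2) ^ 2 := by nlinarith [sq_nonneg (x.1 - σ.1)]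
  set ub := Real.sqrt (bb - (x.2 - σ.2) ^ 2) with hub
  have hub2 : ub ^ 2 = bb - (x.2 - σ.2) ^ 2 := Real.sq_sqrt hpos
  have hub0 : 0 ≤ ub := Real.sqrt_nonneg _
  have h1 : |x.1 - σ.1| < ub := by
    rw [← abs_of_nonneg hub0]
    apply sq_lt_sq.1
    rw [hub2]; linarith
  have key : ∀ w : ℝ, w ^ 2 = ub ^ 2 → eta θ (σ.1 + w, x.2) = 0 := by
    intro w hw
    have hq : q ((σ.1 + w, x.2) - σ) = bb := by
      simp only [q, Prod.fst_sub, Prod.snd_sub, add_sub_cancel_left]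
      rw [hw, hub2]; ring
    rw [eta_near hσ (by rw [hq]; linarith [bb_pos]), hq, P.supp bb le_rfl]
    simp
  have h2 := P.slope x.2 x.1 (σ.1 + ub) (by have := (abs_lt.1 h1).2; linarith)
  rw [key ub rfl] at h2
  have h3 := P.slope x.2 (σ.1 + -ub) x.1 (by have := (abs_lt.1 h1).1; linarith)
  rw [key (-ub) (by ring)] at h3
  have h4 : (Hm P x).1 = x.1 + eta θ (x.1, x.2) := rfl
  have h5 : |(Hm P x).1 - σ.1| < ub := by
    rw [abs_lt] at h1 ⊢
    rw [h4]
    constructor <;> linarith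
  have h6 : ((Hm P x).1 - σ.1) ^ 2 < ub ^ 2 := by
    apply sq_lt_sq.2
    rwa [abs_of_nonneg hub0]
  unfold q
  simp only [Prod.fst_sub, Prod.snd_sub, Hm_snd]
  linarith

lemma Hm_symm_cases (P : LimProfile θ θ') (z : E) :
    (∃ σ ∈ S, q (z - σ) < bb ∧ q ((Hm P).symm z - σ) < bb) ∨ (Hm P).symm z = z := by
  by_cases h : ∃ σ ∈ S, q ((Hm P).symm z - σ) < bb
  · left
    obtain ⟨σ, hσ, h⟩ := h
    refine ⟨σ, hσ, ?_, h⟩
    have := Hm_ball P hσ h
    rwa [Homeomorph.apply_symm_apply] at this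
  · right
    push Not at h
    have := Hm_far P h
    rw [Homeomorph.apply_symm_apply] at this
    exact this.symm

lemma Hm_symm_ball (P : LimProfile θ θ') {z σ : E} {r : ℝ} (hr1 : bb ≤ r) (hr2 : r ≤ 16 * bb)
    (hσ : σ ∈ S) (hz : q (z - σ) < r) : q ((Hm P).symm z - σ) < r := by
  rcases Hm_symm_cases P z with ⟨σ', hσ', h1, h2⟩ | h
  · have := near_unique hσ hσ' (by linarith) (by linarith [bb_pos])
    subst this
    linarith
  · rwa [h]

lemma Hm_ball' (P : LimProfile θ θ') {x σ : E} {r : ℝ} (hr1 : bb ≤ r) (hr2 : r ≤ 16 * bb)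
    (hσ : σ ∈ S) (hx : q (x - σ) < r) : q (Hm P x - σ) < r := by
  by_cases h : ∃ σ' ∈ S, q (x - σ') < bb
  · obtain ⟨σ', hσ', h⟩ := h
    have := near_unique hσ hσ' (by linarith) (by linarith [bb_pos])
    subst this
    linarith [Hm_ball P hσ h]
  · push Not at h
    rwa [Hm_far P h]

/-- local relation between `y` and `y' = F(σ + y) - L σ` -/
structure Rel (θ : ℝ → ℝ) (y y' : E) : Prop where
  fst : y'.1 * Real.exp (θ (q y')) = gr * (y.1 * Real.exp (θ (q y)))
  snd : y'.2 = gc * y.2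

lemma Fm_near (P : LimProfile θ θ') {σ y : E} (hσ : σ ∈ S) (hy : q y < 4 * bb) :
    q (Fm P (σ + y) - L σ) < 16 * bb ∧ Rel θ y (Fm P (σ + y) - L σ) := by
  have hb := bb_pos
  have e : σ + y - σ = y := by abel
  have h1 : q (Hm P (σ + y) - σ) < 4 * bb :=
    Hm_ball' P (by linarith) (by linarith) hσ (by rw [e]; exact hy)
  have h2 : q (L (Hm P (σ + y)) - L σ) < 10.48 * bb := by
    rw [← map_sub]
    have := q_L_le (Hm P (σ + y) - σ)
    linarith
  have h3 : q (Fm P (σ + y) - L σ) < 10.48 * bb :=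
    Hm_symm_ball P (by linarith) (by linarith) (S_L hσ) h2
  refine ⟨by linarith, ?_⟩
  have h4 := Hm_Fm P (σ + y)
  have e2 : Fm P (σ + y) = L σ + (Fm P (σ + y) - L σ) := by abel
  rw [e2, Hm_near P (S_L hσ) (by linarith), Hm_near P hσ (by linarith), map_add L] at h4
  have h5 := add_left_cancel h4
  constructor
  · have := congrArg Prod.fst h5
    simpa using this
  · have := congrArg Prod.snd h5
    simpa using this

lemma Fm_far (P : LimProfile θ θ') {x : E} (hx : ∀ σ ∈ S, 4 * bb ≤ q (x - σ)) :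
    Fm P x = L x := by
  have hb := bb_pos
  rw [Fm_apply, Hm_far P (fun σ hσ => by linarith [hx σ hσ])]
  rcases Hm_symm_cases P (L x) with ⟨σ', hσ', h1, _⟩ | h
  · exfalso
    have h2 := hx _ (S_Lsymm hσ')
    have h3 := q_L_ge (x - L.symm σ')
    rw [map_sub, ContinuousLinearEquiv.apply_symm_apply] at h3
    linarith
  · exact h

lemma Fm_S (P : LimProfile θ θ') {σ : E} (hσ : σ ∈ S) : Fm P σ = L σ := by
  rw [Fm_apply, Hm_S P hσ]
  apply (Hm P).injective
  rw [Homeomorph.apply_symm_apply, Hm_S P (S_L hσ)]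

lemma Fm_mem_S (P : LimProfile θ θ') {x : E} : Fm P x ∈ S ↔ x ∈ S := by
  constructor
  · intro h
    have h1 := Fm_S P (S_Lsymm h)
    rw [ContinuousLinearEquiv.apply_symm_apply] at h1
    have h2 := (Fm P).injective h1
    rw [← h2]
    exact S_Lsymm h
  · intro h
    rw [Fm_S P h]
    exact S_L h

/-! ### Estimates -/

lemma Rel.fst_eq {y y' : E} (h : Rel θ y y') :
    y'.1 = gr * y.1 * Real.exp (θ (q y) - θ (q y')) := by
  rw [Real.exp_sub, ← mul_div_assoc, eq_div_iff (Real.exp_pos _).ne', h.fst]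
  ring

lemma Rel.ne_zero {y y' : E} (h : Rel θ y y') (hy : y ≠ 0) : y' ≠ 0 := by
  rintro rfl
  apply hy
  have h1 := h.fst
  have h2 := h.snd
  simp only [Prod.fst_zero, Prod.snd_zero, zero_mul] at h1 h2
  ext
  · simp only [Prod.fst_zero]
    have := h1.symm
    rcases mul_eq_zero.1 this with h | h
    · exact absurd h gr_ne_zero
    · rcases mul_eq_zero.1 h with h | h
      · exact h
      · exact absurd h (Real.exp_pos _).ne'
  · simp only [Prod.snd_zero]
    rcases mul_eq_zero.1 h2.symm with h | h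
    · exact absurd h gc_ne_zero
    · exact h

lemma Rel.estimates (P : Profile θ θ') {y y' : E} (h : Rel θ y y') (hy : y ≠ 0) :
    q y ≤ 4 * q y' ∧ q y' ≤ 4 * q y ∧ |θ (q y) - θ (q y')| ≤ 2 * K (4 * q y) := by
  have hy' := h.ne_zero hy
  have ht := q_pos hy
  have ht' := q_pos hy'
  set t := q y with htd
  set t' := q y' with htd'
  set D := θ t - θ t' with hD
  have e1 : y'.1 = gr * y.1 * Real.exp D := h.fst_eq
  have e2 : y'.2 = gc * y.2 := h.snd
  have et : t' = gr ^ 2 * y.1 ^ 2 * Real.exp (2 * D) + gc ^ 2 * y.2 ^ 2 := by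
    rw [htd', q, e1, e2, two_mul, Real.exp_add]; ring
  have et0 : t = y.1 ^ 2 + y.2 ^ 2 := rfl
  have hg1 : gr ^ 2 ≤ Real.exp 1 := by
    have := Real.exp_one_gt_d9
    nlinarith [gr_sq, gr_upper]
  have hg2 : Real.exp (-1) ≤ gc ^ 2 := by
    rw [Real.exp_neg, inv_le_comm₀ (Real.exp_pos _) (by nlinarith [gc_neg])]
    have h1 : (gc ^ 2)⁻¹ = gr ^ 2 := by
      rw [← inv_pow, gc_inv, neg_sq]
    rw [h1]; exact hg1
  have hg3 : gc ^ 2 ≤ gr ^ 2 := by nlinarith [gc_sq, gr_sq, gc_neg, gr_pos]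
  have hD1 : Real.exp (2 * D) ≤ Real.exp (2 * |D|) :=
    Real.exp_le_exp.2 (by linarith [le_abs_self D])
  have hD2 : Real.exp (-(2 * |D|)) ≤ Real.exp (2 * D) :=
    Real.exp_le_exp.2 (by linarith [neg_abs_le D])
  have hD3 : 1 ≤ Real.exp (2 * |D|) := Real.one_le_exp (by positivity)
  have hD4 : Real.exp (-(2 * |D|)) ≤ 1 := Real.exp_le_one_iff.2 (by linarith [abs_nonneg D])
  have hup : t' ≤ Real.exp (1 + 2 * |D|) * t := by
    rw [Real.exp_add, et, et0]
    have a1 : gr ^ 2 * y.1 ^ 2 * Real.exp (2 * D) ≤ Real.exp 1 * y.1 ^ 2 * Real.exp (2 * |D|) := by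
      gcongr
    have a2 : gc ^ 2 * y.2 ^ 2 ≤ Real.exp 1 * y.2 ^ 2 * Real.exp (2 * |D|) := by
      calc gc ^ 2 * y.2 ^ 2 ≤ Real.exp 1 * y.2 ^ 2 * 1 := by
            rw [mul_one]; gcongr; exact hg3.trans hg1
        _ ≤ _ := by gcongr
    nlinarith
  have hlow : Real.exp (-(1 + 2 * |D|)) * t ≤ t' := by
    rw [neg_add, Real.exp_add, et, et0]
    have a1 : Real.exp (-1) * y.1 ^ 2 * Real.exp (-(2 * |D|)) ≤
        gr ^ 2 * y.1 ^ 2 * Real.exp (2 * D) := by
      gcongr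
      exact hg2.trans hg3
    have a2 : Real.exp (-1) * y.2 ^ 2 * Real.exp (-(2 * |D|)) ≤ gc ^ 2 * y.2 ^ 2 := by
      calc Real.exp (-1) * y.2 ^ 2 * Real.exp (-(2 * |D|)) ≤ gc ^ 2 * y.2 ^ 2 * 1 := by gcongr
        _ = _ := by ring
    nlinarith
  have hlog : |Real.log t - Real.log t'| ≤ 1 + 2 * |D| := by
    rw [abs_le]
    constructor
    · have := Real.log_le_log ht' hup
      rw [Real.log_mul (Real.exp_pos _).ne' ht.ne', Real.log_exp] at this
      linarith
    · have := Real.log_le_log (by positivity) hlow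
      rw [Real.log_mul (Real.exp_pos _).ne' ht.ne', Real.log_exp] at this
      linarith
  have hDb : |D| ≤ 1 / 98 := by
    have := P.lip (M := 1 / 100) ht ht' (fun τ h1 _ => (P.bound τ
      (lt_of_lt_of_le (lt_min ht ht') h1)).trans (K_le τ))
    rw [← hD] at this
    linarith
  have hlog2 : |Real.log t - Real.log t'| ≤ Real.log 4 := by
    have : Real.log 4 = 2 * Real.log 2 := by
      rw [show (4 : ℝ) = 2 ^ 2 by norm_num, Real.log_pow]; norm_num
    rw [this]
    linarith [Real.log_two_gt_d9]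
  have hA : t ≤ 4 * t' := by
    have h1 := (abs_le.1 hlog2).2
    rw [← Real.log_le_log_iff ht (by positivity), Real.log_mul (by norm_num) ht'.ne']
    linarith
  have hB : t' ≤ 4 * t := by
    have h1 := (abs_le.1 hlog2).1
    rw [← Real.log_le_log_iff ht' (by positivity), Real.log_mul (by norm_num) ht.ne']
    linarith
  refine ⟨hA, hB, ?_⟩
  have := P.lip (M := K (4 * t)) ht ht' (fun τ h1 h2 => (P.bound τ
    (lt_of_lt_of_le (lt_min ht ht') h1)).trans (K_mono (lt_of_lt_of_le (lt_min ht ht') h1)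
      (h2.trans (max_le (by linarith) hB))))
  rw [← hD] at this
  have hK := K_pos (4 * t)
  nlinarith [abs_nonneg (Real.log t - Real.log t')]

/-- Derivative of the displacement near the singular set. -/
lemma eta_hasFDerivAt (P : Profile θ θ') {σ y : E} (hσ : σ ∈ S) (hy0 : y ≠ 0)
    (hy : q y < 16 * bb) :
    HasFDerivAt (eta θ)
      ((Real.exp (θ (q y)) * (1 + 2 * (y.1 ^ 2 * θ' (q y))) - 1) • ContinuousLinearMap.fst ℝ ℝ ℝ +
        (Real.exp (θ (q y)) * (2 * (y.1 * y.2 * θ' (q y)))) • ContinuousLinearMap.snd ℝ ℝ ℝ)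
      (σ + y) := by
  have e : σ + y - σ = y := by abel
  have hloc : eta θ =ᶠ[𝓝 (σ + y)] fun x' => (x' - σ).1 * (Real.exp (θ (q (x' - σ))) - 1) := by
    have : q (σ + y - σ) < 16 * bb := by rw [e]; exact hy
    filter_upwards [eventually_near this] with x' hx'
    exact eta_near hσ hx'
  refine HasFDerivAt.congr_of_eventuallyEq ?_ hloc
  have hfst : HasFDerivAt (fun x' : E => (x' - σ).1) (ContinuousLinearMap.fst ℝ ℝ ℝ) (σ + y) :=
    hasFDerivAt_fst.sub_const σ.1
  have hsnd : HasFDerivAt (fun x' : E => (x' - σ).2) (ContinuousLinearMap.snd ℝ ℝ ℝ) (σ + y) :=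
    hasFDerivAt_snd.sub_const σ.2
  have hq : HasFDerivAt (fun x' : E => q (x' - σ))
      ((2 * y.1) • ContinuousLinearMap.fst ℝ ℝ ℝ + (2 * y.2) • ContinuousLinearMap.snd ℝ ℝ ℝ)
      (σ + y) := by
    have := (hfst.pow 2).add (hsnd.pow 2)
    refine this.congr_fderiv ?_
    rw [e]
    ext <;> simp
  have ht : 0 < q y := q_pos hy0
  have hθ : HasFDerivAt (fun x' : E => θ (q (x' - σ)))
      (θ' (q y) • ((2 * y.1) • ContinuousLinearMap.fst ℝ ℝ ℝ +
        (2 * y.2) • ContinuousLinearMap.snd ℝ ℝ ℝ)) (σ + y) := by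
    have h1 := P.deriv (q y) ht
    have h2 : HasDerivAt θ (θ' (q y)) (q (σ + y - σ)) := by rw [e]; exact h1
    exact h2.comp_hasFDerivAt (σ + y) hq
  have := hfst.mul (hθ.exp.sub_const 1)
  refine this.congr_fderiv ?_
  rw [e]
  ext
  · simp; ring
  · simp; ring

end Pool.Agent.H56.Anosov
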