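import Pool.Agent.H56.Anosov.Profile

/-!
# The conjugating homeomorphisms
-/

namespace Pool.Agent.H56.Anosov

open Set Filter Topology

variable {θ θ' : ℝ → ℝ}

/-- lower bound for the slope along horizontal lines -/
def Slope (η : E → ℝ) : Prop :=
  ∀ s u1 u2 : ℝ, u1 ≤ u2 → 0.98 * (u2 - u1) ≤ (u2 + η (u2, s)) - (u1 + η (u1, s))

lemma GoodProfile.hasDeriv_line (P : GoodProfile θ θ') (u s : ℝ) :
    ∃ d : ℝ, 0.98 ≤ d ∧ HasDerivAt (fun u => u + eta θ (u, s)) d u := by
  by_cases h : ∃ σ ∈ S, q ((u, s) - σ) < 16 * bb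
  · obtain ⟨σ, hσ, h⟩ := h
    have hcont : Continuous fun u' : ℝ => ((u', s) : E) := by fun_prop
    have hev : ∀ᶠ u' in 𝓝 u, q ((u', s) - σ) < 16 * bb :=
      hcont.continuousAt.eventually (eventually_near h)
    by_cases hne : ((u, s) : E) = σ
    · obtain ⟨δ, hδ, c, hc0, hc⟩ := P.const
      have h3 : q ((u, s) - σ) < δ := by rw [hne, sub_self, q_zero]; exact hδ
      have hev2 : ∀ᶠ u' in 𝓝 u, q ((u', s) - σ) < δ :=
        hcont.continuousAt.eventually (eventually_near h3)
      have hloc : (fun u => u + eta θ (u, s)) =ᶠ[𝓝 u] fun u' =>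
          u' + (u' - σ.1) * (Real.exp c - 1) := by
        filter_upwards [hev, hev2] with u' h1 h2
        rw [eta_near hσ h1, hc _ (q_nonneg _) h2]
        simp
      refine ⟨1 + 1 * (Real.exp c - 1), ?_, ?_⟩
      · have := Real.one_le_exp hc0
        linarith
      · refine HasDerivAt.congr_of_eventuallyEq ?_ hloc
        exact (hasDerivAt_id u).add (((hasDerivAt_id u).sub_const σ.1).mul_const _)
    · have hne' : ((u, s) : E) - σ ≠ 0 := sub_ne_zero.2 hne
      have ht := q_pos hne'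
      have hqe : ∀ u' : ℝ, q ((u', s) - σ) = (u' - σ.1) ^ 2 + (s - σ.2) ^ 2 := by
        intro u'; simp [q]
      have hloc : (fun u => u + eta θ (u, s)) =ᶠ[𝓝 u] fun u' =>
          u' + (u' - σ.1) * (Real.exp (θ ((u' - σ.1) ^ 2 + (s - σ.2) ^ 2)) - 1) := by
        filter_upwards [hev] with u' h1
        rw [eta_near hσ h1, hqe]
        simp
      rw [hqe] at ht
      set t := (u - σ.1) ^ 2 + (s - σ.2) ^ 2 with ht_def
      have hb := P.bound t ht
      have hb2 : |(u - σ.1) ^ 2 * θ' t| ≤ 1 / 100 := by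
        refine le_trans ?_ (hb.trans (K_le t))
        rw [abs_mul, abs_mul]
        apply mul_le_mul_of_nonneg_right _ (abs_nonneg _)
        rw [abs_of_nonneg (sq_nonneg _), abs_of_nonneg ht.le, ht_def]
        nlinarith [sq_nonneg (s - σ.2)]
      have hd1 : HasDerivAt (fun u' : ℝ => (u' - σ.1) ^ 2 + (s - σ.2) ^ 2) (2 * (u - σ.1)) u := by
        have := (((hasDerivAt_id u).sub_const σ.1).pow 2).add_const ((s - σ.2) ^ 2)
        simpa using this
      have hd2 := ((P.deriv t ht).comp u hd1).exp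
      have hd3 := (((hasDerivAt_id u).sub_const σ.1).mul (hd2.sub_const 1))
      have hd4 := (hasDerivAt_id u).add hd3
      refine ⟨_, ?_, HasDerivAt.congr_of_eventuallyEq hd4 hloc⟩
      simp only [Function.comp_apply, ← ht_def, one_mul, id]
      have he : 1 ≤ Real.exp (θ t) := Real.one_le_exp (P.nonneg t ht)
      have e : 1 + (Real.exp (θ t) - 1 + (u - σ.1) * (Real.exp (θ t) * (θ' t * (2 * (u - σ.1))))) =
          Real.exp (θ t) * (1 + 2 * ((u - σ.1) ^ 2 * θ' t)) := by ring
      rw [e]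
      have h5 := abs_le.1 hb2
      nlinarith
  · push Not at h
    have hcont : Continuous fun u' : ℝ => ((u', s) : E) := by fun_prop
    have hloc : (fun u => u + eta θ (u, s)) =ᶠ[𝓝 u] fun u' => u' := by
      have := hcont.continuousAt.eventually
        (eventually_far (r' := bb) (by linarith [bb_pos]) h)
      filter_upwards [this] with u' hx'
      rw [eta_far P.toProfile hx', add_zero]
    exact ⟨1, by norm_num, (hasDerivAt_id u).congr_of_eventuallyEq hloc⟩

lemma GoodProfile.slope (P : GoodProfile θ θ') : Slope (eta θ) := by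
  intro s u1 u2 h
  choose d hd hd' using fun u => P.hasDeriv_line u s
  have := mul_sub_le_image_sub_of_le_deriv (f := fun u => u + eta θ (u, s))
    (fun u => (hd' u).differentiableAt) (C := 0.98) (fun u => by rw [(hd' u).deriv]; exact hd u) h
  exact this

/-- A profile that is a pointwise eventual limit of good profiles. -/
structure LimProfile (θ θ' : ℝ → ℝ) : Prop extends Profile θ θ' where
  approx : ∀ δ > 0, ∃ ϑ ϑ' : ℝ → ℝ, GoodProfile ϑ ϑ' ∧ ∀ t, δ ≤ t → ϑ t = θ t

lemma GoodProfile.toLimProfile (P : GoodProfile θ θ') : LimProfile θ θ' :=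
  ⟨P.toProfile, fun _ _ => ⟨θ, θ', P, fun _ _ => rfl⟩⟩

lemma eta_eq_of_profile_eq {ϑ ϑ' : ℝ → ℝ} (P : Profile θ θ') (P' : Profile ϑ ϑ') {δ : ℝ}
    (h : ∀ t, δ ≤ t → ϑ t = θ t) {x : E} (hx : ∀ σ ∈ S, x ≠ σ → δ ≤ q (x - σ)) :
    eta ϑ x = eta θ x := by
  by_cases hn : ∃ σ ∈ S, q (x - σ) < 16 * bb
  · obtain ⟨σ, hσ, hn⟩ := hn
    rw [eta_near hσ hn, eta_near hσ hn]
    by_cases hxs : x = σ
    · simp [hxs]
    · rw [h _ (hx σ hσ hxs)]
  · push Not at hn
    have h1 : ∀ σ ∈ S, bb ≤ q (x - σ) := fun σ hσ => by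
      have := hn σ hσ
      linarith [bb_pos]
    rw [eta_far P h1, eta_far P' h1]

lemma dist_S (x : E) : ∃ δ > 0, ∀ σ ∈ S, x ≠ σ → δ ≤ q (x - σ) := by
  by_cases hn : ∃ σ ∈ S, q (x - σ) < 16 * bb ∧ x ≠ σ
  · obtain ⟨σ, hσ, hn, hne⟩ := hn
    have hpos := q_pos (sub_ne_zero.2 hne)
    refine ⟨min (q (x - σ)) (16 * bb), lt_min hpos (by linarith [bb_pos]), ?_⟩
    intro σ' hσ' _
    by_contra hcon
    push Not at hcon
    have h1 := lt_of_lt_of_le hcon (min_le_right _ _)
    have h2 := lt_of_lt_of_le hcon (min_le_left _ _)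
    have := near_unique hσ hσ' hn h1
    subst this
    exact lt_irrefl _ h2
  · refine ⟨16 * bb, by linarith [bb_pos], ?_⟩
    intro σ hσ hne
    by_contra hcon
    push Not at hcon
    exact hn ⟨σ, hσ, hcon, hne⟩

lemma LimProfile.slope (P : LimProfile θ θ') : Slope (eta θ) := by
  intro s u1 u2 h
  obtain ⟨δ1, hδ1, h1⟩ := dist_S (u1, s)
  obtain ⟨δ2, hδ2, h2⟩ := dist_S (u2, s)
  obtain ⟨ϑ, ϑ', G, hG⟩ := P.approx (min δ1 δ2) (lt_min hδ1 hδ2)
  have e1 := eta_eq_of_profile_eq P.toProfile G.toProfile hG (x := (u1, s))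
    (fun σ hσ hne => (min_le_left _ _).trans (h1 σ hσ hne))
  have e2 := eta_eq_of_profile_eq P.toProfile G.toProfile hG (x := (u2, s))
    (fun σ hσ hne => (min_le_right _ _).trans (h2 σ hσ hne))
  have := G.slope s u1 u2 h
  rwa [e1, e2] at this

/-! ### From a displacement function to a homeomorphism -/

lemma Slope.injective {η : E → ℝ} (h : Slope η) {s u1 u2 : ℝ}
    (he : u1 + η (u1, s) = u2 + η (u2, s)) : u1 = u2 := by
  rcases le_total u1 u2 with h1 | h1
  · have := h s u1 u2 h1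
    linarith
  · have := h s u2 u1 h1
    linarith

lemma Slope.surjective {η : E → ℝ} (h : Slope η) (hc : Continuous η) (s v : ℝ) :
    ∃ u, u + η (u, s) = v := by
  have hcont : Continuous fun u : ℝ => u + η (u, s) := by fun_prop
  have h1 : Tendsto (fun u : ℝ => u + η (u, s)) atTop atTop := by
    have hlin : Tendsto (fun u : ℝ => 0.98 * u + (0 + η (0, s))) atTop atTop :=
      tendsto_atTop_add_const_right _ _ (tendsto_id.const_mul_atTop (by norm_num))
    refine tendsto_atTop_mono' _ ?_ hlin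
    filter_upwards [eventually_ge_atTop 0] with u hu
    have := h s 0 u hu
    linarith
  have h2 : Tendsto (fun u : ℝ => u + η (u, s)) atBot atBot := by
    have hlin : Tendsto (fun u : ℝ => 0.98 * u + (0 + η (0, s))) atBot atBot :=
      tendsto_atBot_add_const_right _ _ (tendsto_id.const_mul_atBot (by norm_num))
    refine tendsto_atBot_mono' _ ?_ hlin
    filter_upwards [eventually_le_atBot 0] with u hu
    have := h s u 0 hu
    linarith
  exact hcont.surjective h1 h2 v

/-- The homeomorphism `(u, s) ↦ (u + η (u, s), s)`. -/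
noncomputable def mkH (η : E → ℝ) (hs : Slope η) (hc : Continuous η) : E ≃ₜ E where
  toFun x := (x.1 + η x, x.2)
  invFun z := ((hs.surjective hc z.2 z.1).choose, z.2)
  left_inv x := by
    have h := (hs.surjective hc x.2 (x.1 + η x)).choose_spec
    ext
    · exact hs.injective (s := x.2) h
    · rfl
  right_inv z := by
    have h := (hs.surjective hc z.2 z.1).choose_spec
    ext
    · exact h
    · rfl
  continuous_toFun := by fun_prop
  continuous_invFun := by
    rw [continuous_iff_continuousAt]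
    intro z
    set g : E → E := fun z => ((hs.surjective hc z.2 z.1).choose, z.2) with hg
    have hspec : ∀ z, (g z).1 + η ((g z).1, z.2) = z.1 := fun z =>
      (hs.surjective hc z.2 z.1).choose_spec
    change ContinuousAt g z
    refine ContinuousAt.prodMk ?_ continuousAt_snd
    have key : ∀ z', |(g z').1 - (g z).1| ≤
        (1 / 0.98) * (|η ((g z).1, z'.2) - η ((g z).1, z.2)| + |z'.1 - z.1|) := by
      intro z'
      have h1 : 0.98 * |(g z').1 - (g z).1| ≤
          |((g z').1 + η ((g z').1, z'.2)) - ((g z).1 + η ((g z).1, z'.2))| := by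
        rcases le_total (g z).1 (g z').1 with h | h
        · have := hs z'.2 _ _ h
          rw [abs_of_nonneg (by linarith)]
          exact this.trans (le_abs_self _)
        · have := hs z'.2 _ _ h
          rw [abs_of_nonpos (by linarith), abs_sub_comm]
          refine le_trans ?_ (this.trans (le_abs_self _))
          linarith
      have h2 : ((g z').1 + η ((g z').1, z'.2)) - ((g z).1 + η ((g z).1, z'.2)) =
          (z'.1 - z.1) - (η ((g z).1, z'.2) - η ((g z).1, z.2)) := by
        rw [hspec z']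
        have := hspec z
        linarith
      rw [h2] at h1
      have h3 := abs_sub (z'.1 - z.1) (η ((g z).1, z'.2) - η ((g z).1, z.2))
      rw [one_div, ← div_eq_inv_mul, le_div_iff₀ (by norm_num)]
      linarith
    rw [ContinuousAt, tendsto_iff_norm_sub_tendsto_zero]
    have hlim : Tendsto (fun z' : E =>
        (1 / 0.98) * (|η ((g z).1, z'.2) - η ((g z).1, z.2)| + |z'.1 - z.1|)) (𝓝 z) (𝓝 0) := by
      have hc2 : Continuous fun z' : E =>
        ((1 / 0.98 : ℝ)) * (|η ((g z).1, z'.2) - η ((g z).1, z.2)| + |z'.1 - z.1|) := by fun_prop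
      have := hc2.tendsto z
      simpa using this
    exact squeeze_zero (fun _ => norm_nonneg _) (fun z' => key z') hlim

lemma mkH_apply {η : E → ℝ} (hs : Slope η) (hc : Continuous η) (x : E) :
    mkH η hs hc x = (x.1 + η x, x.2) := rfl

@[simp] lemma mkH_snd {η : E → ℝ} (hs : Slope η) (hc : Continuous η) (x : E) :
    (mkH η hs hc x).2 = x.2 := rfl

@[simp] lemma mkH_symm_snd {η : E → ℝ} (hs : Slope η) (hc : Continuous η) (x : E) :
    ((mkH η hs hc).symm x).2 = x.2 := rfl

/-- The triangular linear equivalence `(v, w) ↦ (a v + b w, d w)`. -/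
noncomputable def tri (a b d : ℝ) (ha : a ≠ 0) (hd : d ≠ 0) : E ≃L[ℝ] E :=
  ContinuousLinearEquiv.equivOfInverse
    ((a • ContinuousLinearMap.fst ℝ ℝ ℝ + b • ContinuousLinearMap.snd ℝ ℝ ℝ).prod
      (d • ContinuousLinearMap.snd ℝ ℝ ℝ))
    ((a⁻¹ • ContinuousLinearMap.fst ℝ ℝ ℝ - (a⁻¹ * b * d⁻¹) • ContinuousLinearMap.snd ℝ ℝ ℝ).prod
      (d⁻¹ • ContinuousLinearMap.snd ℝ ℝ ℝ))
    (by
      intro x
      ext
      · simp; field_simp; ring
      · simp; field_simp)
    (by
      intro x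
      ext
      · simp; field_simp; ring
      · simp; field_simp)

@[simp] lemma tri_apply (a b d : ℝ) (ha : a ≠ 0) (hd : d ≠ 0) (v : E) :
    tri a b d ha hd v = (a * v.1 + b * v.2, d * v.2) := by
  simp [tri]

@[simp] lemma tri_symm_apply (a b d : ℝ) (ha : a ≠ 0) (hd : d ≠ 0) (v : E) :
    (tri a b d ha hd).symm v = (a⁻¹ * v.1 - a⁻¹ * b * d⁻¹ * v.2, d⁻¹ * v.2) := by
  simp [tri]

lemma Slope.deriv_ge {η : E → ℝ} (h : Slope η) {x : E} (hd : DifferentiableAt ℝ η x) :
    0.98 ≤ 1 + fderiv ℝ η x (1, 0) := by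
  have h1 : HasDerivAt (fun u : ℝ => u + η (u, x.2)) (1 + fderiv ℝ η x (1, 0)) x.1 := by
    have h2 : HasDerivAt (fun u : ℝ => ((u, x.2) : E)) (1, 0) x.1 :=
      (hasDerivAt_id x.1).prodMk (hasDerivAt_const x.1 x.2)
    have h3 : HasFDerivAt η (fderiv ℝ η x) ((x.1, x.2) : E) := hd.hasFDerivAt
    exact (hasDerivAt_id x.1).add (h3.comp_hasDerivAt x.1 h2)
  have h4 := h1.hasDerivWithinAt (s := Set.Ioi x.1)
  rw [hasDerivWithinAt_iff_tendsto_slope' (by simp)] at h4
  refine ge_of_tendsto h4 ?_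
  filter_upwards [self_mem_nhdsWithin] with u hu
  have hu' : x.1 < u := hu
  rw [slope_def_field, le_div_iff₀ (by linarith)]
  exact h x.2 x.1 u hu'.le

lemma mkH_hasFDerivAt {η : E → ℝ} (hs : Slope η) (hc : Continuous η) {x : E}
    (hd : DifferentiableAt ℝ η x) :
    HasFDerivAt (mkH η hs hc) (tri (1 + fderiv ℝ η x (1, 0)) (fderiv ℝ η x (0, 1)) 1
      (by have := hs.deriv_ge hd; linarith) one_ne_zero : E →L[ℝ] E) x := by
  have h1 : HasFDerivAt (fun x : E => ((x.1 + η x, x.2) : E))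
      ((ContinuousLinearMap.fst ℝ ℝ ℝ + fderiv ℝ η x).prod (ContinuousLinearMap.snd ℝ ℝ ℝ)) x :=
    (hasFDerivAt_fst.add hd.hasFDerivAt).prodMk hasFDerivAt_snd
  refine h1.congr_fderiv ?_
  ext v <;> simp

lemma mkH_contDiff {η : E → ℝ} (hs : Slope η) (hc : ContDiff ℝ 1 η) :
    ContDiff ℝ 1 (mkH η hs hc.continuous) := by
  have : ContDiff ℝ 1 (fun x : E => ((x.1 + η x, x.2) : E)) := by fun_prop
  exact this

lemma mkH_symm_contDiff {η : E → ℝ} (hs : Slope η) (hc : ContDiff ℝ 1 η) :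
    ContDiff ℝ 1 (mkH η hs hc.continuous).symm :=
  Homeomorph.contDiff_symm _ (fun x => mkH_hasFDerivAt hs hc.continuous
    (hc.differentiable (by norm_num) x)) (mkH_contDiff hs hc)

end Pool.Agent.H56.Anosov
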