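import Mathlib

/-!
# The golden lattice and the singular set

`Γ ⊂ ℝ × ℝ` is the Minkowski lattice of `ℤ[φ]`, the hyperbolic map is `L (u, s) = (φ u, ψ s)`.
-/

namespace Pool.Agent.H56.Anosov

open Set

/-- golden ratio -/
noncomputable def gr : ℝ := (1 + Real.sqrt 5) / 2

/-- conjugate -/
noncomputable def gc : ℝ := 1 - gr

lemma gr_sq : gr * gr = gr + 1 := by
  have h : Real.sqrt 5 * Real.sqrt 5 = 5 := Real.mul_self_sqrt (by norm_num)
  unfold gr
  nlinarith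

lemma gr_lower : 1.618 < gr := by
  have h : (2.236 : ℝ) < Real.sqrt 5 := by
    rw [show (2.236 : ℝ) = Real.sqrt (2.236 ^ 2) by rw [Real.sqrt_sq (by norm_num)]]
    exact Real.sqrt_lt_sqrt (by norm_num) (by norm_num)
  unfold gr
  linarith

lemma gr_upper : gr < 1.6181 := by
  have h : Real.sqrt 5 < (2.2361 : ℝ) := by
    rw [show (2.2361 : ℝ) = Real.sqrt (2.2361 ^ 2) by rw [Real.sqrt_sq (by norm_num)]]
    exact Real.sqrt_lt_sqrt (by norm_num) (by norm_num)
  unfold gr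
  linarith

lemma gr_pos : 0 < gr := by linarith [gr_lower]

lemma gc_def : gc = 1 - gr := rfl

lemma gr_mul_gc : gr * gc = -1 := by
  unfold gc; linarith [gr_sq]

lemma gc_mul_gr : gc * gr = -1 := by
  rw [mul_comm]; exact gr_mul_gc

lemma gc_sq : gc * gc = gc + 1 := by
  unfold gc; nlinarith [gr_sq]

lemma gc_neg : gc < 0 := by unfold gc; linarith [gr_lower]

lemma gc_lower : -0.6181 < gc := by unfold gc; linarith [gr_upper]

lemma gc_upper : gc < -0.618 := by unfold gc; linarith [gr_lower]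

lemma gc_ne_zero : gc ≠ 0 := gc_neg.ne

lemma gr_ne_zero : gr ≠ 0 := gr_pos.ne'

lemma gr_inv : gr⁻¹ = -gc := by
  apply inv_eq_of_mul_eq_one_right
  linarith [gr_mul_gc]

lemma gc_inv : gc⁻¹ = -gr := by
  apply inv_eq_of_mul_eq_one_right
  linarith [gc_mul_gr]

lemma gr_irrational : Irrational gr := Real.goldenRatio_irrational

lemma gc_irrational : Irrational gc := by
  have := gr_irrational.intCast_sub 1
  simpa [gc] using this

/-- The plane, in coordinates `(u, s)` (unstable, stable). -/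
abbrev E : Type := ℝ × ℝ

/-- Minkowski embedding of `m + n φ`. -/
noncomputable def gam (m n : ℤ) : E := (m + n * gr, m + n * gc)

@[simp] lemma gam_fst (m n : ℤ) : (gam m n).1 = m + n * gr := rfl
@[simp] lemma gam_snd (m n : ℤ) : (gam m n).2 = m + n * gc := rfl

lemma gam_add (m n m' n' : ℤ) : gam m n + gam m' n' = gam (m + m') (n + n') := by
  ext <;> simp <;> ring

lemma gam_neg (m n : ℤ) : - gam m n = gam (-m) (-n) := by
  ext <;> simp <;> ring

lemma gam_zero : gam 0 0 = 0 := by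
  ext <;> simp

lemma gam_sub (m n m' n' : ℤ) : gam m n - gam m' n' = gam (m - m') (n - n') := by
  ext <;> simp <;> ring

/-- The lattice. -/
def Gam : AddSubgroup E where
  carrier := {x | ∃ m n : ℤ, x = gam m n}
  add_mem' := by
    rintro _ _ ⟨m, n, rfl⟩ ⟨m', n', rfl⟩
    exact ⟨_, _, gam_add _ _ _ _⟩
  zero_mem' := ⟨0, 0, gam_zero.symm⟩
  neg_mem' := by
    rintro _ ⟨m, n, rfl⟩
    exact ⟨_, _, gam_neg _ _⟩

lemma mem_Gam {x : E} : x ∈ Gam ↔ ∃ m n : ℤ, x = gam m n := Iff.rfl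

lemma gam_mem (m n : ℤ) : gam m n ∈ Gam := ⟨m, n, rfl⟩

lemma gam_norm (m n : ℤ) : (gam m n).1 * (gam m n).2 = ((m ^ 2 + m * n - n ^ 2 : ℤ) : ℝ) := by
  simp only [gam_fst, gam_snd]
  push_cast
  have h1 := gr_mul_gc
  have h2 : gr + gc = 1 := by unfold gc; ring
  have : ((m : ℝ) + n * gr) * (m + n * gc) = m ^ 2 + m * n * (gr + gc) + n ^ 2 * (gr * gc) := by
    ring
  rw [this, h1, h2]; ring

lemma irr_comb {a : ℝ} (ha : Irrational a) {m n : ℤ} (h : (m : ℝ) + n * a = 0) :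
    m = 0 ∧ n = 0 := by
  by_cases hn : n = 0
  · subst hn
    simp at h
    exact ⟨h, rfl⟩
  · exfalso
    have hn' : (n : ℝ) ≠ 0 := by exact_mod_cast hn
    apply ha
    refine ⟨-(m : ℚ) / n, ?_⟩
    push_cast
    field_simp
    linarith

lemma norm_int_ne_zero {m n : ℤ} (h : ¬ (m = 0 ∧ n = 0)) : m ^ 2 + m * n - n ^ 2 ≠ 0 := by
  intro h0
  have := gam_norm m n
  rw [h0, Int.cast_zero, mul_eq_zero] at this
  rcases this with h1 | h1
  · exact h (irr_comb gr_irrational h1)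
  · exact h (irr_comb gc_irrational h1)

/-- squared Euclidean norm -/
def q (x : E) : ℝ := x.1 ^ 2 + x.2 ^ 2

lemma q_nonneg (x : E) : 0 ≤ q x := by unfold q; positivity

lemma q_zero : q 0 = 0 := by simp [q]

lemma q_eq_zero {x : E} : q x = 0 ↔ x = 0 := by
  constructor
  · intro h
    unfold q at h
    have h1 : x.1 = 0 := by nlinarith [sq_nonneg x.1, sq_nonneg x.2]
    have h2 : x.2 = 0 := by nlinarith [sq_nonneg x.1, sq_nonneg x.2]
    ext <;> simp [h1, h2]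
  · rintro rfl; exact q_zero

lemma q_pos {x : E} (h : x ≠ 0) : 0 < q x :=
  lt_of_le_of_ne (q_nonneg x) (fun h' => h (q_eq_zero.1 h'.symm))

lemma q_neg (x : E) : q (-x) = q x := by simp [q]

lemma q_sub_comm (x y : E) : q (x - y) = q (y - x) := by
  rw [← neg_sub, q_neg]

lemma q_add_le (x y : E) : q (x + y) ≤ 2 * q x + 2 * q y := by
  unfold q
  simp only [Prod.fst_add, Prod.snd_add]
  nlinarith [sq_nonneg (x.1 - y.1), sq_nonneg (x.2 - y.2)]

lemma q_gam_ge {m n : ℤ} (h : ¬ (m = 0 ∧ n = 0)) : 2 ≤ q (gam m n) := by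
  have h1 := norm_int_ne_zero h
  have h2 : (1 : ℝ) ≤ |((m ^ 2 + m * n - n ^ 2 : ℤ) : ℝ)| := by
    rw [← Int.cast_abs]
    exact_mod_cast Int.one_le_abs h1
  rw [← gam_norm] at h2
  unfold q
  rcases abs_cases ((gam m n).1 * (gam m n).2) with ⟨h3, _⟩ | ⟨h3, _⟩
  · nlinarith [sq_nonneg ((gam m n).1 - (gam m n).2)]
  · nlinarith [sq_nonneg ((gam m n).1 + (gam m n).2)]

/-- The linear hyperbolic map. -/
noncomputable def L : E ≃L[ℝ] E :=
  ContinuousLinearEquiv.equivOfInverse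
    ((gr • ContinuousLinearMap.fst ℝ ℝ ℝ).prod (gc • ContinuousLinearMap.snd ℝ ℝ ℝ))
    (((-gc) • ContinuousLinearMap.fst ℝ ℝ ℝ).prod ((-gr) • ContinuousLinearMap.snd ℝ ℝ ℝ))
    (by
      intro x
      ext
      · simp; linear_combination (-x.1) * gr_mul_gc
      · simp; linear_combination (-x.2) * gr_mul_gc)
    (by
      intro x
      ext
      · simp; linear_combination (-x.1) * gr_mul_gc
      · simp; linear_combination (-x.2) * gr_mul_gc)

@[simp] lemma L_fst (x : E) : (L x).1 = gr * x.1 := by simp [L]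
@[simp] lemma L_snd (x : E) : (L x).2 = gc * x.2 := by simp [L]
@[simp] lemma Lsymm_fst (x : E) : (L.symm x).1 = -gc * x.1 := by simp [L]
@[simp] lemma Lsymm_snd (x : E) : (L.symm x).2 = -gr * x.2 := by simp [L]

lemma L_gam (m n : ℤ) : L (gam m n) = gam n (m + n) := by
  ext
  · simp; linear_combination (n : ℝ) * gr_sq
  · simp; linear_combination (n : ℝ) * gc_sq

lemma Lsymm_gam (m n : ℤ) : L.symm (gam m n) = gam (n - m) m := by
  rw [ContinuousLinearEquiv.symm_apply_eq, L_gam]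
  congr 1
  ring

lemma L_mem {x : E} (hx : x ∈ Gam) : L x ∈ Gam := by
  obtain ⟨m, n, rfl⟩ := hx
  rw [L_gam]; exact gam_mem _ _

lemma Lsymm_mem {x : E} (hx : x ∈ Gam) : L.symm x ∈ Gam := by
  obtain ⟨m, n, rfl⟩ := hx
  rw [Lsymm_gam]; exact gam_mem _ _

lemma L_mem_iff {x : E} : L x ∈ Gam ↔ x ∈ Gam := by
  refine ⟨fun h => ?_, L_mem⟩
  have := Lsymm_mem h
  simpa using this

lemma q_L_le (x : E) : q (L x) ≤ 2.62 * q x := by
  unfold q
  simp only [L_fst, L_snd, mul_pow]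
  have h1 : gr ^ 2 ≤ 2.62 := by nlinarith [gr_sq, gr_upper]
  have h2 : gc ^ 2 ≤ 2.62 := by nlinarith [gc_sq, gc_upper]
  nlinarith [sq_nonneg x.1, sq_nonneg x.2]

lemma q_L_ge (x : E) : 0.38 * q x ≤ q (L x) := by
  unfold q
  simp only [L_fst, L_snd, mul_pow]
  have h1 : 0.38 ≤ gr ^ 2 := by nlinarith [gr_sq, gr_lower]
  have h2 : 0.38 ≤ gc ^ 2 := by nlinarith [gc_sq, gc_lower]
  nlinarith [sq_nonneg x.1, sq_nonneg x.2]

/-! ### The singular set -/

/-- residue condition -/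
def goodPair (m n : ℤ) : Prop :=
  m % 11 = 3 * n % 11 ∧
    (n % 11 = 1 ∨ n % 11 = 3 ∨ n % 11 = 4 ∨ n % 11 = 5 ∨ n % 11 = 9)

/-- `1/11` of a lattice vector -/
noncomputable def frac (m n : ℤ) : E := (1 / 11 : ℝ) • gam m n

@[simp] lemma frac_fst (m n : ℤ) : (frac m n).1 = (m + n * gr) / 11 := by
  simp [frac]; ring
@[simp] lemma frac_snd (m n : ℤ) : (frac m n).2 = (m + n * gc) / 11 := by
  simp [frac]; ring

lemma frac_inj {m n m' n' : ℤ} (h : frac m n = frac m' n') : m = m' ∧ n = n' := by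
  have h1 : (frac m n).1 = (frac m' n').1 := by rw [h]
  simp only [frac_fst] at h1
  have h2 : ((m - m' : ℤ) : ℝ) + ((n - n' : ℤ) : ℝ) * gr = 0 := by
    push_cast; linarith
  have := irr_comb gr_irrational h2
  omega

/-- The singular set: five points of order `11` modulo the lattice, forming one orbit of `L`. -/
def S : Set E := {x | ∃ m n : ℤ, goodPair m n ∧ x = frac m n}

lemma S_add {x y : E} (hx : x ∈ S) (hy : y ∈ Gam) : x + y ∈ S := by
  obtain ⟨m, n, ⟨h1, h2⟩, rfl⟩ := hx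
  obtain ⟨a, b, rfl⟩ := hy
  refine ⟨m + 11 * a, n + 11 * b, ⟨by omega, by omega⟩, ?_⟩
  ext <;> simp <;> ring

lemma S_L {x : E} (hx : x ∈ S) : L x ∈ S := by
  obtain ⟨m, n, ⟨h1, h2⟩, rfl⟩ := hx
  refine ⟨n, m + n, ⟨by omega, by omega⟩, ?_⟩
  rw [frac, frac, map_smul, L_gam]

lemma S_Lsymm {x : E} (hx : x ∈ S) : L.symm x ∈ S := by
  obtain ⟨m, n, ⟨h1, h2⟩, rfl⟩ := hx
  refine ⟨n - m, m, ⟨by omega, by omega⟩, ?_⟩
  rw [frac, frac, map_smul, Lsymm_gam]

lemma S_L_iff {x : E} : L x ∈ S ↔ x ∈ S := by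
  refine ⟨fun h => ?_, S_L⟩
  have := S_Lsymm h
  simpa using this

lemma S_neg {x : E} (hx : x ∈ S) : -x ∉ S := by
  obtain ⟨m, n, ⟨h1, h2⟩, rfl⟩ := hx
  rintro ⟨m', n', ⟨h1', h2'⟩, h⟩
  have : -frac m n = frac (-m) (-n) := by
    rw [frac, frac, ← smul_neg, gam_neg]
  rw [this] at h
  obtain ⟨h3, h4⟩ := frac_inj h
  omega

lemma frac_sep {m n m' n' : ℤ} (h : frac m n ≠ frac m' n') : 2 / 121 ≤ q (frac m n - frac m' n') := by
  have e : frac m n - frac m' n' = (1 / 11 : ℝ) • gam (m - m') (n - n') := by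
    rw [frac, frac, ← smul_sub, gam_sub]
  have hne : ¬ (m - m' = 0 ∧ n - n' = 0) := by
    rintro ⟨h1, h2⟩
    apply h
    have e1 : m = m' := by omega
    have e2 : n = n' := by omega
    rw [e1, e2]
  have h1 := q_gam_ge hne
  rw [e]
  have h2 : q ((1 / 11 : ℝ) • gam (m - m') (n - n')) = 1 / 121 * q (gam (m - m') (n - n')) := by
    unfold q
    simp only [Prod.smul_fst, Prod.smul_snd, smul_eq_mul]
    ring
  rw [h2]; linarith

lemma S_sep {x y : E} (hx : x ∈ S) (hy : y ∈ S) (h : x ≠ y) : 2 / 121 ≤ q (x - y) := by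
  obtain ⟨m, n, _, rfl⟩ := hx
  obtain ⟨m', n', _, rfl⟩ := hy
  exact frac_sep h

lemma S_nonempty : S.Nonempty := ⟨frac 3 1, 3, 1, ⟨by norm_num, by norm_num⟩, rfl⟩

end Pool.Agent.H56.Anosov
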