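import Pool.Agent.H56.Anosov.Conv

/-!
# The truncated maps have a nontrivial centralizer
-/

open scoped Manifold ContDiff Topology
open Set Filter Pool.Agent.H56.AnosovDefs

namespace Pool.Agent.H56.Anosov

variable {θ θ' : ℝ → ℝ}

lemma Gam_fst_zero {x : E} (hx : x ∈ Gam) (h : x.1 = 0) : x = 0 := by
  obtain ⟨m, n, rfl⟩ := hx
  obtain ⟨rfl, rfl⟩ := irr_comb gr_irrational h
  exact gam_zero

lemma Gam_snd_zero {x : E} (hx : x ∈ Gam) (h : x.2 = 0) : x = 0 := by
  obtain ⟨m, n, rfl⟩ := hx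
  obtain ⟨rfl, rfl⟩ := irr_comb gc_irrational h
  exact gam_zero

/-- the linear map `L^n`, `n ∈ ℤ` -/
noncomputable def Lz (n : ℤ) (z : E) : E := (gr ^ n * z.1, gc ^ n * z.2)

@[simp] lemma Lz_fst (n : ℤ) (z : E) : (Lz n z).1 = gr ^ n * z.1 := rfl
@[simp] lemma Lz_snd (n : ℤ) (z : E) : (Lz n z).2 = gc ^ n * z.2 := rfl

lemma Lz_zero (z : E) : Lz 0 z = z := by ext <;> simp

lemma Lz_add_one (n : ℤ) (z : E) : Lz (n + 1) z = L (Lz n z) := by
  ext
  · simp [zpow_add_one₀ gr_ne_zero]; ring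
  · simp [zpow_add_one₀ gc_ne_zero]; ring

lemma Lz_sub_one (n : ℤ) (z : E) : Lz (n - 1) z = L.symm (Lz n z) := by
  ext
  · simp [zpow_sub_one₀ gr_ne_zero, gr_inv]; ring
  · simp [zpow_sub_one₀ gc_ne_zero, gc_inv]; ring

lemma Lz_mem (n : ℤ) {z : E} (hz : z ∈ Gam) : Lz n z ∈ Gam := by
  induction n using Int.induction_on with
  | zero => rwa [Lz_zero]
  | succ i ih => rw [Lz_add_one]; exact L_mem ih
  | pred i ih => rw [Lz_sub_one]; exact Lsymm_mem ih

lemma Lz_S (n : ℤ) {z : E} (hz : z ∈ S) : Lz n z ∈ S := by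
  induction n using Int.induction_on with
  | zero => rwa [Lz_zero]
  | succ i ih => rw [Lz_add_one]; exact S_L ih
  | pred i ih => rw [Lz_sub_one]; exact S_Lsymm ih

/-- iterates of `F` -/
noncomputable def Fz (P : LimProfile θ θ') (n : ℤ) (x : E) : E := (Hm P).symm (Lz n (Hm P x))

lemma Hm_Fz (P : LimProfile θ θ') (n : ℤ) (x : E) : Hm P (Fz P n x) = Lz n (Hm P x) := by
  unfold Fz
  rw [Homeomorph.apply_symm_apply]

lemma Fz_zero (P : LimProfile θ θ') (x : E) : Fz P 0 x = x := by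
  unfold Fz
  rw [Lz_zero, Homeomorph.symm_apply_apply]

lemma Fz_add_one (P : LimProfile θ θ') (n : ℤ) (x : E) : Fz P (n + 1) x = Fm P (Fz P n x) := by
  apply (Hm P).injective
  rw [Hm_Fz, Hm_Fm, Hm_Fz, Lz_add_one]

lemma Fz_sub_one (P : LimProfile θ θ') (n : ℤ) (x : E) :
    Fz P (n - 1) x = (Fm P).symm (Fz P n x) := by
  apply (Fm P).injective
  rw [Homeomorph.apply_symm_apply, ← Fz_add_one, sub_add_cancel]

lemma fT_zpow (P : LimProfile θ θ') (n : ℤ) (x : E) :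
    (((fT P).toEquiv : Equiv.Perm Tor) ^ n) (tor x) = tor (Fz P n x) := by
  induction n using Int.induction_on with
  | zero => rw [Fz_zero]; rfl
  | succ i ih =>
    rw [Fz_add_one, ← mul_self_zpow, Equiv.Perm.mul_apply, ih]
    rfl
  | pred i ih =>
    rw [Fz_sub_one, show (-(i : ℤ) - 1) = -1 + -(i : ℤ) by ring, zpow_add, zpow_neg_one,
      Equiv.Perm.mul_apply, ih]
    rfl

/-- the symmetry `H⁻¹ ∘ (-1) ∘ H` -/
noncomputable def Rm (P : LimProfile θ θ') : E ≃ₜ E :=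
  (Hm P).trans ((Homeomorph.neg E).trans (Hm P).symm)

lemma Rm_apply (P : LimProfile θ θ') (x : E) : Rm P x = (Hm P).symm (-(Hm P x)) := rfl

lemma Rm_symm_apply (P : LimProfile θ θ') (x : E) : (Rm P).symm x = (Hm P).symm (-(Hm P x)) := rfl

lemma Rm_equi (P : LimProfile θ θ') : Equi (Rm P) := by
  intro x γ hγ
  rw [Rm_apply, Rm_apply, Hm_periodic P x hγ, neg_add, Hm_symm_periodic P _ (Gam.neg_mem hγ),
    add_sub_cancel_left]
  exact Gam.neg_mem hγ

lemma Rm_symm_equi (P : LimProfile θ θ') : Equi (Rm P).symm := Rm_equi P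

lemma Rm_contDiff (G : GoodProfile θ θ') : ContDiff ℝ 1 (Rm G.toLimProfile) :=
  G.Hm_symm_contDiff.comp (G.Hm_contDiff.neg)

/-- the symmetry of the torus -/
noncomputable def rT (G : GoodProfile θ θ') : Diff1 E Tor :=
  descDiff (Rm G.toLimProfile) (Rm_equi _) (Rm_symm_equi _) (Rm_contDiff G) (Rm_contDiff G)

lemma rT_tor (G : GoodProfile θ θ') (x : E) : rT G (tor x) = tor (Rm G.toLimProfile x) := rfl

lemma rT_comm (G : GoodProfile θ θ') (y : Tor) :
    rT G (fT G.toLimProfile y) = fT G.toLimProfile (rT G y) := by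
  obtain ⟨x, rfl⟩ := tor_surjective y
  rw [fT_tor, rT_tor, rT_tor, fT_tor, Rm_apply, Rm_apply, Hm_Fm, Fm_apply,
    Homeomorph.apply_symm_apply, map_neg L]

theorem not_trivialCentralizer (G : GoodProfile θ θ') :
    ¬ TrivialCentralizer (fT G.toLimProfile) := by
  intro h
  obtain ⟨n, hn⟩ := h (rT G) (rT_comm G)
  have h1 := hn (tor ((Hm G.toLimProfile).symm (1, 0)))
  rw [fT_zpow, rT_tor, tor_eq_iff] at h1
  set x0 := (Hm G.toLimProfile).symm (1, 0) with hx0
  set r0 := Rm G.toLimProfile x0 with hr0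
  have hr1 : Hm G.toLimProfile r0 = -((1, 0) : E) := by
    rw [hr0, Rm_apply, Homeomorph.apply_symm_apply, hx0, Homeomorph.apply_symm_apply]
  have h2 := Hm_periodic G.toLimProfile r0 h1
  rw [add_sub_cancel, Hm_Fz, hr1, hx0, Homeomorph.apply_symm_apply, ← hx0] at h2
  have h3 : Lz n ((1, 0) : E) + (1, 0) ∈ Gam := by
    have e : Lz n ((1, 0) : E) + (1, 0) = Fz G.toLimProfile n x0 - r0 := by
      rw [h2]; abel
    rw [e]
    exact h1
  have h4 := Gam_snd_zero h3 (by simp)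
  have h5 : gr ^ n + 1 = 0 := by simpa using congrArg Prod.fst h4
  have h6 : 0 < gr ^ n := zpow_pos gr_pos n
  linarith

end Pool.Agent.H56.Anosov
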