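import Pool.Agent.H56.Anosov.Lattice

/-!
# Slowly varying profiles and the conjugating maps
-/

namespace Pool.Agent.H56.Anosov

open Set Filter Topology

/-- support radius (squared) of the local perturbations -/
noncomputable def bb : ℝ := 1 / 10000

lemma bb_pos : 0 < bb := by norm_num [bb]

/-- modulus of slow variation -/
noncomputable def K (t : ℝ) : ℝ := (1 / 100) / (1 + max 0 (Real.log bb - Real.log t))

lemma K_pos (t : ℝ) : 0 < K t := by unfold K; positivity

lemma K_le (t : ℝ) : K t ≤ 1 / 100 := by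
  unfold K
  apply div_le_self (by norm_num)
  have := le_max_left 0 (Real.log bb - Real.log t)
  linarith

lemma K_mono {t t' : ℝ} (h0 : 0 < t) (h : t ≤ t') : K t ≤ K t' := by
  unfold K
  have hlog := Real.log_le_log h0 h
  gcongr

lemma K_tendsto : Tendsto K (𝓝[>] 0) (𝓝 0) := by
  unfold K
  apply Tendsto.div_atTop tendsto_const_nhds
  apply tendsto_atTop_add_const_left
  refine tendsto_atTop_mono (fun t => le_max_right _ _) ?_
  have := Real.tendsto_log_nhdsGT_zero
  apply tendsto_atTop_add_const_left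
  exact tendsto_neg_atBot_atTop.comp this

/-- Admissible profile: `θ` is `C^1` on `(0, ∞)`, nonnegative, vanishes on `[bb, ∞)` and varies
slowly in logarithmic scale. -/
structure Profile (θ θ' : ℝ → ℝ) : Prop where
  deriv : ∀ t, 0 < t → HasDerivAt θ (θ' t) t
  cont : ContinuousOn θ' (Set.Ioi 0)
  nonneg : ∀ t, 0 < t → 0 ≤ θ t
  supp : ∀ t, bb ≤ t → θ t = 0
  bound : ∀ t, 0 < t → |t * θ' t| ≤ K t

variable {θ θ' : ℝ → ℝ}

lemma Profile.contDiffAt (P : Profile θ θ') {t : ℝ} (ht : 0 < t) : ContDiffAt ℝ 1 θ t := by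
  have h : ContDiffOn ℝ 1 θ (Set.Ioi 0) := by
    have h1 : ((0 : ℕ) : WithTop ℕ∞) + 1 = 1 := by norm_num
    rw [← h1]
    rw [contDiffOn_succ_iff_deriv_of_isOpen isOpen_Ioi]
    refine ⟨fun t ht => (P.deriv t ht).differentiableAt.differentiableWithinAt, by simp, ?_⟩
    rw [Nat.cast_zero, contDiffOn_zero]
    exact P.cont.congr fun t ht => (P.deriv t ht).deriv
  exact h.contDiffAt (isOpen_Ioi.mem_nhds ht)

/-- Log-Lipschitz estimate. -/
lemma Profile.lip (P : Profile θ θ') {M t t' : ℝ} (ht : 0 < t) (ht' : 0 < t')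
    (hM : ∀ τ, min t t' ≤ τ → τ ≤ max t t' → |τ * θ' τ| ≤ M) :
    |θ t - θ t'| ≤ M * |Real.log t - Real.log t'| := by
  wlog h : t ≤ t' generalizing t t'
  · have := this ht' ht (fun τ h1 h2 => hM τ (by rwa [min_comm]) (by rwa [max_comm])) (by linarith)
    rwa [abs_sub_comm, abs_sub_comm (Real.log t')] at this
  rw [min_eq_left h, max_eq_right h] at hM
  have key := Convex.norm_image_sub_le_of_norm_hasDerivWithin_le
    (f := fun x => θ (Real.exp x)) (f' := fun x => θ' (Real.exp x) * Real.exp x)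
    (C := M) (s := Set.Icc (Real.log t) (Real.log t')) (x := Real.log t') (y := Real.log t)
    (fun x _ => ((P.deriv _ (Real.exp_pos x)).comp x (Real.hasDerivAt_exp x)).hasDerivWithinAt)
    (fun x hx => by
      rw [Real.norm_eq_abs, mul_comm]
      apply hM
      · rw [← Real.exp_log ht]; exact Real.exp_le_exp.2 hx.1
      · rw [← Real.exp_log ht']; exact Real.exp_le_exp.2 hx.2)
    (convex_Icc _ _) ⟨Real.log_le_log ht h, le_rfl⟩ ⟨le_rfl, Real.log_le_log ht h⟩
  simpa [Real.exp_log ht, Real.exp_log ht', Real.norm_eq_abs] using key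

lemma Profile.exp_bound (P : Profile θ θ') {t : ℝ} (ht : 0 < t) (hb : t < bb) :
    Real.exp (θ t) ≤ t ^ (-(1 / 4) : ℝ) := by
  have h1 := P.lip (M := 1 / 100) ht bb_pos (fun τ h1 _ => (P.bound τ
    (lt_of_lt_of_le (lt_min ht bb_pos) h1)).trans (K_le τ))
  rw [P.supp bb le_rfl, sub_zero, abs_of_nonneg (P.nonneg t ht)] at h1
  rw [Real.rpow_def_of_pos ht]
  apply Real.exp_le_exp.2
  have h2 : Real.log t < Real.log bb := Real.log_lt_log ht hb
  have h3 : Real.log bb < 0 := Real.log_neg bb_pos (by norm_num [bb])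
  rw [abs_of_neg (by linarith)] at h1
  linarith

/-! ### The displacement function -/

lemma near_unique {x σ σ' : E} (h : σ ∈ S) (h' : σ' ∈ S) (hx : q (x - σ) < 16 * bb)
    (hx' : q (x - σ') < 16 * bb) : σ = σ' := by
  by_contra hne
  have h1 := S_sep h h' hne
  have h2 : q (σ - σ') ≤ 2 * q (x - σ) + 2 * q (x - σ') := by
    have e : σ - σ' = (σ - x) + (x - σ') := by abel
    rw [e]
    refine (q_add_le _ _).trans ?_
    rw [q_sub_comm σ x]
  have : bb = 1 / 10000 := rfl
  rw [this] at hx hx'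
  linarith

open Classical in
/-- The displacement function on the plane. -/
noncomputable def eta (θ : ℝ → ℝ) (x : E) : ℝ :=
  if h : ∃ σ ∈ S, q (x - σ) < 16 * bb then
    (x - h.choose).1 * (Real.exp (θ (q (x - h.choose))) - 1) else 0

lemma eta_near {x σ : E} (hσ : σ ∈ S) (hx : q (x - σ) < 16 * bb) :
    eta θ x = (x - σ).1 * (Real.exp (θ (q (x - σ))) - 1) := by
  have h : ∃ σ ∈ S, q (x - σ) < 16 * bb := ⟨σ, hσ, hx⟩
  have e : h.choose = σ := near_unique h.choose_spec.1 hσ h.choose_spec.2 hx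
  unfold eta
  rw [dif_pos h, e]

lemma eta_far (P : Profile θ θ') {x : E} (hx : ∀ σ ∈ S, bb ≤ q (x - σ)) : eta θ x = 0 := by
  by_cases h : ∃ σ ∈ S, q (x - σ) < 16 * bb
  · obtain ⟨σ, hσ, h⟩ := h
    rw [eta_near hσ h, P.supp _ (hx σ hσ)]
    simp
  · unfold eta
    rw [dif_neg h]

lemma eta_periodic (x γ : E) (hγ : γ ∈ Gam) : eta θ (x + γ) = eta θ x := by
  by_cases h : ∃ σ ∈ S, q (x - σ) < 16 * bb
  · obtain ⟨σ, hσ, h⟩ := h
    have e : x + γ - (σ + γ) = x - σ := by abel
    rw [eta_near hσ h, eta_near (S_add hσ hγ) (by rw [e]; exact h), e]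
  · have h' : ¬ ∃ σ ∈ S, q (x + γ - σ) < 16 * bb := by
      rintro ⟨σ, hσ, h2⟩
      apply h
      refine ⟨σ - γ, ?_, ?_⟩
      · rw [sub_eq_add_neg]; exact S_add hσ (Gam.neg_mem hγ)
      · have e : x - (σ - γ) = x + γ - σ := by abel
        rw [e]; exact h2
    unfold eta
    rw [dif_neg h, dif_neg h']

lemma continuous_q : Continuous q := by unfold q; fun_prop

lemma contDiff_q : ContDiff ℝ 1 q := by unfold q; fun_prop

lemma eventually_near {x σ : E} {r : ℝ} (hx : q (x - σ) < r) : ∀ᶠ x' in 𝓝 x, q (x' - σ) < r := by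
  have : Continuous fun x' : E => q (x' - σ) := continuous_q.comp (by fun_prop)
  exact this.continuousAt.eventually (eventually_lt_nhds hx)

lemma eventually_far {x : E} {r r' : ℝ} (hr : 2 * r' < r) (hx : ∀ σ ∈ S, r ≤ q (x - σ)) :
    ∀ᶠ x' in 𝓝 x, ∀ σ ∈ S, r' ≤ q (x' - σ) := by
  have h0 : q (x - x) < (r - 2 * r') / 2 := by rw [sub_self, q_zero]; linarith
  filter_upwards [eventually_near h0] with x' hx' σ hσ
  have h1 := hx σ hσ
  have h2 : q (x - σ) ≤ 2 * q (x - x') + 2 * q (x' - σ) := by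
    have e : x - σ = (x - x') + (x' - σ) := by abel
    rw [e]; exact q_add_le _ _
  rw [q_sub_comm] at hx'
  linarith

lemma abs_fst_le (y : E) : |y.1| ≤ Real.sqrt (q y) := by
  apply Real.le_sqrt_of_sq_le
  rw [sq_abs]
  unfold q
  nlinarith [sq_nonneg y.2]

lemma abs_snd_le (y : E) : |y.2| ≤ Real.sqrt (q y) := by
  apply Real.le_sqrt_of_sq_le
  rw [sq_abs]
  unfold q
  nlinarith [sq_nonneg y.1]

lemma eta_small (P : Profile θ θ') {σ y : E} (hσ : σ ∈ S) (hy : q y < 16 * bb) :
    |eta θ (σ + y)| ≤ q y ^ (1 / 4 : ℝ) := by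
  have e : σ + y - σ = y := by abel
  rw [eta_near hσ (by rw [e]; exact hy), e]
  by_cases h0 : y = 0
  · subst h0; simp [q_zero]
  have hq := q_pos h0
  by_cases hb : bb ≤ q y
  · rw [P.supp _ hb]
    simp
    positivity
  push Not at hb
  have h1 := P.exp_bound hq hb
  have h2 : 1 ≤ Real.exp (θ (q y)) := Real.one_le_exp (P.nonneg _ hq)
  rw [abs_mul, abs_of_nonneg (by linarith : 0 ≤ Real.exp (θ (q y)) - 1)]
  calc |y.1| * (Real.exp (θ (q y)) - 1) ≤ Real.sqrt (q y) * q y ^ (-(1 / 4) : ℝ) := by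
        apply mul_le_mul (abs_fst_le y) (by linarith) (by linarith) (Real.sqrt_nonneg _)
    _ = q y ^ (1 / 4 : ℝ) := by
        rw [Real.sqrt_eq_rpow, ← Real.rpow_add hq]
        norm_num

/-- local formula for the displacement as a function of the whole plane -/
lemma eta_contDiffAt_of_not_mem (P : Profile θ θ') {x : E} (hx : x ∉ S) :
    ContDiffAt ℝ 1 (eta θ) x := by
  by_cases h : ∃ σ ∈ S, q (x - σ) < 16 * bb
  · obtain ⟨σ, hσ, h⟩ := h
    have hne : x - σ ≠ 0 := by
      intro h0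
      rw [sub_eq_zero] at h0
      exact hx (h0 ▸ hσ)
    have hloc : eta θ =ᶠ[𝓝 x] fun x' => (x' - σ).1 * (Real.exp (θ (q (x' - σ))) - 1) := by
      filter_upwards [eventually_near h] with x' hx'
      exact eta_near hσ hx'
    refine ContDiffAt.congr_of_eventuallyEq ?_ hloc
    have h1 : ContDiffAt ℝ 1 (fun x' : E => q (x' - σ)) x :=
      contDiff_q.contDiffAt.comp x (by fun_prop)
    have h2 : ContDiffAt ℝ 1 (fun x' : E => θ (q (x' - σ))) x :=
      (P.contDiffAt (q_pos hne)).comp x h1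
    have h3 : ContDiffAt ℝ 1 (fun x' : E => (x' - σ).1) x := by fun_prop
    exact h3.mul (h2.exp.sub contDiffAt_const)
  · push Not at h
    have hloc : eta θ =ᶠ[𝓝 x] fun _ => (0 : ℝ) := by
      filter_upwards [eventually_far (r' := bb) (by linarith [bb_pos]) h] with x' hx'
      exact eta_far P hx'
    exact contDiffAt_const.congr_of_eventuallyEq hloc

lemma eta_continuous (P : Profile θ θ') : Continuous (eta θ) := by
  rw [continuous_iff_continuousAt]
  intro x
  by_cases hx : x ∈ S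
  · have h0 : eta θ x = 0 := by
      rw [eta_near hx (by rw [sub_self, q_zero]; linarith [bb_pos])]
      simp
    rw [ContinuousAt, h0]
    have h1 : Tendsto (fun x' : E => q (x' - x) ^ (1 / 4 : ℝ)) (𝓝 x) (𝓝 0) := by
      have : Continuous fun x' : E => q (x' - x) ^ (1 / 4 : ℝ) :=
        (continuous_q.comp (by fun_prop)).rpow_const (fun _ => Or.inr (by norm_num))
      have h := this.tendsto x
      simpa [q_zero] using h
    refine squeeze_zero_norm' ?_ h1
    have h2 : q (x - x) < 16 * bb := by rw [sub_self, q_zero]; linarith [bb_pos]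
    filter_upwards [eventually_near h2] with x' hx'
    have := eta_small P (θ := θ) hx (y := x' - x) hx'
    have e : x + (x' - x) = x' := by abel
    rw [e] at this
    exact this
  · exact (eta_contDiffAt_of_not_mem P hx).continuousAt

/-- Good profile: constant near `0`. -/
structure GoodProfile (θ θ' : ℝ → ℝ) : Prop extends Profile θ θ' where
  const : ∃ δ > 0, ∃ c, 0 ≤ c ∧ ∀ t, 0 ≤ t → t < δ → θ t = c

lemma GoodProfile.eta_contDiff (P : GoodProfile θ θ') : ContDiff ℝ 1 (eta θ) := by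
  rw [contDiff_iff_contDiffAt]
  intro x
  by_cases hx : x ∈ S
  · obtain ⟨δ, hδ, c, _, hc⟩ := P.const
    have h2 : q (x - x) < 16 * bb := by rw [sub_self, q_zero]; linarith [bb_pos]
    have h3 : q (x - x) < δ := by rw [sub_self, q_zero]; exact hδ
    have hloc : eta θ =ᶠ[𝓝 x] fun x' => (x' - x).1 * (Real.exp c - 1) := by
      filter_upwards [eventually_near h2, eventually_near h3] with x' hx' hx''
      rw [eta_near hx hx', hc _ (q_nonneg _) hx'']
    refine ContDiffAt.congr_of_eventuallyEq ?_ hloc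
    fun_prop
  · exact eta_contDiffAt_of_not_mem P.toProfile hx

end Pool.Agent.H56.Anosov
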