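import Pool.Agent.H56.Anosov.Nontrivial

/-!
# Maps of the torus commuting with the linear hyperbolic map
-/

open scoped Topology
open Set Filter

namespace Pool.Agent.H56.Anosov

lemma exists_lift {g : Tor → Tor} (hg : Continuous g) :
    ∃ G : E → E, Continuous G ∧ ∀ x, tor (G x) = g (tor x) := by
  obtain ⟨e0, he0⟩ := tor_surjective (g (tor 0))
  let f : C(E, Tor) := ⟨fun x => g (tor x), hg.comp continuous_tor⟩
  obtain ⟨G, ⟨_, hG⟩, _⟩ := tor_covering.existsUnique_continuousMap_lifts f 0 e0 he0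
  exact ⟨G, G.continuous, fun x => congrFun hG x⟩

lemma const_of_Gam {f : E → E} (hf : Continuous f) (h : ∀ x, f x ∈ Gam) (x y : E) :
    f x = f y := by
  have h1 : IsLocallyConstant f := by
    rw [IsLocallyConstant.iff_eventually_eq]
    intro x
    exact locally_const hf.continuousAt (Eventually.of_forall h)
  exact h1.apply_eq_of_preconnectedSpace x y

lemma bounded_of_periodic {f : E → ℝ} (hf : Continuous f) (h : ∀ x, ∀ γ ∈ Gam, f (x + γ) = f x) :
    ∃ C, ∀ x, |f x| ≤ C := by
  obtain ⟨C, hC⟩ := isCompact_univ.exists_bound_of_continuousOn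
    (continuous_descR h hf).continuousOn
  exact ⟨C, fun x => hC (tor x) (mem_univ _)⟩

lemma zero_of_contract {f : E → ℝ} {C : ℝ} (hC : ∀ x, |f x| ≤ C)
    (h : ∀ x, ∃ y, |f x| ≤ 0.7 * |f y|) (x : E) : f x = 0 := by
  have key : ∀ n : ℕ, ∀ x, |f x| ≤ (0.7 : ℝ) ^ n * C := by
    intro n
    induction n with
    | zero => intro x; simpa using hC x
    | succ n ih =>
      intro x
      obtain ⟨y, hy⟩ := h x
      have := ih y
      rw [pow_succ]
      nlinarith
  have hlim : Tendsto (fun n : ℕ => (0.7 : ℝ) ^ n * C) atTop (𝓝 (0 * C)) :=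
    (tendsto_pow_atTop_nhds_zero_of_lt_one (by norm_num) (by norm_num)).mul_const C
  rw [zero_mul] at hlim
  have h0 : |f x| ≤ 0 := ge_of_tendsto' hlim (fun n => key n x)
  exact abs_nonpos_iff.1 h0

/-- coordinatewise product -/
def mulE (β z : E) : E := (β.1 * z.1, β.2 * z.2)

@[simp] lemma mulE_fst (β z : E) : (mulE β z).1 = β.1 * z.1 := rfl
@[simp] lemma mulE_snd (β z : E) : (mulE β z).2 = β.2 * z.2 := rfl

lemma mulE_gam (β : E) (m n : ℤ) : mulE β (gam m n) = (m : ℝ) • β + (n : ℝ) • L β := by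
  ext
  · simp; ring
  · simp; ring

theorem rigid {k : E → E} (hc : Continuous k) (h1 : ∀ z, ∀ γ ∈ Gam, k (z + γ) - k z ∈ Gam)
    (h2 : ∀ z, k (L z) - L (k z) ∈ Gam) :
    ∃ β ∈ Gam, ∃ τ ∈ Gam, ∀ z, k z = mulE β z - τ := by
  -- normalize
  set γ0 := k (L 0) - L (k 0) with hγ0
  have hγ0m : γ0 ∈ Gam := h2 0
  have h3 : ∀ z, k (L z) - L (k z) = γ0 := fun z =>
    const_of_Gam (f := fun z => k (L z) - L (k z)) (by fun_prop) h2 z 0
  set τ := L γ0 with hτ
  have hτm : τ ∈ Gam := L_mem hγ0m
  have hLL : L (L γ0) = L γ0 + γ0 := by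
    ext
    · simp; linear_combination γ0.1 * gr_sq
    · simp; linear_combination γ0.2 * gc_sq
  set K1 : E → E := fun z => k z + τ with hK1
  have hK1c : Continuous K1 := by fun_prop
  have h4 : ∀ z, K1 (L z) = L (K1 z) := by
    intro z
    have := h3 z
    rw [sub_eq_iff_eq_add] at this
    change k (L z) + τ = L (k z + τ)
    rw [this, map_add, hτ, hLL]
    abel
  have h5 : ∀ γ ∈ Gam, ∀ z, K1 (z + γ) = K1 z + (K1 γ - K1 0) := by
    intro γ hγ z
    have := const_of_Gam (f := fun z => k (z + γ) - k z) (by fun_prop) (fun z => h1 z γ hγ) z 0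
    simp only [zero_add] at this
    change k (z + γ) + τ = k z + τ + (k γ + τ - (k 0 + τ))
    rw [sub_eq_iff_eq_add] at this
    rw [this]
    abel
  have h0 : K1 0 = 0 := by
    have := h4 0
    rw [map_zero] at this
    have h6 : (gr - 1) * (K1 0).1 = 0 := by
      have := congrArg Prod.fst this
      simp only [L_fst] at this
      linarith
    have h7 : (gc - 1) * (K1 0).2 = 0 := by
      have := congrArg Prod.snd this
      simp only [L_snd] at this
      linarith
    ext
    · rcases mul_eq_zero.1 h6 with h | h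
      · linarith [gr_lower]
      · exact h
    · rcases mul_eq_zero.1 h7 with h | h
      · linarith [gc_neg]
      · exact h
  set β := K1 (gam 1 0) with hβ
  have hβm : β ∈ Gam := by
    have := h1 0 (gam 1 0) (gam_mem _ _)
    rw [zero_add] at this
    have e : β = k (gam 1 0) - k 0 := by
      have h8 : k 0 + τ = 0 := h0
      change k (gam 1 0) + τ = _
      rw [sub_eq_add_neg, ← neg_eq_of_add_eq_zero_right h8]
    rw [e]
    exact this
  -- additivity on the lattice
  have hadd : ∀ z, ∀ γ ∈ Gam, K1 (z + γ) = K1 z + K1 γ := by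
    intro z γ hγ
    rw [h5 γ hγ z, h0, sub_zero]
  let B : Gam →+ E :=
    { toFun := fun γ => K1 γ
      map_zero' := h0
      map_add' := fun a b => by
        change K1 ((a : E) + b) = _
        exact hadd _ _ b.2 }
  have hlat : ∀ m n : ℤ, K1 (gam m n) = mulE β (gam m n) := by
    intro m n
    have e1 : (⟨gam m n, gam_mem m n⟩ : Gam) = m • ⟨gam 1 0, gam_mem 1 0⟩ +
        n • ⟨gam 0 1, gam_mem 0 1⟩ := by
      apply Subtype.ext
      ext
      · simp
      · simp
    have e2 : K1 (gam m n) = B ⟨gam m n, gam_mem m n⟩ := rfl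
    have e3 : K1 (gam 0 1) = L β := by
      have : gam 0 1 = L (gam 1 0) := by rw [L_gam]; rfl
      rw [this, h4]
    rw [e2, e1, map_add, map_zsmul, map_zsmul]
    change m • K1 (gam 1 0) + n • K1 (gam 0 1) = _
    rw [e3, mulE_gam, ← Int.cast_smul_eq_zsmul ℝ, ← Int.cast_smul_eq_zsmul ℝ]
  -- the difference
  have hper : ∀ x, ∀ γ ∈ Gam, K1 (x + γ) - mulE β (x + γ) = K1 x - mulE β x := by
    rintro x _ ⟨m, n, rfl⟩
    rw [hadd x _ (gam_mem m n), hlat]
    ext
    · simp; ring
    · simp; ring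
  obtain ⟨C1, hC1⟩ := bounded_of_periodic (f := fun x => (K1 x - mulE β x).1)
    (by unfold mulE; fun_prop) (fun x γ hγ => by rw [hper x γ hγ])
  obtain ⟨C2, hC2⟩ := bounded_of_periodic (f := fun x => (K1 x - mulE β x).2)
    (by unfold mulE; fun_prop) (fun x γ hγ => by rw [hper x γ hγ])
  have z1 := zero_of_contract hC1 (fun x => ⟨L x, by
    rw [h4]
    have e : (L (K1 x) - mulE β (L x)).1 = gr * (K1 x - mulE β x).1 := by simp; ring
    rw [e, abs_mul, abs_of_pos gr_pos]
    have := abs_nonneg (K1 x - mulE β x).1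
    nlinarith [gr_lower]⟩)
  have z2 := zero_of_contract hC2 (fun x => ⟨L.symm x, by
    have e0 : K1 x = L (K1 (L.symm x)) := by
      rw [← h4, ContinuousLinearEquiv.apply_symm_apply]
    have e : (K1 x - mulE β x).2 = gc * (K1 (L.symm x) - mulE β (L.symm x)).2 := by
      rw [e0]
      simp
      linear_combination (-(β.2 * x.2)) * gc_mul_gr
    rw [e, abs_mul, abs_of_neg gc_neg]
    have := abs_nonneg (K1 (L.symm x) - mulE β (L.symm x)).2
    nlinarith [gc_lower]⟩)
  refine ⟨β, hβm, τ, hτm, fun z => ?_⟩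
  have e : K1 z = mulE β z := by
    rw [← sub_eq_zero]
    ext
    · exact z1 z
    · exact z2 z
  rw [← e]
  change k z = k z + τ - τ
  abel

end Pool.Agent.H56.Anosov
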