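import Pool.Agent.H56.Anosov.Lattice

/-!
# The torus `E ⧸ Gam` as a smooth manifold
-/

open scoped Manifold ContDiff Topology
open Set Filter

namespace Pool.Agent.H56.Anosov

/-- The torus. -/
abbrev Tor : Type := E ⧸ Gam

/-- The projection. -/
def tor (x : E) : Tor := QuotientAddGroup.mk x

lemma tor_eq_iff {x y : E} : tor x = tor y ↔ y - x ∈ Gam := by
  unfold tor
  rw [QuotientAddGroup.eq, neg_add_eq_sub]

lemma tor_add {x γ : E} (h : γ ∈ Gam) : tor (x + γ) = tor x := by
  rw [tor_eq_iff]
  have e : x - (x + γ) = -γ := by abel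
  rw [e]
  exact Gam.neg_mem h

lemma tor_surjective : Function.Surjective tor := Quotient.mk_surjective

lemma Gam_small {x : E} (hx : x ∈ Gam) (h : q x < 2) : x = 0 := by
  obtain ⟨m, n, rfl⟩ := hx
  by_contra hne
  have h2 : ¬ (m = 0 ∧ n = 0) := by
    rintro ⟨rfl, rfl⟩
    exact hne gam_zero
  linarith [q_gam_ge h2]

lemma q_le_norm (x : E) : q x ≤ 2 * ‖x‖ ^ 2 := by
  unfold q
  have h1 : |x.1| ≤ ‖x‖ := norm_fst_le x
  have h2 : |x.2| ≤ ‖x‖ := norm_snd_le x
  have h3 : x.1 ^ 2 ≤ ‖x‖ ^ 2 := by rw [← sq_abs]; gcongr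
  have h4 : x.2 ^ 2 ≤ ‖x‖ ^ 2 := by rw [← sq_abs]; gcongr
  linarith

lemma Gam_discrete : DiscreteTopology Gam := by
  apply DiscreteTopology.of_forall_le_dist (r := 1 / 2) (by norm_num)
  intro x y hxy
  by_contra hcon
  push Not at hcon
  apply hxy
  have h1 : (x : E) - y ∈ Gam := Gam.sub_mem x.2 y.2
  have h2 : dist (x : E) y < 1 / 2 := hcon
  rw [dist_eq_norm] at h2
  have h3 : q ((x : E) - y) < 2 := by
    have := q_le_norm ((x : E) - y)
    nlinarith [norm_nonneg ((x : E) - y)]
  have := Gam_small h1 h3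
  exact Subtype.ext (sub_eq_zero.1 this)

lemma Gam_isDiscrete : IsDiscrete (Gam : Set E) := ⟨Gam_discrete⟩

lemma tor_quotientCovering : IsAddQuotientCoveringMap tor Gam :=
  AddSubgroup.isAddQuotientCoveringMap_of_comm Gam Gam_isDiscrete

lemma tor_covering : IsCoveringMap tor := tor_quotientCovering.isCoveringMap

lemma tor_localHomeo : IsLocalHomeomorph tor := tor_covering.isLocalHomeomorph

lemma continuous_tor : Continuous tor := tor_covering.continuous

noncomputable instance : ChartedSpace E Tor := tor_localHomeo.chartedSpace tor_surjective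

instance : IsClosed (Gam : Set E) := by
  have := Gam_discrete
  exact AddSubgroup.isClosed_of_discrete

instance : T2Space Tor := inferInstance

lemma exists_small_rep (x : E) : ∃ a b : ℝ, a ∈ Icc (0 : ℝ) 1 ∧ b ∈ Icc (0 : ℝ) 1 ∧
    tor (a + b * gr, a + b * gc) = tor x := by
  have hne : gr - gc ≠ 0 := by linarith [gr_pos, gc_neg]
  set b := (x.1 - x.2) / (gr - gc) with hb
  set a := x.1 - b * gr with ha
  have e1 : x.1 = a + b * gr := by rw [ha]; ring
  have e2 : x.2 = a + b * gc := by
    have : b * (gr - gc) = x.1 - x.2 := by rw [hb]; field_simp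
    linarith
  refine ⟨Int.fract a, Int.fract b, ⟨Int.fract_nonneg a, (Int.fract_lt_one a).le⟩,
    ⟨Int.fract_nonneg b, (Int.fract_lt_one b).le⟩, ?_⟩
  rw [tor_eq_iff]
  refine ⟨⌊a⌋, ⌊b⌋, ?_⟩
  have h1 := Int.self_sub_fract a
  have h2 := Int.self_sub_fract b
  ext
  · simp only [Prod.fst_sub, gam_fst, ← h1, ← h2, e1]; ring
  · simp only [Prod.snd_sub, gam_snd, ← h1, ← h2, e2]; ring

instance : CompactSpace Tor := by
  have hK : IsCompact ((fun p : ℝ × ℝ => ((p.1 + p.2 * gr, p.1 + p.2 * gc) : E)) ''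
      (Icc (0 : ℝ) 1 ×ˢ Icc (0 : ℝ) 1)) :=
    (isCompact_Icc.prod isCompact_Icc).image (by fun_prop)
  have h : tor '' ((fun p : ℝ × ℝ => ((p.1 + p.2 * gr, p.1 + p.2 * gc) : E)) ''
      (Icc (0 : ℝ) 1 ×ˢ Icc (0 : ℝ) 1)) = univ := by
    apply eq_univ_of_forall
    intro y
    obtain ⟨x, rfl⟩ := tor_surjective y
    obtain ⟨a, b, ha, hb, he⟩ := exists_small_rep x
    exact ⟨_, ⟨(a, b), ⟨ha, hb⟩, rfl⟩, he⟩
  exact ⟨h ▸ hK.image continuous_tor⟩

instance : ConnectedSpace Tor := by
  have : ConnectedSpace E := inferInstance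
  exact tor_surjective.connectedSpace continuous_tor

/-! ### Charts -/

lemma chart_symm {e : OpenPartialHomeomorph Tor E} (he : e ∈ atlas E Tor) (z : E) :
    e.symm z = tor z := by
  obtain ⟨y, rfl⟩ := he
  exact congrFun (tor_localHomeo.localInverseAt_symm _) z

lemma tor_chart {e : OpenPartialHomeomorph Tor E} (he : e ∈ atlas E Tor) {y : Tor}
    (hy : y ∈ e.source) : tor (e y) = y := by
  rw [← chart_symm he, e.left_inv hy]

/-- A continuous function with values in the lattice is locally constant. -/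
lemma locally_const {X : Type*} [TopologicalSpace X] {f : X → E} {x : X}
    (hf : ContinuousAt f x) (hG : ∀ᶠ z in 𝓝 x, f z ∈ Gam) : ∀ᶠ z in 𝓝 x, f z = f x := by
  have h1 : ∀ᶠ z in 𝓝 x, q (f z - f x) < 2 := by
    have hc : ContinuousAt (fun z => q (f z - f x)) x := by
      have : Continuous q := by unfold q; fun_prop
      exact this.continuousAt.comp (hf.sub continuousAt_const)
    have h0 : q (f x - f x) < 2 := by rw [sub_self, q_zero]; norm_num
    exact hc.eventually (eventually_lt_nhds h0)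
  have hx : f x ∈ Gam := hG.self_of_nhds
  filter_upwards [h1, hG] with z hz1 hz2
  exact sub_eq_zero.1 (Gam_small (Gam.sub_mem hz2 hx) hz1)

/-- In charts, a map covered by `F` is `F` up to a constant. -/
lemma chart_comp_eventually {e : OpenPartialHomeomorph Tor E} (he : e ∈ atlas E Tor)
    {F : E → E} {x : E} (hF : ContinuousAt F x) (hx : tor (F x) ∈ e.source) :
    ∀ᶠ z in 𝓝 x, e (tor (F z)) = F z + (e (tor (F x)) - F x) := by
  have hc : ContinuousAt (fun z => e (tor (F z))) x := by
    have h1 : ContinuousAt (fun z => tor (F z)) x := continuous_tor.continuousAt.comp hF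
    exact ContinuousAt.comp (g := e) (f := fun z => tor (F z)) (e.continuousAt hx) h1
  have hsrc : ∀ᶠ z in 𝓝 x, tor (F z) ∈ e.source :=
    (continuous_tor.continuousAt.comp hF).eventually (e.open_source.mem_nhds hx)
  have := locally_const (f := fun z => e (tor (F z)) - F z) (hc.sub hF) (by
    filter_upwards [hsrc] with z hz
    rw [← tor_eq_iff, tor_chart he hz])
  filter_upwards [this] with z hz
  rw [← hz]; abel

instance : IsManifold 𝓘(ℝ, E) ∞ Tor := by
  apply isManifold_of_contDiffOn
  intro e e' he he' z hz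
  simp only [modelWithCornersSelf_coe, modelWithCornersSelf_coe_symm, Set.preimage_id, Set.range_id,
    Set.inter_univ, Function.comp_id, Function.id_comp] at hz ⊢
  have hz2 : tor z ∈ e'.source := by
    have := hz.2
    simp only [Set.mem_preimage, OpenPartialHomeomorph.symm_symm] at this
    rw [chart_symm he] at this
    exact this
  have hev := chart_comp_eventually he' (F := fun z => z) (x := z) continuousAt_id hz2
  have h1 : ContDiffAt ℝ ∞ (fun w : E => w + (e' (tor z) - z)) z := by fun_prop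
  have h2 : (e.symm.trans e' : E → E) =ᶠ[𝓝 z] fun w : E => w + (e' (tor z) - z) := by
    filter_upwards [hev] with w hw
    rw [OpenPartialHomeomorph.coe_trans, Function.comp_apply, chart_symm he]
    exact hw
  exact (h1.congr_of_eventuallyEq h2).contDiffWithinAt

end Pool.Agent.H56.Anosov
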