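import Pool.Agent.H56.Anosov.Torus
import Pool.Agent.H56.Anosov.Defs

/-!
# Maps of the torus and their lifts
-/

open scoped Manifold ContDiff Topology
open Set Filter Pool.Agent.H56.AnosovDefs

namespace Pool.Agent.H56.Anosov

/-- coordinates of `y` in its preferred chart -/
noncomputable def rep (y : Tor) : E := chartAt E y y

lemma tor_rep (y : Tor) : tor (rep y) = y :=
  tor_chart (chart_mem_atlas E y) (mem_chart_source E y)

lemma chart_lift_eventually {F : E → E} {f : Tor → Tor} (hf : ∀ x, tor (F x) = f (tor x))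
    (y : Tor) (hF : ContinuousAt F (rep y)) :
    ∀ᶠ z in 𝓝 (rep y), chartAt E (f y) (f ((chartAt E y).symm z)) =
      F z + (chartAt E (f y) (f y) - F (rep y)) := by
  have e1 : tor (F (rep y)) = f y := by rw [hf, tor_rep]
  have h := chart_comp_eventually (e := chartAt E (f y)) (chart_mem_atlas E (f y)) hF
    (by rw [e1]; exact mem_chart_source E (f y))
  filter_upwards [h] with z hz
  rw [chart_symm (chart_mem_atlas E y), ← hf, hz, e1]

lemma continuous_of_lift {F : E → E} {f : Tor → Tor} (hf : ∀ x, tor (F x) = f (tor x))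
    (hF : Continuous F) : Continuous f := by
  rw [tor_quotientCovering.toIsQuotientMap.continuous_iff]
  have : f ∘ tor = tor ∘ F := by ext1 x; exact (hf x).symm
  rw [this]
  exact continuous_tor.comp hF

lemma contMDiff_of_lift {F : E → E} {f : Tor → Tor} (hf : ∀ x, tor (F x) = f (tor x))
    (hF : ContDiff ℝ 1 F) : ContMDiff 𝓘(ℝ, E) 𝓘(ℝ, E) 1 f := by
  intro y
  rw [contMDiffAt_iff]
  refine ⟨(continuous_of_lift hf hF.continuous).continuousAt, ?_⟩
  have h := chart_lift_eventually hf y hF.continuous.continuousAt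
  have h1 : ContDiffAt ℝ 1 (fun z => F z + (chartAt E (f y) (f y) - F (rep y))) (rep y) := by
    fun_prop
  have h2 := h1.congr_of_eventuallyEq h
  have h3 := h2.contDiffWithinAt (s := univ)
  simpa [Function.comp_def, rep] using h3

lemma hasMFDerivAt_of_lift {F : E → E} {f : Tor → Tor} (hf : ∀ x, tor (F x) = f (tor x))
    (hc : Continuous F) (y : Tor) {F' : E →L[ℝ] E} (hF : HasFDerivAt F F' (rep y)) :
    HasMFDerivAt 𝓘(ℝ, E) 𝓘(ℝ, E) f y F' := by
  refine ⟨(continuous_of_lift hf hc).continuousAt, ?_⟩
  have h := chart_lift_eventually hf y hc.continuousAt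
  have h1 : HasFDerivAt (fun z => F z + (chartAt E (f y) (f y) - F (rep y))) F' (rep y) :=
    hF.add_const _
  have h2 := h1.congr_of_eventuallyEq h
  have h3 := h2.hasFDerivWithinAt (s := univ)
  rw [modelWithCornersSelf_coe, range_id]
  exact h3

lemma fderiv_periodic {F : E → E} {f : Tor → Tor} (hf : ∀ x, tor (F x) = f (tor x))
    (hc : Continuous F) {x γ : E} (hγ : γ ∈ Gam) : fderiv ℝ F (x + γ) = fderiv ℝ F x := by
  have h1 : ∀ z, F (z + γ) - F z ∈ Gam := by
    intro z
    rw [← tor_eq_iff, hf, hf, tor_add hγ]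
  have h2 := locally_const (f := fun z => F (z + γ) - F z) (x := x)
    (by fun_prop) (Eventually.of_forall h1)
  have h3 : (fun z => F (z + γ)) =ᶠ[𝓝 x] fun z => F z + (F (x + γ) - F x) := by
    filter_upwards [h2] with z hz
    rw [← hz]; abel
  have h4 : fderiv ℝ (fun z => F (z + γ)) x = fderiv ℝ F (x + γ) := by
    rw [fderiv_comp_add_right]
  rw [← h4, h3.fderiv_eq, fderiv_add_const]

lemma mfderiv_of_lift {F : E → E} {f : Tor → Tor} (hf : ∀ x, tor (F x) = f (tor x))
    (hF : ContDiff ℝ 1 F) (x : E) :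
    mfderiv 𝓘(ℝ, E) 𝓘(ℝ, E) f (tor x) = fderiv ℝ F x := by
  have h1 := hasMFDerivAt_of_lift hf hF.continuous (tor x)
    (hF.differentiable (by norm_num) (rep (tor x))).hasFDerivAt
  rw [h1.mfderiv]
  have h2 : rep (tor x) - x ∈ Gam := by
    rw [← tor_eq_iff, tor_rep]
  have h3 := fderiv_periodic hf hF.continuous (x := x) h2
  rw [add_sub_cancel] at h3
  exact h3

/-- The lift of a `C^1` map is differentiable. -/
lemma lift_differentiable {G : E → E} {g : Tor → Tor} (hg : ∀ x, tor (G x) = g (tor x))
    (hc : Continuous G) (hgs : ContMDiff 𝓘(ℝ, E) 𝓘(ℝ, E) 1 g) : Differentiable ℝ G := by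
  intro x
  set y := tor x with hy
  have h1 := hgs y
  rw [contMDiffAt_iff] at h1
  have h2 : ContDiffAt ℝ 1 (fun z => chartAt E (g y) (g ((chartAt E y).symm z))) (rep y) := by
    have := h1.2
    simp only [extChartAt, OpenPartialHomeomorph.extend, modelWithCornersSelf_partialEquiv,
      PartialEquiv.trans_refl, OpenPartialHomeomorph.toFun_eq_coe, range_id,
      modelWithCornersSelf_coe, OpenPartialHomeomorph.coe_toPartialEquiv_symm,
      contDiffWithinAt_univ] at this
    exact this
  have h3 := chart_lift_eventually hg y hc.continuousAt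
  have h4 : DifferentiableAt ℝ (fun z => G z + (chartAt E (g y) (g y) - G (rep y))) (rep y) :=
    (h2.congr_of_eventuallyEq (by
      filter_upwards [h3] with z hz; exact hz.symm)).differentiableAt (by norm_num)
  have h5 : DifferentiableAt ℝ G (rep y) := by
    have := h4.sub_const (chartAt E (g y) (g y) - G (rep y))
    simpa using this
  -- translate
  have hγ : rep y - x ∈ Gam := by rw [← tor_eq_iff, tor_rep]
  set γ := rep y - x with hγd
  have h6 : ∀ z, G (z + γ) - G z ∈ Gam := by
    intro z
    rw [← tor_eq_iff, hg, hg, tor_add hγ]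
  have h7 := locally_const (f := fun z => G (z + γ) - G z) (x := x)
    (by fun_prop) (Eventually.of_forall h6)
  have h8 : G =ᶠ[𝓝 x] fun z => G (z + γ) - (G (x + γ) - G x) := by
    filter_upwards [h7] with z hz
    rw [← hz]; abel
  have h9 : DifferentiableAt ℝ (fun z => G (z + γ)) x := by
    have e : x + γ = rep y := by rw [hγd]; abel
    have : DifferentiableAt ℝ G (x + γ) := by rw [e]; exact h5
    exact this.comp x (by fun_prop)
  exact (h9.sub_const _).congr_of_eventuallyEq h8

/-! ### Trivialization of the tangent bundle -/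

lemma triv_apply (y : Tor) (v : TangentBundle 𝓘(ℝ, E) Tor) (hv : v.proj ∈ (chartAt E y).source) :
    trivializationAt E (TangentSpace 𝓘(ℝ, E)) y v = (v.proj, v.snd) := by
  rw [TangentBundle.trivializationAt_apply]
  congr 1
  have hv2 : tor (rep v.proj) ∈ (chartAt E y).source := by rw [tor_rep]; exact hv
  have h := chart_comp_eventually (chart_mem_atlas E y) (F := fun z => z) (x := rep v.proj)
    continuousAt_id hv2
  have h1 : ((chartAt E y).extend 𝓘(ℝ, E) ∘ ((chartAt E v.proj).extend 𝓘(ℝ, E)).symm : E → E)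
      =ᶠ[𝓝 (rep v.proj)] fun z => z + (chartAt E y (tor (rep v.proj)) - rep v.proj) := by
    filter_upwards [h] with z hz
    have e : (chartAt E v.proj).symm z = tor z := chart_symm (chart_mem_atlas E v.proj) z
    simp [e, hz]
  have h2 : HasFDerivAt ((chartAt E y).extend 𝓘(ℝ, E) ∘
      ((chartAt E v.proj).extend 𝓘(ℝ, E)).symm : E → E)
      (ContinuousLinearMap.id ℝ E) (rep v.proj) :=
    HasFDerivAt.congr_of_eventuallyEq ((hasFDerivAt_id _).add_const _) h1
  have h3 : ((chartAt E v.proj).extend 𝓘(ℝ, E)) v.proj = rep v.proj := by simp [rep]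
  rw [h3, modelWithCornersSelf_coe, range_id, fderivWithin_univ, h2.fderiv]
  rfl

/-- the vector part of a tangent vector -/
def sndTB (v : TangentBundle 𝓘(ℝ, E) Tor) : E := v.snd

lemma continuous_snd_TB : Continuous sndTB := by
  rw [continuous_iff_continuousAt]
  intro v0
  set e := trivializationAt E (TangentSpace 𝓘(ℝ, E)) v0.proj with he
  have hmem : v0 ∈ e.source := by
    rw [e.mem_source]
    exact FiberBundle.mem_baseSet_trivializationAt' v0.proj
  have h1 : ContinuousAt (fun v => (e v).2) v0 :=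
    continuousAt_snd.comp (e.toOpenPartialHomeomorph.continuousAt hmem)
  refine h1.congr ?_
  have h2 : e.source ∈ 𝓝 v0 := e.open_source.mem_nhds hmem
  filter_upwards [h2] with v hv
  rw [e.mem_source] at hv
  have := triv_apply v0.proj v hv
  rw [← he] at this
  rw [this]
  rfl

lemma continuous_proj_TB : Continuous (fun v : TangentBundle 𝓘(ℝ, E) Tor => v.proj) :=
  FiberBundle.continuous_proj E (TangentSpace 𝓘(ℝ, E))

/-- build a tangent vector -/
def mkTB (y : Tor) (v : E) : TangentBundle 𝓘(ℝ, E) Tor := ⟨y, v⟩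

lemma continuous_mkTB : Continuous (fun p : Tor × E => mkTB p.1 p.2) := by
  rw [continuous_iff_continuousAt]
  rintro ⟨y0, v0⟩
  set e := trivializationAt E (TangentSpace 𝓘(ℝ, E)) y0 with he
  have hmem : (y0, v0) ∈ e.target := by
    rw [e.mem_target]
    exact FiberBundle.mem_baseSet_trivializationAt' y0
  have h1 : ContinuousAt e.toOpenPartialHomeomorph.symm (y0, v0) :=
    e.toOpenPartialHomeomorph.symm.continuousAt hmem
  refine h1.congr ?_
  have h2 : e.target ∈ 𝓝 (y0, v0) := e.open_target.mem_nhds hmem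
  filter_upwards [h2] with p hp
  have hp' : p.1 ∈ e.baseSet := e.mem_target.1 hp
  have hsrc : mkTB p.1 p.2 ∈ e.source := by rw [e.mem_source]; exact hp'
  have h3 := triv_apply y0 (mkTB p.1 p.2) hp'
  rw [← he] at h3
  have h4 := e.toOpenPartialHomeomorph.left_inv hsrc
  have h5 : e.toOpenPartialHomeomorph (mkTB p.1 p.2) = p := h3
  rw [h5] at h4
  exact h4

/-- The tangent bundle of the torus is trivial. -/
def trivTB : TangentBundle 𝓘(ℝ, E) Tor ≃ₜ Tor × E where
  toFun v := (v.proj, sndTB v)
  invFun p := mkTB p.1 p.2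
  left_inv _ := rfl
  right_inv _ := rfl
  continuous_toFun := continuous_proj_TB.prodMk continuous_snd_TB
  continuous_invFun := continuous_mkTB

end Pool.Agent.H56.Anosov
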