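import Pool.Agent.H56.Anosov.Units

/-!
# The limit map has trivial centralizer
-/

open scoped Manifold ContDiff Topology
open Set Filter Pool.Agent.H56.AnosovDefs

namespace Pool.Agent.H56.Anosov

variable {θ θ' : ℝ → ℝ}

lemma norm_form {β : E} (hβ : β ∈ Gam) : ∃ N : ℤ, β.1 * β.2 = N := by
  obtain ⟨m, n, rfl⟩ := hβ
  exact ⟨_, gam_norm m n⟩

/-- Form of the lift of a homeomorphism commuting with `f`. -/
lemma lift_form (P : LimProfile θ θ') {g : Tor → Tor} (hinj : Function.Injective g) {G : E → E}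
    (hGc : Continuous G) (hG : ∀ x, tor (G x) = g (tor x))
    (hcomm : ∀ y, g (fT P y) = fT P (g y)) :
    ∃ n : ℤ, ∃ τ ∈ Gam, (∀ z, Hm P (G ((Hm P).symm z)) = Lz n z - τ) ∨
      (∀ z, Hm P (G ((Hm P).symm z)) = -(Lz n z) - τ) := by
  set k : E → E := fun z => Hm P (G ((Hm P).symm z)) with hk
  have hkc : Continuous k := (Hm P).continuous.comp (hGc.comp (Hm P).symm.continuous)
  have hHG : ∀ x y : E, x - y ∈ Gam → Hm P x - Hm P y ∈ Gam := by
    intro x y h
    have := Hm_periodic P y h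
    rw [add_sub_cancel] at this
    rw [this, add_sub_cancel_left]
    exact h
  have hHG' : ∀ x y : E, x - y ∈ Gam → (Hm P).symm x - (Hm P).symm y ∈ Gam := by
    intro x y h
    have := Hm_symm_periodic P y h
    rw [add_sub_cancel] at this
    rw [this, add_sub_cancel_left]
    exact h
  have h1 : ∀ z, ∀ γ ∈ Gam, k (z + γ) - k z ∈ Gam := by
    intro z γ hγ
    apply hHG
    rw [← tor_eq_iff, hG, hG, Hm_symm_periodic P z hγ, tor_add hγ]
  have h2 : ∀ z, k (L z) - L (k z) ∈ Gam := by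
    intro z
    have e : L (k z) = Hm P (Fm P (G ((Hm P).symm z))) := by rw [Hm_Fm]
    rw [e]
    apply hHG
    rw [← tor_eq_iff, ← fT_tor, hG, hG, ← hcomm, fT_tor, Fm_apply, Homeomorph.apply_symm_apply]
  obtain ⟨β, hβ, τ, hτ, hform⟩ := rigid hkc h1 h2
  -- injectivity modulo the lattice
  have h3 : ∀ z, mulE β z ∈ Gam → z ∈ Gam := by
    intro z hz
    have h4 : k z - k 0 ∈ Gam := by
      rw [hform, hform]
      have e : mulE β z - τ - (mulE β 0 - τ) = mulE β z := by
        ext <;> simp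
      rw [e]; exact hz
    have h5 : G ((Hm P).symm z) - G ((Hm P).symm 0) ∈ Gam := by
      have := hHG' _ _ h4
      rwa [hk, Homeomorph.symm_apply_apply, Homeomorph.symm_apply_apply] at this
    rw [← tor_eq_iff, hG, hG] at h5
    have h6 := hinj h5
    rw [tor_eq_iff] at h6
    have := hHG _ _ h6
    rwa [Homeomorph.apply_symm_apply, Homeomorph.apply_symm_apply, sub_zero] at this
  have hβne : β ≠ 0 := by
    intro h0
    have h4 : ((1 / 2 : ℝ), (0 : ℝ)) ∈ Gam := h3 _ (by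
      have : mulE β ((1 / 2 : ℝ), (0 : ℝ)) = 0 := by rw [h0]; ext <;> simp
      rw [this]; exact Gam.zero_mem)
    have h5 := Gam_snd_zero h4 rfl
    have := congrArg Prod.fst h5
    norm_num at this
  have hβ1 : β.1 ≠ 0 := fun h => hβne (Gam_fst_zero hβ h)
  have hβ2 : β.2 ≠ 0 := fun h => hβne (Gam_snd_zero hβ h)
  have h7 : ((β.1⁻¹, β.2⁻¹) : E) ∈ Gam := by
    apply h3
    refine ⟨1, 0, ?_⟩
    ext
    · simp [hβ1]
    · simp [hβ2]
  obtain ⟨N, hN⟩ := norm_form hβ
  obtain ⟨N', hN'⟩ := norm_form h7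
  have h8 : (N : ℝ) * N' = 1 := by
    rw [← hN, ← hN']
    field_simp
  have h9 : N * N' = 1 := by exact_mod_cast h8
  have h10 : |N| = 1 := by
    have := Int.isUnit_iff.1 (IsUnit.of_mul_eq_one _ h9)
    rcases this with h | h <;> rw [h] <;> norm_num
  have h11 : |β.1 * β.2| = 1 := by
    rw [hN, ← Int.cast_abs, h10, Int.cast_one]
  obtain ⟨n, hn⟩ := unit_form hβ h11
  refine ⟨n, τ, hτ, ?_⟩
  rcases hn with h | h
  · left
    intro z
    change k z = _
    rw [hform, h]
    rfl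
  · right
    intro z
    change k z = _
    rw [hform, h]
    congr 1
    ext
    · simp
    · simp

/-- Diverging profile: the sign `-1` is impossible for differentiable `g`. -/
lemma no_neg (P : LimProfile θ θ') (hinf : Tendsto θ (𝓝[>] 0) atTop) {G : E → E}
    (hGd : Differentiable ℝ G) {n : ℤ} {τ : E} (hτ : τ ∈ Gam)
    (h : ∀ z, Hm P (G ((Hm P).symm z)) = -(Lz n z) - τ) : False := by
  obtain ⟨σ, hσ⟩ := S_nonempty
  have hb := bb_pos
  -- formula for `G`
  have hG : ∀ x, G x = (Hm P).symm (-(Lz n (Hm P x))) - τ := by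
    intro x
    have h1 := h (Hm P x)
    rw [Homeomorph.symm_apply_apply] at h1
    have h2 := Hm_symm_periodic P (-(Lz n (Hm P x))) (Gam.neg_mem hτ)
    rw [← sub_eq_add_neg, ← sub_eq_add_neg, ← h1, Homeomorph.symm_apply_apply] at h2
    exact h2
  set p := -(Lz n σ) with hp
  -- `H` is the identity near `p`
  have hpfar : ∀ σ' ∈ S, 2 / 121 ≤ q (p - σ') := by
    intro σ' hσ'
    have hmem := Lz_S n hσ
    have hne : p ≠ σ' := by
      intro h0
      rw [← h0] at hσ'
      exact S_neg hmem hσ'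
    obtain ⟨a, b, _, hab⟩ := hmem
    obtain ⟨c, d, _, hcd⟩ := hσ'
    have e : p = frac (-a) (-b) := by
      rw [hp, hab, frac, frac, ← smul_neg, gam_neg]
    rw [e, hcd] at hne ⊢
    exact frac_sep hne
  have hev : ∀ᶠ z in 𝓝 p, (Hm P).symm z = z := by
    have h1 : ∀ᶠ z in 𝓝 p, ∀ σ' ∈ S, bb ≤ q (z - σ') :=
      eventually_far (r := 2 / 121) (by norm_num [bb]) hpfar
    filter_upwards [h1] with z hz
    have := Hm_far P hz
    conv_lhs => rw [← this]
    rw [Homeomorph.symm_apply_apply]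
  have hLc : Continuous (Lz n) := by unfold Lz; fun_prop
  have hcont : Continuous fun t : ℝ => -(Lz n (Hm P (σ + (t, 0)))) := by
    have := (Hm P).continuous
    fun_prop
  have h0 : -(Lz n (Hm P (σ + ((0 : ℝ), (0 : ℝ))))) = p := by
    have : σ + ((0 : ℝ), (0 : ℝ)) = σ := by ext <;> simp
    rw [this, Hm_S P hσ]
  have hev2 : ∀ᶠ t : ℝ in 𝓝 0, G (σ + (t, 0)) = -(Lz n (Hm P (σ + (t, 0)))) - τ := by
    have := hcont.tendsto 0
    rw [h0] at this
    filter_upwards [this.eventually hev] with t ht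
    rw [hG, ht]
  have hev3 : ∀ᶠ t : ℝ in 𝓝 0, q ((t, 0) : E) < 16 * bb := by
    have : Continuous fun t : ℝ => q ((t, 0) : E) := continuous_q.comp (by fun_prop)
    apply this.continuousAt.eventually (eventually_lt_nhds _)
    have h5 : q (((0 : ℝ), (0 : ℝ)) : E) = 0 := q_zero
    change q (((0 : ℝ), (0 : ℝ)) : E) < 16 * bb
    rw [h5]; linarith
  -- derivative along the line
  have hGd1 : HasDerivAt (fun t : ℝ => (G (σ + (t, 0))).1)
      ((fderiv ℝ G (σ + ((0 : ℝ), (0 : ℝ))) (1, 0)).1) 0 := by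
    have h1 : HasDerivAt (fun t : ℝ => σ + ((t, 0) : E)) (1, 0) 0 := by
      have := ((hasDerivAt_id (0 : ℝ)).prodMk (hasDerivAt_const (0 : ℝ) (0 : ℝ))).const_add σ
      exact this
    have h2 : HasFDerivAt G (fderiv ℝ G (σ + ((0 : ℝ), (0 : ℝ)))) (σ + ((0 : ℝ), (0 : ℝ))) :=
      (hGd _).hasFDerivAt
    have h3 := HasFDerivAt.comp_hasDerivAt (0 : ℝ) h2 h1
    exact (hasFDerivAt_fst.comp_hasDerivAt (0 : ℝ) h3)
  have hslope := hGd1.tendsto_slope
  have hslope2 : Tendsto (slope (fun t : ℝ => (G (σ + (t, 0))).1) 0) (𝓝[>] 0)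
      (𝓝 ((fderiv ℝ G (σ + ((0 : ℝ), (0 : ℝ))) (1, 0)).1)) :=
    hslope.mono_left (nhdsWithin_mono _ (fun x hx => ne_of_gt hx))
  -- but the slope diverges
  have hdiv : Tendsto (fun t : ℝ => -(gr ^ n * Real.exp (θ (t ^ 2)))) (𝓝[>] 0) atBot := by
    apply tendsto_neg_atTop_atBot.comp
    apply Tendsto.const_mul_atTop (zpow_pos gr_pos n)
    apply Real.tendsto_exp_atTop.comp
    apply hinf.comp
    rw [tendsto_nhdsWithin_iff]
    constructor
    · have : Tendsto (fun t : ℝ => t ^ 2) (𝓝 0) (𝓝 (0 ^ 2)) := (continuous_pow 2).tendsto 0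
      rw [zero_pow (by norm_num)] at this
      exact this.mono_left nhdsWithin_le_nhds
    · filter_upwards [self_mem_nhdsWithin] with t ht
      exact pow_pos (show (0 : ℝ) < t from ht) 2
  have heq : slope (fun t : ℝ => (G (σ + (t, 0))).1) 0 =ᶠ[𝓝[>] 0]
      fun t : ℝ => -(gr ^ n * Real.exp (θ (t ^ 2))) := by
    have hev2' := hev2.filter_mono (nhdsWithin_le_nhds (s := Set.Ioi (0 : ℝ)))
    have hev3' := hev3.filter_mono (nhdsWithin_le_nhds (s := Set.Ioi (0 : ℝ)))
    filter_upwards [hev2', hev3', self_mem_nhdsWithin] with t h1 h2 ht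
    have ht' : (0 : ℝ) < t := ht
    have h3 : G (σ + ((0 : ℝ), (0 : ℝ))) = p - τ := by rw [hev2.self_of_nhds, h0]
    rw [slope_def_field, h1, h3, Hm_near P hσ h2]
    have e : q ((t, 0) : E) = t ^ 2 := by simp [q]
    rw [e, hp]
    simp
    field_simp
    ring
  have hdiv2 := hdiv.congr' heq.symm
  exact not_tendsto_nhds_of_tendsto_atBot hdiv2 _ hslope2

theorem trivialCentralizer (P : LimProfile θ θ') (hinf : Tendsto θ (𝓝[>] 0) atTop) :
    TrivialCentralizer (fT P) := by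
  intro g hg
  obtain ⟨G, hGc, hG⟩ := exists_lift g.continuous
  obtain ⟨n, τ, hτ, hform⟩ := lift_form P g.injective hGc hG hg
  rcases hform with hform | hform
  · refine ⟨n, fun y => ?_⟩
    obtain ⟨x, rfl⟩ := tor_surjective y
    rw [fT_zpow, ← hG, tor_eq_iff]
    have h1 := hform (Hm P x)
    rw [Homeomorph.symm_apply_apply] at h1
    have h2 := Hm_symm_periodic P (Lz n (Hm P x)) (Gam.neg_mem hτ)
    rw [← sub_eq_add_neg, ← h1, Homeomorph.symm_apply_apply] at h2
    rw [h2]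
    change Fz P n x - (Fz P n x + -τ) ∈ Gam
    have e : Fz P n x - (Fz P n x + -τ) = τ := by abel
    rw [e]
    exact hτ
  · exact (no_neg P hinf (lift_differentiable hG hGc g.contMDiff_toFun) hτ hform).elim

end Pool.Agent.H56.Anosov
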