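import Pool.Agent.H56.Anosov.Rigid

/-!
# Units of the golden lattice
-/

open scoped Topology
open Set Filter

namespace Pool.Agent.H56.Anosov

lemma gr_mul_gc_zpow (n : ℤ) : |gc| ^ n = gr ^ (-n) := by
  have : |gc| = gr⁻¹ := by rw [abs_of_neg gc_neg, gr_inv]
  rw [this, inv_zpow, zpow_neg]

/-- A lattice element with `|product| = 1` is `± φ^n`. -/
lemma unit_form {β : E} (hβ : β ∈ Gam) (h : |β.1 * β.2| = 1) :
    ∃ n : ℤ, β = (gr ^ n, gc ^ n) ∨ β = -((gr ^ n, gc ^ n) : E) := by
  have hne : β.1 ≠ 0 := by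
    intro h0
    rw [h0, zero_mul, abs_zero] at h
    exact one_ne_zero h.symm
  have hpos : 0 < |β.1| := abs_pos.2 hne
  obtain ⟨n, hn1, hn2⟩ := exists_mem_Ico_zpow (y := gr) hpos (by linarith [gr_lower])
  -- divide by `φ^n`
  have hgm : Lz (-n) β ∈ Gam := Lz_mem (-n) hβ
  set ε := Lz (-n) β with hε
  have hgn : 0 < gr ^ n := zpow_pos gr_pos n
  have e1 : |ε.1| = |β.1| / gr ^ n := by
    rw [hε, Lz_fst, abs_mul, abs_of_pos (zpow_pos gr_pos _), zpow_neg]
    field_simp
  have e12 : |ε.1 * ε.2| = 1 := by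
    rw [hε, Lz_fst, Lz_snd]
    have e : gr ^ (-n) * β.1 * (gc ^ (-n) * β.2) = (gr * gc) ^ (-n) * (β.1 * β.2) := by
      rw [mul_zpow]; ring
    rw [e, abs_mul, h, gr_mul_gc, abs_zpow, abs_neg, abs_one, one_zpow, one_mul]
  have hlow : 1 ≤ |ε.1| := by
    rw [e1, le_div_iff₀ hgn, one_mul]; exact hn1
  have hup : |ε.1| < gr := by
    rw [e1, div_lt_iff₀ hgn]
    rw [zpow_add_one₀ gr_ne_zero] at hn2
    linarith
  have hε2 : |ε.2| ≤ 1 := by
    rw [abs_mul] at e12
    by_contra hcon
    push Not at hcon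
    nlinarith
  obtain ⟨c, d, hcd⟩ := hgm
  have key : ε = (1, 1) ∨ ε = -((1, 1) : E) := by
    have hf : ε.1 = c + d * gr := by rw [hcd]; rfl
    have hs : ε.2 = c + d * gc := by rw [hcd]; rfl
    have hdiff : ε.1 - ε.2 = d * (2 * gr - 1) := by rw [hf, hs, gc_def]; ring
    have habs : |(d : ℝ)| < 2 := by
      have h1 : |ε.1 - ε.2| ≤ |ε.1| + |ε.2| := abs_sub _ _
      rw [hdiff, abs_mul, abs_of_pos (by linarith [gr_lower] : (0 : ℝ) < 2 * gr - 1)] at h1
      by_contra hcon
      push Not at hcon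
      nlinarith [gr_lower, gr_upper]
    have hd : |d| < 2 := by exact_mod_cast habs
    have hd1 := (abs_lt.1 hd).1
    have hd2 := (abs_lt.1 hd).2
    have hgl := gr_lower
    have hgu := gr_upper
    have hgcl := gc_lower
    have hgcu := gc_upper
    have hup' := abs_lt.1 hup
    have hε2' := abs_le.1 hε2
    rw [hf] at hlow hup'
    rw [hs] at hε2'
    have hd3 : d = -1 ∨ d = 0 ∨ d = 1 := by omega
    rcases hd3 with rfl | rfl | rfl
    · -- `d = -1`
      exfalso
      push_cast at hup' hε2' hlow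
      have c1 : (c : ℝ) < 1 := by linarith [hε2'.2]
      have c2 : (-1 : ℝ) < c := by linarith [hup'.1, hε2'.1]
      have c3 : c = 0 := by
        have : c < 1 := by exact_mod_cast c1
        have : -1 < c := by exact_mod_cast c2
        omega
      subst c3
      have := hup'.1
      norm_num at this
    · simp only [Int.cast_zero, zero_mul, add_zero] at hup' hlow hf hs
      have c1 : (c : ℝ) < 2 := by linarith [hup'.2]
      have c2 : (-2 : ℝ) < c := by linarith [hup'.1]
      have c3 : c < 2 := by exact_mod_cast c1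
      have c4 : -2 < c := by exact_mod_cast c2
      have c5 : c ≠ 0 := by
        rintro rfl
        norm_num at hlow
      have c6 : c = 1 ∨ c = -1 := by omega
      rcases c6 with rfl | rfl
      · left; ext
        · rw [hf]; norm_num
        · rw [hs]; norm_num
      · right; ext
        · rw [hf]; norm_num
        · rw [hs]; norm_num
    · exfalso
      push_cast at hup' hε2' hlow
      have c1 : (c : ℝ) < 1 := by linarith [hup'.2]
      have c2 : (-1 : ℝ) < c := by linarith [hε2'.1]
      have c3 : c = 0 := by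
        have : c < 1 := by exact_mod_cast c1
        have : -1 < c := by exact_mod_cast c2
        omega
      subst c3
      have := hup'.2
      norm_num at this
  have hβε : β = Lz n ε := by
    rw [hε]
    ext
    · rw [Lz_fst, Lz_fst, ← mul_assoc, ← zpow_add₀ gr_ne_zero, add_neg_cancel, zpow_zero, one_mul]
    · rw [Lz_snd, Lz_snd, ← mul_assoc, ← zpow_add₀ gc_ne_zero, add_neg_cancel, zpow_zero, one_mul]
  refine ⟨n, ?_⟩
  rcases key with h | h
  · left; rw [hβε, h]; ext <;> simp
  · right; rw [hβε, h]; ext <;> simp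

end Pool.Agent.H56.Anosov
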